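import Pool.Agent.T2h79.XM.Z.Desc
import Pool.Agent.T2h79.XM.KP

/-!
# The isogeny between the two twists
-/

set_option autoImplicit false
set_option linter.unusedVariables false
set_option linter.unusedSectionVars false

namespace Pool.Agent.T2h79.XM.Z

open Pool.Agent.T2h79.XM
open Pool.Agent.N916.GB (Gd Po)
open WeierstrassCurve Pool.Agent.H437R2.Man.MW

lemma sq_finite (d : ℚ) : {r : ℚ | r ^ 2 = d}.Finite := by
  by_cases h : ∃ s : ℚ, s ^ 2 = d
  · obtain ⟨s, rfl⟩ := h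
    refine (Set.toFinite ({s, -s} : Set ℚ)).subset fun r hr => ?_
    exact sq_eq_sq_iff_eq_or_eq_neg.1 hr
  · have : {r : ℚ | r ^ 2 = d} = ∅ := by
      ext r
      exact ⟨fun hr => h ⟨r, hr⟩, fun hr => absurd hr (Set.notMem_empty r)⟩
    rw [this]
    exact Set.finite_empty

lemma quad_finite (b c : ℚ) : {x : ℚ | x ^ 2 + b * x + c = 0}.Finite := by
  have h1 := (sq_finite (b ^ 2 / 4 - c)).preimage (f := fun x : ℚ => x + b / 2)
    (fun x _ y _ h => add_right_cancel h)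
  refine h1.subset fun x hx => ?_
  have hx' : x ^ 2 + b * x + c = 0 := hx
  show (x + b / 2) ^ 2 = b ^ 2 / 4 - c
  linear_combination hx'

/-- the identities behind the isogeny -/
lemma iso_id (X y M : ℚ) (hX : X ≠ 0) (hy : y ^ 2 = (X - 25 * M) * (X - 16 * M) * X) :
    y ^ 2 / X ^ 2 = (X - 25 * M) * (X - 16 * M) / X := by
  rw [hy]
  field_simp

lemma iso_id1 (X y M : ℚ) (hX : X ≠ 0) (hy : y ^ 2 = (X - 25 * M) * (X - 16 * M) * X) :
    (y * (400 * M ^ 2 - X ^ 2) / X ^ 2) ^ 2 =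
      (y ^ 2 / X ^ 2 + 0) * (y ^ 2 / X ^ 2 + 1 * M) * (y ^ 2 / X ^ 2 + 81 * M) := by
  have e1 := iso_id X y M hX hy
  have e2 : (y * (400 * M ^ 2 - X ^ 2) / X ^ 2) ^ 2 =
      (y ^ 2 / X ^ 2) * ((400 * M ^ 2 - X ^ 2) ^ 2 / X ^ 2) := by
    field_simp
  rw [e2, e1]
  field_simp
  ring

lemma iso_id2 (X y M : ℚ) (hX : X ≠ 0) (hy : y ^ 2 = (X - 25 * M) * (X - 16 * M) * X) :
    (X - 25 * M) ^ 2 + (50 * M - (41 * M + y ^ 2 / X ^ 2)) * (X - 25 * M) +
      (625 * M ^ 2 - (41 * M + y ^ 2 / X ^ 2) * (25 * M) + 400 * M ^ 2) = 0 := by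
  rw [iso_id X y M hX hy]
  field_simp
  ring

/-- the isogeny has finite fibres -/
theorem iso_finite {m : ℕ} (hm : m ≠ 0) (h : Finite (Pt (0 : ℚ) (1 * m) (81 * m))) :
    Finite (Pt (0 : ℚ) (9 * m) (25 * m)) := by
  have hm0 : (m : ℚ) ≠ 0 := by exact_mod_cast hm
  have q12 : (0 : ℚ) ≠ 1 * m := by intro h; apply hm0; linarith
  have q13 : (0 : ℚ) ≠ 81 * m := by intro h; apply hm0; linarith
  have q23 : (1 * m : ℚ) ≠ 81 * m := by intro h; apply hm0; linarith
  -- the first coordinates on the second curve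
  have hF : {u : ℚ | ∃ v : ℚ, v ^ 2 = (u + 0) * (u + 1 * m) * (u + 81 * m)}.Finite := by
    refine (Set.finite_range fun Q : Pt (0 : ℚ) (1 * m) (81 * m) =>
      (coord Q).elim 0 Prod.fst).subset ?_
    rintro u ⟨v, hv⟩
    exact ⟨Affine.Point.some u v (crv_nonsing q12 q13 q23 hv), rfl⟩
  -- the coordinates on the first curve
  have hS : {z : ℚ × ℚ | z.2 ^ 2 = (z.1 + 0) * (z.1 + 9 * m) * (z.1 + 25 * m)}.Finite := by
    have hx : {x : ℚ | ∃ y : ℚ, y ^ 2 = (x + 0) * (x + 9 * m) * (x + 25 * m)}.Finite := by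
      have h1 : (⋃ u ∈ {u : ℚ | ∃ v : ℚ, v ^ 2 = (u + 0) * (u + 1 * m) * (u + 81 * m)},
          {x : ℚ | x ^ 2 + (50 * m - (41 * m + u)) * x +
            (625 * m ^ 2 - (41 * m + u) * (25 * m) + 400 * m ^ 2) = 0}).Finite :=
        hF.biUnion fun u _ => quad_finite _ _
      refine (h1.union (Set.finite_singleton (-(25 * (m : ℚ))))).subset ?_
      rintro x ⟨y, hy⟩
      by_cases hX : x + 25 * m = 0
      · right
        show x = -(25 * (m : ℚ))
        linarith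
      · left
        rw [Set.mem_iUnion₂]
        have hX' : x + 25 * (m : ℚ) ≠ 0 := hX
        obtain ⟨X, hXd⟩ : ∃ X : ℚ, X = x + 25 * m := ⟨_, rfl⟩
        obtain rfl : x = X - 25 * m := by rw [hXd]; ring
        have e0 : X - 25 * (m : ℚ) + 25 * m = X := by ring
        rw [e0] at hX'
        have hy' : y ^ 2 = (X - 25 * m) * (X - 16 * m) * X := by
          rw [hy]
          ring
        exact ⟨y ^ 2 / X ^ 2, ⟨y * (400 * m ^ 2 - X ^ 2) / X ^ 2, iso_id1 X y m hX' hy'⟩,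
          iso_id2 X y m hX' hy'⟩
    have h2 : (⋃ x ∈ {x : ℚ | ∃ y : ℚ, y ^ 2 = (x + 0) * (x + 9 * m) * (x + 25 * m)},
        ({x} : Set ℚ) ×ˢ {y : ℚ | y ^ 2 = (x + 0) * (x + 9 * m) * (x + 25 * m)}).Finite :=
      hx.biUnion fun x _ => (Set.finite_singleton x).prod (sq_finite _)
    refine h2.subset fun z hz => ?_
    rw [Set.mem_iUnion₂]
    exact ⟨z.1, ⟨z.2, hz⟩, rfl, hz⟩
  -- the points
  have h3 : (Set.range (coord : Pt (0 : ℚ) (9 * m) (25 * m) → Option (ℚ × ℚ))).Finite := by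
    refine ((hS.image some).insert none).subset ?_
    rintro _ ⟨P, rfl⟩
    match P with
    | 0 => exact Or.inl rfl
    | .some x y h => exact Or.inr ⟨(x, y), crv_eqn.1 h.1, rfl⟩
  have h4 : (Set.univ : Set (Pt (0 : ℚ) (9 * m) (25 * m))).Finite := by
    rw [← Set.image_univ] at h3
    exact h3.of_finite_image coord_inj.injOn
  exact Set.finite_univ_iff.1 h4

/-- **The second criterion.** -/
theorem criterionz {m n : ℕ} {t : Bool} {r s' : ZMod 2} (hm : Squarefree m) (hm1 : m ≠ 1)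
    (hp : Par m n t r s') (hm3 : m % 3 = 1) (hm5 : m % 5 = 1 ∨ m % 5 = 4)
    (hG : Gz t r s' n.primeFactors) (K : Type) [Field K] [NumberField K]
    (h2 : Module.finrank ℚ K = 2) (s : K) (hs : s ^ 2 = -(m : K)) :
    Finite (X015 K).toAffine.Point := by
  classical
  exact x015_finite (ek_finite h2 (Nat.pos_of_ne_zero hm.ne_zero) hs
    (iso_finite hm.ne_zero (twz_finite hm hm1 hp hm3 hm5 hG)))

end Pool.Agent.T2h79.XM.Z
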