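import Pool.Agent.T2h79.XM.Z.Stm
import Pool.Agent.N218.GB.Asy
import Pool.Agent.N19.GB.Parts
import Pool.Agent.N148.GB.HAL
import Pool.Agent.N148.GB.BAD
import Pool.Agent.N509.GB.FE2
import Pool.Agent.Y488.CX.Sie
import Pool.Agent.N502.GB.CNT
import Pool.Agent.N502.GB.FE1

/-!
# Z4 (helper4): the final asymptotics (after `Pool/Agent/N218/GB/Asy.lean`)
-/

set_option autoImplicit false
set_option linter.all false

open scoped Classical
open Finset Filter

namespace Pool.Agent.T2h79.XM.Z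

open Pool.Agent.N916.GB
open Pool.Agent.N218.GB.Asy
open Pool.Agent.Y703.CX (sm la jj XX eL zz kk S_SIE eL_tendsto logX_eq HH NN ev_eL one_le_exp
  HH_ge HH_le HH_pos kk_ge kk_le X_pos one_add_log lin_le kap zz_ge zz_pos kap_nonneg kap_pow kap_le)

theorem SSz_sub (K : Finset ℕ) (X : ℕ) : SSz K X ⊆ SA X := by
  intro S hS
  unfold SSz SA at *
  rw [mem_filter] at hS ⊢
  exact ⟨hS.1, hS.2.1.1, hS.2.2⟩

theorem five_le_zz {X : ℕ} (h : 3 ≤ eL X) : 5 ≤ zz X := by
  have h1 := zz_ge (X := X) (by linarith)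
  have h2 := Real.add_one_le_exp ((eL X) ^ 3)
  have h3 : (3 : ℝ) ^ 3 ≤ (eL X) ^ 3 := pow_le_pow_left₀ (by norm_num) h 3
  have h4 : (5 : ℝ) ≤ zz X := by
    norm_num at h3
    linarith
  exact_mod_cast h4

/-- the sets outside the regular part -/
theorem out_subz (hND : S_ND) (K : Finset ℕ) (X z H k V : ℕ) :
    SSz K X \ ((RRz K X z H k V).filter fun S => Nd (sm z S) (la z S)) ⊆
      ((((((SA X).filter fun S => k < S.card) ∪
      ((SA X).filter fun S => S.card ≤ k ∧
        X < (∏ p ∈ sm z S, p) * ∏ p ∈ la z S, XX H (jj H p))) ∪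
      ((SA X).filter fun S => ¬ Set.InjOn (jj H) (la z S : Set ℕ))) ∪
      ((SA X).filter fun S => ((la z S).filter fun p => p % 4 = 3).card <
        2 * (sm z S).card + V)) ∪
      ((SA X).filter fun S => S.card ≤ k ∧ ¬ N8 (sm z S) (la z S))) ∪
      (((SA X).filter fun S => ∀ p ∈ la z S, p % 8 ≠ 3 % 8) ∪
      ((SA X).filter fun S => ∀ p ∈ la z S, p % 8 ≠ 5 % 8)) := by
  intro S hS
  rw [Finset.mem_sdiff, Finset.mem_filter] at hS
  obtain ⟨h1', h2⟩ := hS
  have h1 := SSz_sub K X h1'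
  simp only [mem_union, mem_filter]
  by_contra hc
  push Not at hc
  obtain ⟨⟨⟨⟨⟨c1, c2⟩, c3⟩, c4⟩, c5⟩, c6, c7⟩ := hc
  have d1 : S.card ≤ k := c1 h1
  have d2 := c2 h1 d1
  have d3 := c3 h1
  have d4 := c4 h1
  have d5 := c5 h1 d1
  obtain ⟨p3, hp3, hp3'⟩ := c6 h1
  obtain ⟨p5, hp5, hp5'⟩ := c7 h1
  have hS : ∀ p ∈ S, Po p := by
    unfold SA at h1
    exact (mem_filter.1 h1).2.1
  have d6 : Nd (sm z S) (la z S) := by
    apply hND _ _ _ _ d5
    · exact ⟨p3, hp3, by simpa using hp3'⟩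
    · exact ⟨p5, hp5, by simpa using hp5'⟩
    · exact fun p hp => hS p (mem_filter.1 hp).1
    · exact fun p hp => hS p (mem_filter.1 hp).1
  apply h2
  refine ⟨?_, d6⟩
  unfold RRz
  rw [mem_filter]
  exact ⟨h1', d3, d1, d2, d4⟩

/-- **The proportion of the good sets, from the parts.** -/
theorem t_DQz' (h1 : S_BIL) (h3 : S_EQ) (h4 : S_LAz) (h5 : S_BOXz) (hK : S_KEYz) (hC : CntP)
    (hS : S_SIE) (hH : S_HAL) (hM : S_ME8) (hB : S_BAD) (hF1 : S_FE1) (hF2 : S_FE2)
    (hND : S_ND) : S_DQz' := by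
  intro t r s K hOk ε hε
  obtain ⟨V, C, hC1, hkey⟩ := hK h1 h3 h4 h5 (ε / 2) (by linarith)
  have s1 := sml_many hC
  have s2 := sml_cut hC
  have s3 := sml_coll hC
  have s4 := sml_eps (hF2 hS hM V)
  have s5 := sml_eps (hB hS hH hM)
  have s6 := sml_eps (hF1 hS hM 3 (by norm_num))
  have s7 := sml_eps (hF1 hS hM 5 (by norm_num))
  have s8 := sml_main hC1
  have stot := sml_add (sml_add (sml_add (sml_add (sml_add (sml_add s1 s2) s3) s4) s5)
    (sml_add s6 s7)) s8
  have hev := stot (ε / 2) (by linarith)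
  have hev2 : ∀ᶠ X : ℕ in atTop, |(((SSz K X).filter fun S => Gz t r s (mv S)).card : ℝ) -
      eta * ((SSz K X).card : ℝ)| ≤ ε * X := by
    filter_upwards [hev, ev_eL 1, ev_eL 3] with X hX hl hl3
    have hl0 : 0 < eL X := by linarith
    have hXp := X_pos hl0
    have hNN : (HH X : ℝ) * Real.log X < NN X := by
      unfold NN
      push_cast
      exact Nat.lt_floor_add_one _
    have hmain := hkey t r s K hOk X (zz X) (HH X) (kk X) (NN X) (kap C X) hXp (HH_pos hl0)
      (five_le_zz hl3) (kap_nonneg hC1 X) (kap_pow hC1 hl) hNN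
    set T := (RRz K X (zz X) (HH X) (kk X) V).filter fun S => Nd (sm (zz X) S) (la (zz X) S) with hT
    have hTG : (RRz K X (zz X) (HH X) (kk X) V).filter
        (fun S => Nd (sm (zz X) S) (la (zz X) S) ∧ Gz t r s (mv S)) = T.filter (fun S => Gz t r s (mv S)) := by
      rw [hT, filter_filter]
    rw [hTG] at hmain
    have hTS : T ⊆ SSz K X := (filter_subset _ _).trans (filter_subset _ _)
    have hRS : ((RRz K X (zz X) (HH X) (kk X) V).card : ℝ) ≤ X := by
      exact_mod_cast (card_le_card ((filter_subset _ _).trans (SSz_sub K X))).trans (SA_card X)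
    have hcmp := cmp (fun S => Gz t r s (mv S)) T (SSz K X) hTS eta eta_mem.1 eta_mem.2
    have hout : ((SSz K X \ T).card : ℝ) ≤
        ((((((SA X).filter fun S => kk X < S.card).card : ℝ) +
        (((SA X).filter fun S => S.card ≤ kk X ∧
          X < (∏ p ∈ sm (zz X) S, p) * ∏ p ∈ la (zz X) S, XX (HH X) (jj (HH X) p)).card : ℝ)) +
        (((SA X).filter fun S => ¬ Set.InjOn (jj (HH X)) (la (zz X) S : Set ℕ)).card : ℝ)) +
        (((SA X).filter fun S => ((la (zz X) S).filter fun p => p % 4 = 3).card <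
          2 * (sm (zz X) S).card + V).card : ℝ) +
        (((SA X).filter fun S => S.card ≤ kk X ∧ ¬ N8 (sm (zz X) S) (la (zz X) S)).card : ℝ)) +
        ((((SA X).filter fun S => ∀ p ∈ la (zz X) S, p % 8 ≠ 3 % 8).card : ℝ) +
        (((SA X).filter fun S => ∀ p ∈ la (zz X) S, p % 8 ≠ 5 % 8).card : ℝ)) := by
      have g := card_le_card (out_subz hND K X (zz X) (HH X) (kk X) V)
      rw [← hT] at g
      have g2 := (g.trans (card_union_le _ _)).trans (Nat.add_le_add ((card_union_le _ _).trans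
        (Nat.add_le_add_right ((card_union_le _ _).trans
        (Nat.add_le_add_right ((card_union_le _ _).trans
        (Nat.add_le_add_right (card_union_le _ _) _)) _)) _)) (card_union_le _ _))
      exact_mod_cast g2
    have g1 : ε / 2 * ((RRz K X (zz X) (HH X) (kk X) V).card : ℝ) ≤ ε / 2 * X :=
      mul_le_mul_of_nonneg_left hRS (by positivity)
    linarith
  obtain ⟨X₀, h0⟩ := eventually_atTop.1 hev2
  exact ⟨X₀, fun X hX => h0 X hX⟩

/-- the proportion of the good sets, from the three new parts -/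
theorem t_DQz'_fin (hLA : S_LAz) (hBOX : S_BOXz) (hKEY : S_KEYz) : S_DQz' :=
  t_DQz' Pool.Agent.N19.GB.t_BIL Pool.Agent.N19.GB.t_EQ hLA hBOX hKEY
    Pool.Agent.N502.GB.CNT.t_CNT Pool.Agent.Y488.CX.t_SIE Pool.Agent.N148.GB.t_HAL
    Pool.Agent.N19.GB.t_ME8 Pool.Agent.N148.GB.t_BAD Pool.Agent.N502.GB.FE1.t_FE1
    Pool.Agent.N509.GB.FE2.t_FE2 Pool.Agent.N19.GB.t_ND

end Pool.Agent.T2h79.XM.Z
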