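import Pool.Agent.T2h79.XM.Z.Stm
import Pool.Agent.N958.GB.BOX

/-!
# The Rédei system changed by a matrix of rank one: the count in a box

After the file `Pool/Agent/N958/GB/BOX.lean` of project GB.
-/

set_option autoImplicit false
set_option linter.unusedSectionVars false

open scoped Classical

namespace Pool.Agent.T2h79.XM.Z

open Finset
open Pool.Agent.Y703.CQ (nr sg)
open Pool.Agent.N973.ND (uu nr_rec nr_self)
open Pool.Agent.N916.GB
open Pool.Agent.N958.GB

/-- the good sets from a parametrization -/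
theorem Gz_iff {V : Type} [Fintype V] (t : Bool) (r s : ZMod 2) {ρ : V → ℕ}
    (hρ : Function.Injective ρ) {S : Finset ℕ} (hS : univ.image ρ = Vt t S) :
    Gz t r s S ↔ Gv fun i j => sz r s (ρ i) (ρ j) := by
  have h1 : ∀ i, ρ i ∈ Vt t S := fun i => by
    rw [← hS]
    exact mem_image_of_mem _ (mem_univ _)
  have h2 : ∀ x ∈ Vt t S, ∃ i, ρ i = x := by
    intro x hx
    rw [← hS, mem_image] at hx
    obtain ⟨i, -, hi⟩ := hx
    exact ⟨i, hi⟩
  have h3 : ∀ f : ℕ → ZMod 2, ∑ p ∈ Vt t S, f p = ∑ i, f (ρ i) := by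
    intro f
    rw [← hS, sum_image fun i _ j _ h => hρ h]
  unfold Gz Gv
  constructor
  · intro h x hx i j
    have h4 : ∀ i, Function.extend ρ x 0 (ρ i) = x i := fun i => hρ.extend_apply x 0 i
    have h5 := h (Function.extend ρ x 0) (by
      intro q hq
      obtain ⟨i, rfl⟩ := h2 q hq
      rw [h3]
      simp only [h4]
      exact hx i) (ρ i) (h1 i) (ρ j) (h1 j)
    rwa [h4, h4] at h5
  · intro h x hx p hp q hq
    obtain ⟨i, rfl⟩ := h2 p hp
    obtain ⟨j, rfl⟩ := h2 q hq
    refine h (fun i => x (ρ i)) (fun i => ?_) i j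
    have h4 := hx (ρ i) (h1 i)
    rwa [h3] at h4

/-- the matrix of a tuple -/
noncomputable def NRz (r s : ZMod 2) {V : Type} (ρ : V → ℕ) (i j : V) : ZMod 2 :=
  sz r s (ρ i) (ρ j)

theorem NRz_eq (r s : ZMod 2) {V : Type} (ρ : V → ℕ) (i j : V) :
    NRz r s ρ i j = NR r s ρ i j + al (ρ i) * be r (ρ j) := rfl

theorem al_mod (n : ℕ) : al (n % 120) = al n := by
  unfold al
  rw [Nat.mod_mod_of_dvd n (show 3 ∣ 120 by norm_num)]

theorem be_mod (r : ZMod 2) {n : ℕ} (hn : n % 2 = 1) : be r (n % 120) = be r n := by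
  have h1 : n ≠ 2 := by
    rintro rfl
    norm_num at hn
  have h2 : n % 120 ≠ 2 := by omega
  unfold be
  rw [if_neg h1, if_neg h2, Nat.mod_mod_of_dvd n (show 5 ∣ 120 by norm_num)]

theorem Po_odd {p : ℕ} (hp : Po p) : p % 2 = 1 := hp.1.mod_two_eq_one_iff_ne_two.2 hp.2

theorem al_nr (n : ℕ) : al n = nr 3 n := by
  have h : (n : ZMod 3) = ((n % 3 : ℕ) : ZMod 3) := (ZMod.natCast_mod n 3).symm
  unfold al nr
  rw [h]
  have h3 : n % 3 < 3 := Nat.mod_lt _ (by norm_num)
  generalize n % 3 = m at h3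
  have h4 : IsSquare ((m : ℕ) : ZMod 3) ↔ m ≠ 2 := by
    interval_cases m <;> decide
  by_cases h5 : m = 2
  · rw [if_pos h5, if_neg (by rw [h4]; exact fun h => h h5)]
  · rw [if_neg h5, if_pos (h4.2 h5)]

theorem be_nr (r : ZMod 2) {n : ℕ} (hn : n ≠ 2) : be r n = nr 5 n := by
  have h : (n : ZMod 5) = ((n % 5 : ℕ) : ZMod 5) := (ZMod.natCast_mod n 5).symm
  unfold be nr
  rw [h, if_neg hn]
  have h3 : n % 5 < 5 := Nat.mod_lt _ (by norm_num)
  generalize n % 5 = m at h3
  have h4 : IsSquare ((m : ℕ) : ZMod 5) ↔ ¬ (m = 2 ∨ m = 3) := by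
    interval_cases m <;> decide
  by_cases h5 : m = 2 ∨ m = 3
  · rw [if_pos h5, if_neg (by rw [h4]; exact fun h => h h5)]
  · rw [if_neg h5, if_pos (h4.2 h5)]

theorem be_two (r : ZMod 2) : be r 2 = r := if_pos rfl

theorem al_two : al 2 = 1 := by
  unfold al
  norm_num

/-- the symbol of `-3` -/
theorem al_rec {p : ℕ} (hp : Po p) (h3 : p ≠ 3) : al p = nr p 3 + uu p := by
  have h1 := nr_rec hp.1 hp.2 Nat.prime_three (by norm_num) h3
  have h2 : uu 3 = 1 := by
    unfold uu
    norm_num
  rw [al_nr, h1, h2, mul_one]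

/-- the symbol at `5` -/
theorem be_rec (r : ZMod 2) {p : ℕ} (hp : Po p) (h5 : p ≠ 5) : be r p = nr p 5 := by
  have h1 := nr_rec hp.1 hp.2 Nat.prime_five (by norm_num) h5
  have h2 : uu 5 = 0 := by
    unfold uu
    norm_num
  rw [be_nr r hp.2, h1, h2, mul_zero, add_zero]

section
variable {ι : Type} [Fintype ι] [LinearOrder ι] {S₁ : Finset ℕ} {p : ι → ℕ} {τ : ι → ℕ}
  (t : Bool) (r s : ZMod 2)

/-- **two tuples with the same labels** -/
theorem two_tuplesz {p p₀ : ι → ℕ}
    (hp : Function.Injective p) (hp₀ : Function.Injective p₀)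
    (hpr : ∀ i, Po (p i)) (hpr₀ : ∀ i, Po (p₀ i))
    (hτ : ∀ i, p i % 120 = τ i) (hτ₀ : ∀ i, p₀ i % 120 = τ i)
    (hl : ∀ i, lb S₁ (p i) = lb S₁ (p₀ i)) :
    NRz r s (rr t S₁ p) = pt (NRz r s (rr t S₁ p₀)) (sx (sgm p + sgm p₀)) := by
  have h1 := two_tuples (τ := fun i => τ i % 4) t r s hp hp₀ hpr hpr₀
    (fun i => by
      show p i % 4 = τ i % 4
      rw [← hτ i]
      omega)
    (fun i => by
      show p₀ i % 4 = τ i % 4
      rw [← hτ₀ i]
      omega) hl
  have hal : ∀ i, al (p i) = al (p₀ i) := fun i => by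
    rw [← al_mod, hτ i, ← hτ₀ i, al_mod]
  have hbe : ∀ i, be r (p i) = be r (p₀ i) := fun i => by
    rw [← be_mod r (Po_odd (hpr i)), hτ i, ← hτ₀ i, be_mod r (Po_odd (hpr₀ i))]
  have ha : ∀ i, al (rr t S₁ p i) = al (rr t S₁ p₀ i) := by
    rintro (u | k)
    · rfl
    · exact hal k
  have hb : ∀ i, be r (rr t S₁ p i) = be r (rr t S₁ p₀ i) := by
    rintro (u | k)
    · rfl
    · exact hbe k
  funext i j
  have h2 := congrFun (congrFun h1 i) j
  rw [NRz_eq, ha i, hb j, h2]
  rcases i with u | k <;> rcases j with v | l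
  · rfl
  · rfl
  · rfl
  · show NR r s (rr t S₁ p₀) (Sum.inr k) (Sum.inr l) + sx (sgm p + sgm p₀) k l +
      al (rr t S₁ p₀ (Sum.inr k)) * be r (rr t S₁ p₀ (Sum.inr l)) =
      NR r s (rr t S₁ p₀) (Sum.inr k) (Sum.inr l) +
      al (rr t S₁ p₀ (Sum.inr k)) * be r (rr t S₁ p₀ (Sum.inr l)) + sx (sgm p + sgm p₀) k l
    exact add_right_comm _ _ _

end

/-- the symbol of `-3`, times the relation of the rows -/
noncomputable def ad (r : ZMod 2) {V : Type} (ρ : V → ℕ) (i : V) : ZMod 2 := wd r ρ i * al (ρ i)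

/-- the reciprocity law of the matrix -/
theorem rec_NRz (r s : ZMod 2) {V : Type} {ρ : V → ℕ} (hρ : Function.Injective ρ)
    (hpr : ∀ i, (ρ i).Prime) (i j : V) (hij : i ≠ j) :
    wd r ρ i * NRz r s ρ i j + wd r ρ j * NRz r s ρ j i =
      ud s ρ i * ud s ρ j + ad r ρ i * be r (ρ j) + ad r ρ j * be r (ρ i) := by
  rw [← rec_NR r s hρ hpr i j hij, NRz_eq, NRz_eq]
  unfold ad
  ring

theorem mem_mv {S : Finset ℕ} {x : ℕ} : x ∈ mv S ↔ x ∈ S ∧ x ≠ 3 ∧ x ≠ 5 := by
  unfold mv
  rw [mem_filter]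

/-- sums over the small vertices -/
theorem sum_Vt (t : Bool) {S : Finset ℕ} (h2 : 2 ∉ S) (f : ℕ → ZMod 2) :
    ∑ x ∈ Vt t S, f x = (if t = true then f 2 else 0) + ∑ x ∈ S, f x := by
  cases t with
  | true =>
    show ∑ x ∈ insert 2 S, f x = _
    rw [sum_insert h2, if_pos rfl]
  | false =>
    show ∑ x ∈ S, f x = _
    rw [if_neg (by decide), zero_add]

/-- **The count in a box.** -/
theorem t_BOXz : S_BOXz := by
  intro hEQ hLA ε hε
  obtain ⟨V₀, hV₀⟩ := hLA ε hε
  refine ⟨V₀ + 2, ?_⟩
  intro t r s ι _ _ τ C X κ S₀ hts htr hκ hCX hHB hS₀ h3S h5S hC hdis hpar hparA hparB hcnt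
  set R : ℝ := 2 ^ (ps ι).card * (κ * ∏ j, (X j : ℝ)) with hR
  have hR0 : 0 ≤ R := mul_nonneg (by positivity)
    (mul_nonneg hκ (Finset.prod_nonneg fun j _ => by positivity))
  -- facts on tuples
  have hinj : ∀ p ∈ Fintype.piFinset C, Function.Injective p := by
    intro p hp i j hij
    rw [Fintype.mem_piFinset] at hp
    by_contra hne
    have h1 := Finset.disjoint_left.1 (hdis i j hne) (hp i)
    rw [hij] at h1
    exact h1 (hp j)
  have hτ : ∀ p ∈ Fintype.piFinset C, ∀ i, p i % 120 = τ i := by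
    intro p hp i
    rw [Fintype.mem_piFinset] at hp
    exact (hC i _ (hp i)).2.2
  have hτ4 : ∀ p ∈ Fintype.piFinset C, ∀ i, p i % 4 = (fun i => τ i % 4) i := by
    intro p hp i
    show p i % 4 = τ i % 4
    rw [← hτ p hp i]
    omega
  have hd : ∀ p ∈ Fintype.piFinset C, ∀ i, p i ∉ S₀ := by
    intro p hp i
    rw [Fintype.mem_piFinset] at hp
    exact (hC i _ (hp i)).2.1
  have hdm : ∀ p ∈ Fintype.piFinset C, ∀ i, p i ∉ mv S₀ := fun p hp i h =>
    hd p hp i (mem_mv.1 h).1
  have hpr : ∀ p ∈ Fintype.piFinset C, ∀ i, Po (p i) := by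
    intro p hp i
    rw [Fintype.mem_piFinset] at hp
    exact (hC i _ (hp i)).1
  have h2S : 2 ∉ S₀ := fun h => (hS₀ 2 h).2 rfl
  have h2S' : 2 ∉ mv S₀ := fun h => h2S (mem_mv.1 h).1
  have hS₀' : ∀ v ∈ mv S₀, Po v := fun v hv => hS₀ v (mem_mv.1 hv).1
  have hVt : ∀ v ∈ Vt t (mv S₀), v ∈ insert 2 S₀ := by
    intro v hv
    rcases mem_Vt.1 hv with h | h
    · rw [h.2]
      exact mem_insert_self _ _
    · exact mem_insert_of_mem (mem_mv.1 h).1
  have hVt3 : 3 ∉ Vt t (mv S₀) := by
    intro h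
    rcases mem_Vt.1 h with h' | h'
    · exact absurd h'.2 (by norm_num)
    · exact (mem_mv.1 h').2.1 rfl
  have hVt5 : 5 ∉ Vt t (mv S₀) := by
    intro h
    rcases mem_Vt.1 h with h' | h'
    · exact absurd h'.2 (by norm_num)
    · exact (mem_mv.1 h').2.2 rfl
  have ht : ∀ v ∈ Vt t (mv S₀), v = 2 → t = true := by
    intro v hv hv2
    rcases mem_Vt.1 hv with h | h
    · exact h.1
    · exact absurd (hv2 ▸ h) h2S'
  -- the part with given labels
  have h1 : ∀ β : ι → Lb S₀, LN S₀ (fun i => τ i % 4) β →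
      |(((Fintype.piFinset C).filter fun p => (fun i => lb S₀ (p i)) = β ∧
          Gz t r s (mv S₀ ∪ univ.image p)).card : ℝ) -
        eta * (((Fintype.piFinset C).filter fun p => (fun i => lb S₀ (p i)) = β).card : ℝ)| ≤
      ε * (((Fintype.piFinset C).filter fun p => (fun i => lb S₀ (p i)) = β).card : ℝ) + R := by
    intro β hβ
    by_cases hemp : ((Fintype.piFinset C).filter fun p => (fun i => lb S₀ (p i)) = β) = ∅
    · have he2 : ((Fintype.piFinset C).filter fun p => (fun i => lb S₀ (p i)) = β ∧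
          Gz t r s (mv S₀ ∪ univ.image p)) = ∅ := by
        rw [← Finset.filter_filter, hemp, Finset.filter_empty]
      rw [he2, hemp]
      simpa using hR0
    obtain ⟨p₀, hp₀⟩ := Finset.nonempty_iff_ne_empty.2 hemp
    rw [Finset.mem_filter] at hp₀
    obtain ⟨hp₀, hp₀β⟩ := hp₀
    set C' : ι → Finset ℕ := fun i => (C i).filter fun q => lb S₀ q = β i with hC'
    have hpi : (Fintype.piFinset C).filter (fun p => (fun i => lb S₀ (p i)) = β) =
        Fintype.piFinset C' := by
      ext p
      simp only [Finset.mem_filter, Fintype.mem_piFinset, hC']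
      constructor
      · rintro ⟨h2, h3⟩ i
        exact ⟨h2 i, congrFun h3 i⟩
      · intro h2
        exact ⟨fun i => (h2 i).1, funext fun i => (h2 i).2⟩
    set r₀ := rr t (mv S₀) p₀ with hr₀
    have hrp : ∀ i, (r₀ i).Prime := by
      rintro (v | k)
      · rcases mem_Vt.1 v.2 with h | h
        · show (v : ℕ).Prime
          rw [h.2]
          exact Nat.prime_two
        · exact (hS₀' _ h).1
      · exact (hpr p₀ hp₀ k).1
    have hrinj : Function.Injective r₀ :=
      rr_inj t (hinj p₀ hp₀) (hdm p₀ hp₀) fun i => (hpr p₀ hp₀ i).2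
    have hwr : ∀ k : ι, wd r r₀ (Sum.inr k) = 1 := fun k => if_neg (hpr p₀ hp₀ k).2
    have hur : ∀ k : ι, ud s r₀ (Sum.inr k) = uu (p₀ k) := fun k => if_neg (hpr p₀ hp₀ k).2
    have har : ∀ k : ι, ad r r₀ (Sum.inr k) = al (p₀ k) := fun k => by
      unfold ad
      rw [hwr, one_mul]
      rfl
    have hτu : ∀ k, uu (τ k) = uu (p₀ k) := fun k => by
      unfold uu
      rw [← hτ p₀ hp₀ k]
      have : p₀ k % 120 % 4 = p₀ k % 4 := by omega
      rw [this]
    have hτa : ∀ k, al (τ k) = al (p₀ k) := fun k => by rw [← hτ p₀ hp₀ k, al_mod]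
    have hτb : ∀ k, be r (τ k) = be r (p₀ k) := fun k => by
      rw [← hτ p₀ hp₀ k, be_mod r (Po_odd (hpr p₀ hp₀ k))]
    have hsum : ∀ (f : (Vt t (mv S₀) : Finset ℕ) ⊕ ι → ZMod 2) (g : ℕ → ZMod 2),
        (∀ v : (Vt t (mv S₀) : Finset ℕ), f (Sum.inl v) = g v) →
        ∑ i, f i = (if t = true then g 2 else 0) + ∑ x ∈ mv S₀, g x + ∑ i, f (Sum.inr i) := by
      intro f g hfg
      rw [Fintype.sum_sum_type]
      congr 1
      rw [← sum_Vt t h2S', ← Finset.sum_coe_sort (Vt t (mv S₀))]
      exact sum_congr rfl fun v _ => hfg v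
    have hU : ∑ i, ud s r₀ i = 1 := by
      rw [hsum _ (fun x => if x = 2 then s else uu x) fun v => rfl]
      have a3 : ∑ x ∈ mv S₀, (if x = 2 then s else uu x) = ∑ x ∈ mv S₀, uu x :=
        sum_congr rfl fun x hx => if_neg (hS₀' x hx).2
      have a4 : (if t = true then (if 2 = 2 then s else uu 2) else 0) = s := by
        rw [if_pos rfl]
        split_ifs with h
        · rfl
        · exact (hts (by simpa using h)).2.symm
      have a5 : ∑ i, ud s r₀ (Sum.inr i : (Vt t (mv S₀) : Finset ℕ) ⊕ ι) = ∑ i, uu (τ i) :=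
        sum_congr rfl fun i _ => by rw [hur, hτu]
      rw [a3, a4, a5, ← hpar]
      ring
    have hA : ∑ i, ad r r₀ i = 0 := by
      rw [hsum _ (fun x => (if x = 2 then r else 1) * al x) fun v => rfl]
      have a3 : ∑ x ∈ mv S₀, (if x = 2 then r else 1) * al x = ∑ x ∈ mv S₀, al x :=
        sum_congr rfl fun x hx => by rw [if_neg (hS₀' x hx).2, one_mul]
      have a4 : (if t = true then (if 2 = 2 then r else 1) * al 2 else 0) = r := by
        rw [if_pos rfl, al_two, mul_one]
        split_ifs with h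
        · rfl
        · exact (hts (by simpa using h)).1.symm
      have a5 : ∑ i, ad r r₀ (Sum.inr i : (Vt t (mv S₀) : Finset ℕ) ⊕ ι) = ∑ i, al (τ i) :=
        sum_congr rfl fun i _ => by rw [har, hτa]
      rw [a3, a4, a5, ← hparA]
      ring
    have hB : ∑ i, be r (r₀ i) = 0 := by
      rw [hsum _ (fun x => be r x) fun v => rfl]
      have a4 : (if t = true then be r 2 else 0) = r := by
        rw [be_two]
        split_ifs with h
        · rfl
        · exact (hts (by simpa using h)).1.symm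
      have a5 : ∑ i, be r (r₀ (Sum.inr i : (Vt t (mv S₀) : Finset ℕ) ⊕ ι)) =
          ∑ i, be r (τ i) :=
        sum_congr rfl fun i _ => by rw [hτb]; rfl
      rw [a4, a5, ← hparB]
      ring
    have h2 := hV₀ (Vt t (mv S₀)) ι (wd r r₀) (ud s r₀) (ad r r₀) (fun i => be r (r₀ i))
      (NRz r s r₀) hwr hU hA hB
      (fun i j hij => rec_NRz r s hrinj hrp i j hij)
      (by
        intro v hv
        have b1 : ∀ v' : (Vt t (mv S₀) : Finset ℕ), wd r r₀ (Sum.inl v') = 0 →
            (v' : ℕ) = 2 ∧ r = 0 := by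
          intro v' hv'
          have hv'' : (if (v' : ℕ) = 2 then r else 1) = 0 := hv'
          by_cases h : (v' : ℕ) = 2
          · rw [if_pos h] at hv''
            exact ⟨h, hv''⟩
          · rw [if_neg h] at hv''
            exact absurd hv'' (by decide)
        obtain ⟨b2, b3⟩ := b1 v hv
        refine ⟨?_, fun v' hv' => Subtype.ext (b2.trans (b1 v' hv').1.symm)⟩
        have b4 : s = 1 := by
          rcases z2 s with h | h
          · exact absurd (htr (ht v v.2 b2)) (by
              rintro (h' | h')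
              · exact h' b3
              · exact h' h)
          · exact h
        show (if (v : ℕ) = 2 then s else uu v) = 1
        rw [if_pos b2, b4])
      (by
        intro b σ σ' σ'' hbs
        obtain ⟨W, hW⟩ : ∃ W : ZMod 2, W = σ'' + ∑ v : (Vt t (mv S₀) : Finset ℕ), b v * al v :=
          ⟨_, rfl⟩
        obtain ⟨w0, hw0⟩ : ∃ w0 : ℕ → ZMod 2, w0 = fun n =>
          if h : n ∈ Vt t (mv S₀) then b ⟨n, h⟩ else 0 := ⟨_, rfl⟩
        have hw1 : ∀ v : (Vt t (mv S₀) : Finset ℕ), w0 v = b v := fun v => by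
          rw [hw0]
          exact dif_pos v.2
        have hw2 : ∀ n, n ∉ Vt t (mv S₀) → w0 n = 0 := fun n hn => by
          rw [hw0]
          exact dif_neg hn
        obtain ⟨w, hw⟩ : ∃ w : ℕ → ZMod 2, w = fun n =>
          w0 n + (if n = 3 then σ' else 0) + (if n = 5 then W else 0) := ⟨_, rfl⟩
        have e3 : w 3 = σ' := by
          rw [hw]
          simp [hw2 3 hVt3]
        have e5 : w 5 = W := by
          rw [hw]
          simp [hw2 5 hVt5]
        have ev : ∀ v : (Vt t (mv S₀) : Finset ℕ), w v = b v := by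
          intro v
          have h3 : (v : ℕ) ≠ 3 := fun h => hVt3 (h ▸ v.2)
          have h5 : (v : ℕ) ≠ 5 := fun h => hVt5 (h ▸ v.2)
          rw [hw]
          simp [h3, h5, hw1]
        have hne : (∃ v ∈ insert 2 S₀, w v ≠ 0) ∨ σ + σ' ≠ 0 := by
          by_contra hcon
          push Not at hcon
          obtain ⟨c1, c2⟩ := hcon
          have c3 : σ' = 0 := by
            rw [← e3]
            exact c1 3 (mem_insert_of_mem h3S)
          have c4 : ∀ v, b v = 0 := fun v => by
            rw [← ev]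
            exact c1 v (hVt v v.2)
          have c5 : σ'' = 0 := by
            have := c1 5 (mem_insert_of_mem h5S)
            rw [e5, hW] at this
            simpa [c4] using this
          have c6 : σ = 0 := by
            rw [c3, add_zero] at c2
            exact c2
          rcases hbs with ⟨v, hv⟩ | h | h | h
          · exact hv (c4 v)
          · exact h c6
          · exact h c3
          · exact h c5
        obtain ⟨k, hk⟩ := hβ w (σ + σ') hne
        refine ⟨k, ?_⟩
        intro h0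
        apply hk
        refine Eq.trans ?_ h0
        have hk3 : p₀ k ≠ 3 := fun h => hd p₀ hp₀ k (h ▸ h3S)
        have hk5 : p₀ k ≠ 5 := fun h => hd p₀ hp₀ k (h ▸ h5S)
        have hPk := hpr p₀ hp₀ k
        have g1 : (if (fun i => τ i % 4) k = 3 then 1 else 0) = uu (p₀ k) :=
          (uu_eq (hτ4 p₀ hp₀ k)).symm
        have g2 : al (p₀ k) = nr (p₀ k) 3 + uu (p₀ k) := al_rec hPk hk3
        have g3 : be r (p₀ k) = nr (p₀ k) 5 := be_rec r hPk hk5
        have g4 : be r (r₀ (Sum.inr k)) = nr (p₀ k) 5 := g3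
        have g5 : ∀ v : (Vt t (mv S₀) : Finset ℕ), NRz r s r₀ (Sum.inl v) (Sum.inr k) =
            nr (p₀ k) v + al v * nr (p₀ k) 5 := by
          intro v
          rw [← g3]
          show sy r s v (p₀ k) + al v * be r (p₀ k) = _
          rw [sy_ne r s hPk.2]
        have g6 : ∑ v : (Vt t (mv S₀) : Finset ℕ), b v * NRz r s r₀ (Sum.inl v) (Sum.inr k) =
            ∑ v ∈ Vt t (mv S₀), w0 v * nr (p₀ k) v +
              (∑ v : (Vt t (mv S₀) : Finset ℕ), b v * al v) * nr (p₀ k) 5 := by
          rw [← Finset.sum_coe_sort (Vt t (mv S₀)), sum_mul, ← sum_add_distrib]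
          refine sum_congr rfl fun v _ => ?_
          rw [g5, hw1]
          ring
        have g7 : ∑ v ∈ Vt t (mv S₀), w0 v * nr (p₀ k) v =
            ∑ v ∈ insert 2 S₀, w0 v * nr (p₀ k) v :=
          sum_subset hVt fun x _ hx => by rw [hw2 x hx, zero_mul]
        have g8 : ∑ v ∈ insert 2 S₀, w v * nr (p₀ k) v =
            ∑ v ∈ insert 2 S₀, w0 v * nr (p₀ k) v + σ' * nr (p₀ k) 3 + W * nr (p₀ k) 5 := by
          have q1 : ∀ v, w v * nr (p₀ k) v = w0 v * nr (p₀ k) v +
              (if v = 3 then σ' * nr (p₀ k) 3 else 0) +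
              (if v = 5 then W * nr (p₀ k) 5 else 0) := by
            intro v
            rw [hw]
            show (w0 v + (if v = 3 then σ' else 0) + (if v = 5 then W else 0)) * nr (p₀ k) v = _
            by_cases q3 : v = 3
            · subst q3
              simp
              ring
            · by_cases q5 : v = 5
              · subst q5
                simp
                ring
              · simp [q3, q5]
          simp only [q1]
          rw [sum_add_distrib, sum_add_distrib, sum_ite_eq' (insert 2 S₀) 3,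
            sum_ite_eq' (insert 2 S₀) 5, if_pos (mem_insert_of_mem h3S),
            if_pos (mem_insert_of_mem h5S)]
        have c1 : ∑ v : (insert 2 S₀ : Finset ℕ), w v * (β k).1 v =
            ∑ v ∈ insert 2 S₀, w v * nr (p₀ k) v := by
          rw [← hp₀β, ← Finset.sum_coe_sort (insert 2 S₀)]
          rfl
        rw [c1, g1, g8, g6, g7, hur, har, g2, g4, hW]
        ring)
      (by
        have d1 : Fintype.card (Vt t (mv S₀) : Finset ℕ) ≤ S₀.card + 1 := by
          rw [Fintype.card_coe]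
          refine (card_le_card (Vt_sub t (mv S₀))).trans ((card_insert_le _ _).trans ?_)
          exact Nat.succ_le_succ (card_le_card (filter_subset _ _))
        have d2 : (univ.filter fun k : ι => ud s r₀ (Sum.inr k) = 1) =
            univ.filter fun i => τ i % 4 = 3 := by
          refine filter_congr fun k _ => ?_
          rw [hur, ← hτu]
          unfold uu
          by_cases h : τ k % 4 = 3
          · rw [if_pos h]
            exact ⟨fun _ => h, fun _ => rfl⟩
          · rw [if_neg h]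
            exact ⟨fun h' => absurd h' (by decide), fun h' => absurd h' h⟩
        rw [d2]
        omega)
    set Q : (ps ι → ZMod 2) → Prop := fun σ => Gv (pt (NRz r s r₀) (sx (σ + sgm p₀))) with hQ
    have h3 := hEQ ι C' X κ hκ
      (fun i => (Finset.card_le_card (Finset.filter_subset _ _)).trans (hCX i))
      (HB_sub hHB fun i q => lb S₀ q = β i) Q
    have h4 : ((Fintype.piFinset C).filter fun p => (fun i => lb S₀ (p i)) = β ∧
        Gz t r s (mv S₀ ∪ univ.image p)) = ((Fintype.piFinset C').filter fun p =>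
          Q fun e => nr (p e.1.1) (p e.1.2)) := by
      rw [← hpi, Finset.filter_filter]
      refine Finset.filter_congr fun p hp => ?_
      refine and_congr_right fun hl => ?_
      rw [Gz_iff t r s (rr_inj t (hinj p hp) (hdm p hp) fun i => (hpr p hp i).2) (rr_im t)]
      have a0 := two_tuplesz (S₁ := mv S₀) t r s (hinj p hp) (hinj p₀ hp₀) (hpr p hp)
        (hpr p₀ hp₀) (hτ p hp) (hτ p₀ hp₀) fun i => by
          have a1 : lb S₀ (p i) = lb S₀ (p₀ i) := (congrFun hl i).trans (congrFun hp₀β i).symm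
          have a2 : ∀ v ∈ insert 2 S₀, nr (p i) v = nr (p₀ i) v := fun v hv =>
            congrFun (congrArg (fun t => t.1) a1) ⟨v, hv⟩
          have a3 : ∀ v ∈ S₀, nr v (p i) = nr v (p₀ i) := fun v hv =>
            congrFun (congrArg (fun t => t.2) a1) ⟨v, hv⟩
          refine Prod.ext ?_ ?_
          · funext v
            refine a2 v ?_
            rcases mem_insert.1 v.2 with h | h
            · rw [h]
              exact mem_insert_self _ _
            · exact mem_insert_of_mem (mem_mv.1 h).1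
          · funext v
            exact a3 v (mem_mv.1 v.2).1
      show Gv (NRz r s (rr t (mv S₀) p)) ↔ Gv (pt (NRz r s r₀) (sx (sgm p + sgm p₀)))
      rw [a0]
    have h5 : (((Fintype.piFinset C').card : ℕ) : ℝ) = ∏ j, ((C' j).card : ℝ) := by
      rw [Fintype.card_piFinset]
      push_cast
      rfl
    rw [h4, hpi, h5]
    have hQc : (univ.filter Q).card =
        (univ.filter fun σ : ps ι → ZMod 2 => Gv (pt (NRz r s r₀) (sx σ))).card := by
      refine card_bij (fun σ _ => σ + sgm p₀) ?_ ?_ ?_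
      · intro σ hσ
        rw [mem_filter] at hσ ⊢
        exact ⟨mem_univ _, hσ.2⟩
      · intro σ _ σ' _ h
        exact add_right_cancel h
      · intro σ hσ
        refine ⟨σ - sgm p₀, ?_, sub_add_cancel _ _⟩
        rw [mem_filter] at hσ ⊢
        refine ⟨mem_univ _, ?_⟩
        simp only [hQ, sub_add_cancel]
        exact hσ.2
    have h2' : |((univ.filter Q).card : ℝ) / 2 ^ (ps ι).card - eta| ≤ ε := by
      rw [hQc]
      exact h2
    set n : ℝ := (((Fintype.piFinset C').filter fun p =>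
          Q fun e => nr (p e.1.1) (p e.1.2)).card : ℝ) with hn
    set q : ℝ := ((univ.filter Q).card : ℝ) / 2 ^ (ps ι).card with hq
    set P : ℝ := ∏ j, ((C' j).card : ℝ) with hP
    have hP0 : 0 ≤ P := Finset.prod_nonneg fun j _ => by positivity
    have h6 : |n - eta * P| ≤ |n - q * P| + |q - eta| * P := by
      have h7 : n - eta * P = (n - q * P) + (q - eta) * P := by ring
      have h8 : |(q - eta) * P| = |q - eta| * P := by rw [abs_mul, abs_of_nonneg hP0]
      rw [h7, ← h8]
      exact abs_add_le _ _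
    have h7 : |q - eta| * P ≤ ε * P := mul_le_mul_of_nonneg_right h2' hP0
    have h8 : |n - q * P| ≤ R := h3
    linarith
  -- sum over the labels
  set LL := univ.filter (fun β : ι → Lb S₀ => LN S₀ (fun i => τ i % 4) β) with hLL
  have hfib : ∀ T : (ι → ℕ) → Prop,
      (((Fintype.piFinset C).filter fun p => Nd S₀ (univ.image p) ∧ T p).card : ℝ) =
      ∑ β ∈ LL, (((Fintype.piFinset C).filter fun p =>
        (fun i => lb S₀ (p i)) = β ∧ T p).card : ℝ) := by
    intro T
    rw [Finset.card_eq_sum_card_fiberwise (f := fun (p : ι → ℕ) (i : ι) => lb S₀ (p i))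
      (t := LL) (by
        intro p hp
        rw [Finset.mem_coe, Finset.mem_filter] at hp
        rw [Finset.mem_coe, hLL, Finset.mem_filter]
        exact ⟨Finset.mem_univ _, (nd_iff (hτ4 p hp.1)).1 hp.2.1⟩)]
    push_cast
    refine Finset.sum_congr rfl fun β hβ => ?_
    rw [hLL, Finset.mem_filter] at hβ
    congr 2
    ext p
    simp only [Finset.mem_filter]
    constructor
    · rintro ⟨⟨h3, h4, h4'⟩, h5⟩
      exact ⟨h3, h5, h4'⟩
    · rintro ⟨h3, h4, h5⟩
      refine ⟨⟨h3, ?_, h5⟩, h4⟩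
      rw [nd_iff (hτ4 p h3), h4]
      exact hβ.2
  have hf1 := hfib fun p => Gz t r s (mv S₀ ∪ univ.image p)
  have hf2 := hfib fun _ => True
  simp only [and_true] at hf2
  rw [hf1, hf2, Finset.mul_sum, ← Finset.sum_sub_distrib]
  refine (Finset.abs_sum_le_sum_abs _ _).trans ?_
  refine (Finset.sum_le_sum fun β hβ => h1 β (Finset.mem_filter.1 hβ).2).trans ?_
  rw [Finset.sum_add_distrib, ← Finset.mul_sum, Finset.sum_const, nsmul_eq_mul]
  have h5 : ((LL.card : ℕ) : ℝ) ≤ 2 ^ ((2 * S₀.card + 1) * Fintype.card ι) := by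
    have h6 : LL.card ≤ Fintype.card (ι → Lb S₀) := Finset.card_le_univ _
    rw [Fintype.card_fun, Fintype.card_prod, Fintype.card_fun, Fintype.card_fun, ZMod.card,
      Fintype.card_coe, Fintype.card_coe, ← pow_add, ← pow_mul, card_insert_of_notMem h2S] at h6
    have h7 : (S₀.card + 1 + S₀.card) * Fintype.card ι =
        (2 * S₀.card + 1) * Fintype.card ι := by
      ring
    rw [h7] at h6
    exact_mod_cast h6
  have h6 := mul_le_mul_of_nonneg_right h5 hR0
  rw [pow_add, mul_assoc]
  linarith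

end Pool.Agent.T2h79.XM.Z
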