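import Pool.Agent.T2h79.XM.Z.Stm

/-!
# Z5 (helper4): the sets without `3` and `5`
-/

set_option autoImplicit false
set_option linter.all false

open scoped Classical

namespace Pool.Agent.T2h79.XM.Z

open Finset Filter
open Pool.Agent.N916.GB

theorem mem_SS' {K : Finset ℕ} {X : ℕ} {S : Finset ℕ} :
    S ∈ SS K X ↔ (∀ p ∈ S, Po p) ∧ (∏ p ∈ S, p) % 120 ∈ K ∧ ∏ p ∈ S, p ≤ X := by
  unfold SS
  rw [mem_filter, mem_powerset]
  unfold Cl
  constructor
  · rintro ⟨_, ⟨h1, h2⟩, h3⟩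
    exact ⟨h1, h2, h3⟩
  · rintro ⟨h1, h2, h3⟩
    refine ⟨fun p hp => ?_, ⟨h1, h2⟩, h3⟩
    rw [mem_range]
    have h4 : p ≤ ∏ q ∈ S, q := Nat.le_of_dvd (prod_pos fun q hq => (h1 q hq).1.pos)
      (dvd_prod_of_mem _ hp)
    omega

theorem mem_SSz' {K : Finset ℕ} {X : ℕ} {S : Finset ℕ} :
    S ∈ SSz K X ↔ (∀ p ∈ S, Po p) ∧ 3 ∈ S ∧ 5 ∈ S ∧ (∏ p ∈ mv S, p) % 120 ∈ K ∧
      ∏ p ∈ S, p ≤ X := by
  unfold SSz
  rw [mem_filter, mem_powerset]
  unfold Clz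
  constructor
  · rintro ⟨_, ⟨h1, h2, h2', h2''⟩, h3⟩
    exact ⟨h1, h2, h2', h2'', h3⟩
  · rintro ⟨h1, h2, h2', h2'', h3⟩
    refine ⟨fun p hp => ?_, ⟨h1, h2, h2', h2''⟩, h3⟩
    rw [mem_range]
    have h4 : p ≤ ∏ q ∈ S, q := Nat.le_of_dvd (prod_pos fun q hq => (h1 q hq).1.pos)
      (dvd_prod_of_mem _ hp)
    omega

theorem not_mem_35 {t : Bool} {r s : ZMod 2} {K S : Finset ℕ} (hK : Okz t r s K)
    (hS : (∏ p ∈ S, p) % 120 ∈ K) : 3 ∉ S ∧ 5 ∉ S := by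
  obtain ⟨_, h2, h3, h4⟩ := hK.2.2 _ hS
  rw [Nat.mod_mod_of_dvd _ (by norm_num : 3 ∣ 120)] at h3
  rw [Nat.mod_mod_of_dvd _ (by norm_num : 5 ∣ 120)] at h4
  constructor
  · intro h
    have h5 : 3 ∣ ∏ p ∈ S, p := dvd_prod_of_mem (fun p => p) h
    rw [Nat.mod_eq_zero_of_dvd h5] at h3
    split_ifs at h3
  · intro h
    have h5 : 5 ∣ ∏ p ∈ S, p := dvd_prod_of_mem (fun p => p) h
    rw [Nat.mod_eq_zero_of_dvd h5] at h4
    by_cases hr : r = 0
    · rw [if_pos hr] at h4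
      rcases h4 with h4 | h4 <;> exact absurd h4 (by norm_num)
    · rw [if_neg hr] at h4
      rcases h4 with h4 | h4 <;> exact absurd h4 (by norm_num)

theorem mv_ins {S : Finset ℕ} (h3 : 3 ∉ S) (h5 : 5 ∉ S) : mv (insert 3 (insert 5 S)) = S := by
  ext p
  unfold mv
  rw [mem_filter, mem_insert, mem_insert]
  constructor
  · rintro ⟨h | h | h, h1, h2⟩
    · exact absurd h h1
    · exact absurd h h2
    · exact h
  · intro h
    refine ⟨Or.inr (Or.inr h), ?_, ?_⟩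
    · rintro rfl
      exact h3 h
    · rintro rfl
      exact h5 h

theorem ins_mv {S : Finset ℕ} (h3 : 3 ∈ S) (h5 : 5 ∈ S) : insert 3 (insert 5 (mv S)) = S := by
  ext p
  unfold mv
  rw [mem_insert, mem_insert, mem_filter]
  constructor
  · rintro (rfl | rfl | ⟨h, _⟩)
    · exact h3
    · exact h5
    · exact h
  · intro h
    by_cases h1 : p = 3
    · exact Or.inl h1
    · by_cases h2 : p = 5
      · exact Or.inr (Or.inl h2)
      · exact Or.inr (Or.inr ⟨h, h1, h2⟩)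

theorem not_mem_mv (S : Finset ℕ) : 3 ∉ mv S ∧ 5 ∉ mv S := by
  unfold mv
  rw [mem_filter, mem_filter]
  exact ⟨fun h => h.2.1 rfl, fun h => h.2.2 rfl⟩

theorem prod_ins {S : Finset ℕ} (h3 : 3 ∉ S) (h5 : 5 ∉ S) :
    ∏ p ∈ insert 3 (insert 5 S), p = 15 * ∏ p ∈ S, p := by
  rw [prod_insert (by
    rw [mem_insert]
    rintro (h | h)
    · omega
    · exact h3 h), prod_insert h5]
  ring

theorem card_eq {t : Bool} {r s : ZMod 2} {K : Finset ℕ} (hK : Okz t r s K) (X : ℕ)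
    (P : Finset ℕ → Prop) :
    ((SS K X).filter P).card = ((SSz K (15 * X)).filter fun S => P (mv S)).card := by
  refine Finset.card_nbij' (fun S => insert 3 (insert 5 S)) mv ?_ ?_ ?_ ?_
  · intro S hS
    rw [mem_coe, mem_filter, mem_SS'] at hS
    obtain ⟨⟨h1, h2, h3⟩, h4⟩ := hS
    obtain ⟨h5, h6⟩ := not_mem_35 hK h2
    rw [mem_coe, mem_filter, mem_SSz', mv_ins h5 h6, prod_ins h5 h6]
    refine ⟨⟨?_, mem_insert_self _ _, mem_insert_of_mem (mem_insert_self _ _), h2, by omega⟩, h4⟩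
    intro p hp
    rw [mem_insert, mem_insert] at hp
    rcases hp with rfl | rfl | hp
    · exact ⟨by norm_num, by norm_num⟩
    · exact ⟨by norm_num, by norm_num⟩
    · exact h1 p hp
  · intro S hS
    rw [mem_coe, mem_filter, mem_SSz'] at hS
    obtain ⟨⟨h1, h2, h3, h4, h5⟩, h6⟩ := hS
    rw [mem_coe, mem_filter, mem_SS']
    refine ⟨⟨fun p hp => h1 p ?_, h4, ?_⟩, h6⟩
    · unfold mv at hp
      exact (mem_filter.1 hp).1
    · rw [← ins_mv h2 h3, prod_ins (not_mem_mv S).1 (not_mem_mv S).2] at h5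
      omega
  · intro S hS
    rw [mem_coe, mem_filter, mem_SS'] at hS
    obtain ⟨h5, h6⟩ := not_mem_35 hK hS.1.2.1
    exact mv_ins h5 h6
  · intro S hS
    rw [mem_coe, mem_filter, mem_SSz'] at hS
    exact ins_mv hS.1.2.1 hS.1.2.2.1

/-- Z5: the proportion of the good sets -/
theorem five (h : S_DQz') : S_DQz := by
  intro t r s K hK ε hε
  obtain ⟨X₀, hX⟩ := h t r s K hK (ε / 15) (by positivity)
  refine ⟨X₀, fun X hX0 => ?_⟩
  have h1 := hX (15 * X) (by omega)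
  have h2 := card_eq hK X (Gz t r s)
  have h3 : (SS K X).card = (SSz K (15 * X)).card := by
    simpa using card_eq hK X fun _ => True
  rw [h2, h3]
  refine h1.trans (le_of_eq ?_)
  push_cast
  ring

end Pool.Agent.T2h79.XM.Z
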