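import Pool.Agent.T2h79.XM.Z.Stm
import Pool.Agent.N218.GB.KEY

/-! Task Z3: the sum over the boxes, for the Rédei system changed by a matrix of rank one (after
`Pool/Agent/N218/GB/KEY.lean`). -/

set_option autoImplicit false

open scoped Classical

namespace Pool.Agent.T2h79.XM.Z.KEY

open Finset
open Pool.Agent.Y703.CX (sm la jj XX)
open Pool.Agent.N916.GB
open Pool.Agent.Y703.CQ (nr sg)
open Pool.Agent.N973.ND (uu)
open Pool.Agent.N218.GB.KEY (ph ky le_XX cl_prime cl_odd sm_la_card sm_la_prod CC mem_CC sm_fill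
  la_fill ph_fill im_fill ky_fill inj_fill inj_ph CC_facts CC_disj Bil hb_box ps_card card_sub TP
  mem_TP harm_TP)

/-! ### the characters modulo `4`, `3` and `5` -/

theorem uu_mul {a b : ℕ} (ha : a % 2 = 1) (hb : b % 2 = 1) : uu (a * b) = uu a + uu b := by
  unfold uu
  have h : (a * b) % 4 = ((a % 4) * (b % 4)) % 4 := Nat.mul_mod _ _ _
  have ha' : a % 4 = 1 ∨ a % 4 = 3 := by omega
  have hb' : b % 4 = 1 ∨ b % 4 = 3 := by omega
  rcases ha' with ha' | ha' <;> rcases hb' with hb' | hb' <;> rw [h, ha', hb'] <;> decide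

theorem al_mul {a b : ℕ} (ha : a % 3 ≠ 0) (hb : b % 3 ≠ 0) : al (a * b) = al a + al b := by
  unfold al
  have h : (a * b) % 3 = ((a % 3) * (b % 3)) % 3 := Nat.mul_mod _ _ _
  have ha' : a % 3 = 1 ∨ a % 3 = 2 := by omega
  have hb' : b % 3 = 1 ∨ b % 3 = 2 := by omega
  rcases ha' with ha' | ha' <;> rcases hb' with hb' | hb' <;> rw [h, ha', hb'] <;> decide

/-- the symbol at `5` -/
def b5 (p : ℕ) : ZMod 2 := if p % 5 = 2 ∨ p % 5 = 3 then 1 else 0

theorem b5_mul {a b : ℕ} (ha : a % 5 ≠ 0) (hb : b % 5 ≠ 0) : b5 (a * b) = b5 a + b5 b := by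
  unfold b5
  have h : (a * b) % 5 = ((a % 5) * (b % 5)) % 5 := Nat.mul_mod _ _ _
  have ha' : a % 5 = 1 ∨ a % 5 = 2 ∨ a % 5 = 3 ∨ a % 5 = 4 := by omega
  have hb' : b % 5 = 1 ∨ b % 5 = 2 ∨ b % 5 = 3 ∨ b % 5 = 4 := by omega
  rcases ha' with ha' | ha' | ha' | ha' <;> rcases hb' with hb' | hb' | hb' | hb' <;>
    rw [h, ha', hb'] <;> decide

theorem sum_mul {α : Type} (g : ℕ → ZMod 2) (P : ℕ → Prop) (h1 : g 1 = 0) (hP1 : P 1)
    (hP : ∀ a b, P a → P b → P (a * b)) (hg : ∀ a b, P a → P b → g (a * b) = g a + g b)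
    (T : Finset α) (f : α → ℕ) (h : ∀ a ∈ T, P (f a)) :
    P (∏ a ∈ T, f a) ∧ g (∏ a ∈ T, f a) = ∑ a ∈ T, g (f a) := by
  induction T using Finset.induction_on with
  | empty => rw [Finset.prod_empty, Finset.sum_empty]; exact ⟨hP1, h1⟩
  | insert a S ha ih =>
    obtain ⟨ih1, ih2⟩ := ih fun b hb => h b (Finset.mem_insert_of_mem hb)
    have h2 := h a (Finset.mem_insert_self a S)
    rw [Finset.prod_insert ha, Finset.sum_insert ha]
    exact ⟨hP _ _ h2 ih1, by rw [hg _ _ h2 ih1, ih2]⟩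

theorem be_eq {r : ZMod 2} {p : ℕ} (h : p % 2 = 1) : be r p = b5 p := by
  unfold be b5
  rw [if_neg]
  rintro rfl
  omega

theorem pr3 {a b : ℕ} (ha : a % 3 ≠ 0) (hb : b % 3 ≠ 0) : (a * b) % 3 ≠ 0 := by
  intro h
  rcases (Nat.Prime.dvd_mul Nat.prime_three).1 (Nat.dvd_of_mod_eq_zero h) with h | h <;> omega

theorem pr5 {a b : ℕ} (ha : a % 5 ≠ 0) (hb : b % 5 ≠ 0) : (a * b) % 5 ≠ 0 := by
  intro h
  rcases (Nat.Prime.dvd_mul Nat.prime_five).1 (Nat.dvd_of_mod_eq_zero h) with h | h <;> omega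

/-- the sums of the characters over the primes of a key -/
theorem char_sum (g : ℕ → ZMod 2) (P : ℕ → Prop) (h1 : g 1 = 0) (hP1 : P 1)
    (hP : ∀ a b, P a → P b → P (a * b)) (hg : ∀ a b, P a → P b → g (a * b) = g a + g b)
    (A : Finset ℕ) (J : Finset (ℕ × ℕ)) (hA : ∀ a ∈ A, P a) (hJ : ∀ e ∈ J, P e.2)
    (hgm : ∀ n, g (n % 120) = g n) :
    ∑ p ∈ A, g p + ∑ i : J, g i.1.2 = g (((∏ p ∈ A, p) * ∏ e ∈ J, e.2) % 120) := by
  obtain ⟨a1, a2⟩ := sum_mul g P h1 hP1 hP hg A (fun p => p) hA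
  obtain ⟨b1, b2⟩ := sum_mul g P h1 hP1 hP hg J (fun e => e.2) hJ
  rw [hgm, hg _ _ a1 b1, a2, b2, Finset.sum_coe_sort J (fun e => g e.2)]

theorem d1 (s : ZMod 2) : (if (if s = 0 then 3 else 1 : ℕ) = 3 then (1 : ZMod 2) else 0) + s = 1 := by
  rcases (by decide : ∀ s : ZMod 2, s = 0 ∨ s = 1) s with h | h <;> subst h <;> simp

theorem d2 (r : ZMod 2) : (if (if r = 0 then 1 else 2 : ℕ) = 2 then (1 : ZMod 2) else 0) + r = 0 := by
  rcases (by decide : ∀ s : ZMod 2, s = 0 ∨ s = 1) r with h | h <;> subst h <;> simp <;> decide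

theorem d3 (r : ZMod 2) (h : r ≠ 0) : r = 1 :=
  ((by decide : ∀ s : ZMod 2, s = 0 ∨ s = 1) r).resolve_left h

/-! ### the sets without `3` and `5` -/

theorem mem_mv {S : Finset ℕ} {p : ℕ} : p ∈ mv S ↔ p ∈ S ∧ p ≠ 3 ∧ p ≠ 5 := by
  unfold mv
  rw [Finset.mem_filter]

theorem mv_union (A B : Finset ℕ) (hB : ∀ p ∈ B, 5 < p) : mv (A ∪ B) = mv A ∪ B := by
  ext p
  rw [mem_mv, Finset.mem_union, Finset.mem_union, mem_mv]
  constructor
  · rintro ⟨h | h, h2⟩
    · exact Or.inl ⟨h, h2⟩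
    · exact Or.inr h
  · rintro (h | h)
    · exact ⟨Or.inl h.1, h.2⟩
    · have := hB p h
      exact ⟨Or.inr h, by omega, by omega⟩

theorem mem_la {z : ℕ} {S : Finset ℕ} {p : ℕ} : p ∈ la z S ↔ p ∈ S ∧ ¬ p ≤ z := by
  unfold la
  rw [Finset.mem_filter]

theorem mem_sm {z : ℕ} {S : Finset ℕ} {p : ℕ} : p ∈ sm z S ↔ p ∈ S ∧ p ≤ z := by
  unfold sm
  rw [Finset.mem_filter]

theorem mv_prod {z : ℕ} (hz : 5 ≤ z) (S : Finset ℕ) :
    (∏ p ∈ mv (sm z S), p) * ∏ p ∈ la z S, p = ∏ p ∈ mv S, p := by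
  have h1 : S = sm z S ∪ la z S := by
    unfold sm la
    exact (Finset.filter_union_filter_not_eq _ _).symm
  have h2 : ∀ p ∈ la z S, 5 < p := by
    intro p hp
    have := (mem_la.1 hp).2
    omega
  conv_rhs => rw [h1, mv_union _ _ h2]
  rw [Finset.prod_union]
  rw [Finset.disjoint_left]
  intro p hp hp'
  exact (mem_la.1 hp').2 (mem_sm.1 (mem_mv.1 hp).1).2

/-- the keys which occur -/
structure KP (K : Finset ℕ) (X z H k V : ℕ) (S₀ : Finset ℕ) (J : Finset (ℕ × ℕ)) : Prop where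
  cl : ∀ q ∈ S₀, Po q
  le : ∀ q ∈ S₀, q ≤ z
  three : 3 ∈ S₀
  five : 5 ∈ S₀
  inj : Set.InjOn Prod.fst (J : Set (ℕ × ℕ))
  card : S₀.card + J.card ≤ k
  prod : (∏ p ∈ S₀, p) * ∏ e ∈ J, XX H e.1 ≤ X
  odd : ∀ e ∈ J, e.2 % 2 = 1 ∧ e.2 % 3 ≠ 0 ∧ e.2 % 5 ≠ 0
  mod : ((∏ p ∈ mv S₀, p) * ∏ e ∈ J, e.2) % 120 ∈ K
  few : 2 * S₀.card + V ≤ (J.filter fun e => e.2 % 4 = 3).card

theorem rr_iff {K : Finset ℕ} {X z H k V : ℕ} (hH : 1 ≤ H) (hz : 5 ≤ z) {S : Finset ℕ}
    (hS : ∀ q ∈ S, Po q)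
    (hi : Set.InjOn (ph H) (la z S : Set ℕ)) :
    S ∈ RRz K X z H k V ↔ KP K X z H k V (ky z H S).1 (ky z H S).2 := by
  set J := (la z S).image (ph H) with hJ
  have hky : ky z H S = (sm z S, J) := rfl
  rw [hky]
  have f2 : J.card = (la z S).card := Finset.card_image_of_injOn hi
  have f3 : (J.filter fun e => e.2 % 4 = 3).card =
      ((la z S).filter fun p => p % 4 = 3).card := by
    rw [hJ, Finset.filter_image, Finset.card_image_of_injOn]
    · congr 1
      refine Finset.filter_congr fun p _ => ?_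
      show p % 120 % 4 = 3 ↔ p % 4 = 3
      omega
    · intro a ha b hb hab
      exact hi (Finset.mem_coe.2 (Finset.mem_filter.1 (Finset.mem_coe.1 ha)).1)
        (Finset.mem_coe.2 (Finset.mem_filter.1 (Finset.mem_coe.1 hb)).1) hab
  have f8 : ∏ e ∈ J, XX H e.1 = ∏ p ∈ la z S, XX H (jj H p) := by
    rw [hJ, Finset.prod_image hi]
    rfl
  have f9 : Set.InjOn (jj H) (la z S : Set ℕ) ↔ Set.InjOn Prod.fst (J : Set (ℕ × ℕ)) := by
    constructor
    · intro h a ha b hb hab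
      rw [Finset.mem_coe, hJ, Finset.mem_image] at ha hb
      obtain ⟨p, hp, rfl⟩ := ha
      obtain ⟨q, hq, rfl⟩ := hb
      rw [h (Finset.mem_coe.2 hp) (Finset.mem_coe.2 hq) hab]
    · intro h p hp q hq hpq
      exact hi hp hq (h (Finset.mem_coe.2 (Finset.mem_image_of_mem _ (Finset.mem_coe.1 hp)))
        (Finset.mem_coe.2 (Finset.mem_image_of_mem _ (Finset.mem_coe.1 hq))) hpq)
  have hsm : sm z S ⊆ S := Finset.filter_subset _ _
  have hla : la z S ⊆ S := Finset.filter_subset _ _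
  have f10 : ((∏ p ∈ mv (sm z S), p) * ∏ e ∈ J, e.2) % 120 = (∏ p ∈ mv S, p) % 120 := by
    rw [← mv_prod hz S, hJ, Finset.prod_image hi]
    show ((∏ p ∈ mv (sm z S), p) * ∏ p ∈ la z S, p % 120) % 120 =
      ((∏ p ∈ mv (sm z S), p) * ∏ p ∈ la z S, p) % 120
    rw [Nat.mul_mod, ← Finset.prod_nat_mod, ← Nat.mul_mod]
  have f11 : ∀ e ∈ J, e.2 % 2 = 1 ∧ e.2 % 3 ≠ 0 ∧ e.2 % 5 ≠ 0 := by
    intro e he
    rw [hJ, Finset.mem_image] at he
    obtain ⟨p, hp, rfl⟩ := he
    show p % 120 % 2 = 1 ∧ p % 120 % 3 ≠ 0 ∧ p % 120 % 5 ≠ 0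
    have h1 := cl_odd (hS p (hla hp))
    have h2 := (mem_la.1 hp).2
    have hpp := cl_prime (hS p (hla hp))
    have h3 : p % 3 ≠ 0 := by
      intro h
      have := (Nat.prime_dvd_prime_iff_eq Nat.prime_three hpp).1 (Nat.dvd_of_mod_eq_zero h)
      omega
    have h5 : p % 5 ≠ 0 := by
      intro h
      have := (Nat.prime_dvd_prime_iff_eq Nat.prime_five hpp).1 (Nat.dvd_of_mod_eq_zero h)
      omega
    omega
  constructor
  · intro h
    unfold RRz at h
    rw [Finset.mem_filter] at h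
    obtain ⟨h1, h2, h3, h4, h5⟩ := h
    unfold SSz at h1
    rw [Finset.mem_filter] at h1
    obtain ⟨-, h6, h10⟩ := h1
    refine ⟨fun q hq => hS q (hsm hq), fun q hq => (Finset.mem_filter.1 hq).2,
      mem_sm.2 ⟨h6.2.1, by omega⟩, mem_sm.2 ⟨h6.2.2.1, by omega⟩,
      f9.1 h2, ?_, ?_, f11, ?_, ?_⟩
    · rw [f2, sm_la_card]
      exact h3
    · rw [f8]
      exact h4
    · rw [f10]
      exact h6.2.2.2
    · rw [f3]
      exact h5
  · rintro ⟨k1, k2, k3, k5, k7, k8, k9, -, k10, k11⟩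
    have hprod : ∏ p ∈ S, p ≤ X := by
      rw [← sm_la_prod z S]
      refine le_trans (Nat.mul_le_mul_left _ ?_) k9
      rw [f8]
      refine Finset.prod_le_prod' fun p hp => le_XX hH (cl_prime (hS p (hla hp))).one_le
    rw [f10] at k10
    rw [f3] at k11
    unfold RRz SSz
    rw [Finset.mem_filter, Finset.mem_filter, Finset.mem_powerset]
    refine ⟨⟨?_, ⟨hS, (mem_sm.1 k3).1, (mem_sm.1 k5).1, k10⟩, hprod⟩, f9.2 k7, ?_, ?_, k11⟩
    · intro q hq
      rw [Finset.mem_range]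
      have h1 : q ∣ ∏ p ∈ S, p := Finset.dvd_prod_of_mem _ hq
      have h2 : 0 < ∏ p ∈ S, p := Finset.prod_pos fun p hp => (cl_prime (hS p hp)).pos
      have := Nat.le_of_dvd h2 h1
      omega
    · rw [← sm_la_card z S, ← f2]
      exact k8
    · rw [← f8]
      exact k9

theorem rr_facts {K : Finset ℕ} {X z H k V : ℕ} {S : Finset ℕ} (hS : S ∈ RRz K X z H k V) :
    (∀ q ∈ S, Po q) ∧ Set.InjOn (jj H) (la z S : Set ℕ) ∧ ∏ p ∈ S, p ≤ X := by
  unfold RRz SSz at hS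
  rw [Finset.mem_filter, Finset.mem_filter] at hS
  exact ⟨hS.1.2.1.1, hS.2.1, hS.1.2.2⟩

theorem key_bij {K : Finset ℕ} {X z H k V : ℕ} (hH : 1 ≤ H) (hz : 5 ≤ z) {S₀ : Finset ℕ}
    {J : Finset (ℕ × ℕ)}
    (hkey : KP K X z H k V S₀ J) (P : Finset ℕ → Prop) [DecidablePred P] [DecidableEq J] :
    ((Fintype.piFinset fun i : J => CC z H i).filter fun p => P (S₀ ∪ univ.image p)).card =
      ((RRz K X z H k V).filter fun S => ky z H S = (S₀, J) ∧ P S).card := by
  have h₀ := hkey.le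
  apply Finset.card_bij (fun (p : J → ℕ) _ => S₀ ∪ univ.image p)
  · intro p hp
    rw [Finset.mem_filter, Fintype.mem_piFinset] at hp
    obtain ⟨hp, hP⟩ := hp
    have hk := ky_fill hH h₀ hp
    rw [Finset.mem_filter]
    refine ⟨?_, hk, hP⟩
    rw [rr_iff hH hz _ (inj_fill hH h₀ hp), hk]
    · exact hkey
    · intro q hq
      rw [Finset.mem_union, Finset.mem_image] at hq
      rcases hq with hq | ⟨i, -, rfl⟩
      · exact hkey.cl q hq
      · exact ((mem_CC hH).1 (hp i)).1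
  · intro p hp p' hp' h
    rw [Finset.mem_filter, Fintype.mem_piFinset] at hp hp'
    have h1 := la_fill hH h₀ hp.1
    rw [h, la_fill hH h₀ hp'.1] at h1
    funext i
    have h2 : p i ∈ univ.image p' := by
      rw [h1]
      exact Finset.mem_image_of_mem _ (Finset.mem_univ _)
    rw [Finset.mem_image] at h2
    obtain ⟨j, -, hj⟩ := h2
    have h3 := ph_fill hH hp.1 i
    have h4 := ph_fill hH hp'.1 j
    rw [hj, h3] at h4
    rw [← hj, Subtype.ext h4]
  · intro S hS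
    rw [Finset.mem_filter] at hS
    obtain ⟨hSR, hSk, hSP⟩ := hS
    obtain ⟨hSO, hSI, -⟩ := rr_facts hSR
    have hk1 : sm z S = S₀ := congrArg Prod.fst hSk
    have hk2 : (la z S).image (ph H) = J := congrArg Prod.snd hSk
    have hex : ∀ i : J, ∃ q ∈ la z S, ph H q = i := by
      rintro ⟨i, hi⟩
      rw [← hk2, Finset.mem_image] at hi
      exact hi
    choose p hp1 hp2 using hex
    have him : univ.image p = la z S := by
      ext q
      rw [Finset.mem_image]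
      constructor
      · rintro ⟨i, -, rfl⟩
        exact hp1 i
      · intro hq
        have hjq : ph H q ∈ J := by
          rw [← hk2]
          exact Finset.mem_image_of_mem _ hq
        exact ⟨⟨ph H q, hjq⟩, Finset.mem_univ _, inj_ph hSI (Finset.mem_coe.2 (hp1 _))
          (Finset.mem_coe.2 hq) (hp2 ⟨ph H q, hjq⟩)⟩
    have hSe : S₀ ∪ univ.image p = S := by
      rw [him, ← hk1]
      unfold sm la
      exact Finset.filter_union_filter_not_eq _ _
    refine ⟨p, ?_, hSe⟩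
    rw [Finset.mem_filter, Fintype.mem_piFinset, hSe]
    refine ⟨fun i => (mem_CC hH).2 ⟨hSO _ (Finset.mem_filter.1 (hp1 i)).1,
      not_le.1 (Finset.mem_filter.1 (hp1 i)).2, hp2 i⟩, hSP⟩

theorem box_dec {ε : ℝ} {V₀ : ℕ} (hBOX : Boxz ε V₀) (t : Bool) (r s : ZMod 2)
    (ι : Type) [Fintype ι] [inst : DecidableEq ι] (lo : LinearOrder ι) (τ : ι → ℕ)
    (C : ι → Finset ℕ) (X : ι → ℕ) (κ : ℝ) (S₀ : Finset ℕ)
    (g1 : t = false → r = 0 ∧ s = 0) (g2 : t = true → r ≠ 0 ∨ s ≠ 0) (h1 : 0 ≤ κ)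
    (h2 : ∀ i, (C i).card ≤ X i) (h3 : HB C X κ)
    (h4 : ∀ v ∈ S₀, Po v) (i3 : 3 ∈ S₀) (i5 : 5 ∈ S₀)
    (h5 : ∀ i, ∀ p ∈ C i, Po p ∧ p ∉ S₀ ∧ p % 120 = τ i)
    (h6 : ∀ i l, i ≠ l → Disjoint (C i) (C l))
    (j1 : ∑ p ∈ mv S₀, uu p + ∑ i, uu (τ i) + s = 1)
    (j2 : ∑ p ∈ mv S₀, al p + ∑ i, al (τ i) + r = 0)
    (j3 : ∑ p ∈ mv S₀, be r p + ∑ i, be r (τ i) + r = 0)
    (h8 : 2 * S₀.card + V₀ ≤ (univ.filter fun i => τ i % 4 = 3).card) :
    |(((Fintype.piFinset C).filter fun p => Nd S₀ (univ.image p) ∧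
        Gz t r s (mv S₀ ∪ univ.image p)).card : ℝ) -
      eta * (((Fintype.piFinset C).filter fun p => Nd S₀ (univ.image p)).card : ℝ)| ≤
    ε * (((Fintype.piFinset C).filter fun p => Nd S₀ (univ.image p)).card : ℝ) +
    2 ^ ((2 * S₀.card + 1) * Fintype.card ι + (ps ι).card) * (κ * ∏ j, (X j : ℝ)) := by
  have h := hBOX t r s ι τ C X κ S₀ g1 g2 h1 h2 h3 h4 i3 i5 h5 h6 j1 j2 j3 h8
  have e : inst = fun a b => lo.toDecidableEq a b := Subsingleton.elim _ _
  subst e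
  exact h

theorem per_key {ε : ℝ} (hε : 0 ≤ ε) {V : ℕ} (hBOX : Boxz ε V) {t : Bool} {r s : ZMod 2}
    {K : Finset ℕ} (hOk : Okz t r s K) {X z H k : ℕ} (hH : 1 ≤ H) (hz : 5 ≤ z)
    {κ : ℝ} (hκ : 0 ≤ κ) {S₀ : Finset ℕ} {J : Finset (ℕ × ℕ)} (hk : KP K X z H k V S₀ J)
    (hHB : HB (fun i : J => CC z H i) (fun i => XX H i.1.1) κ) :
    |(((RRz K X z H k V).filter fun S => ky z H S = (S₀, J) ∧
        (Nd (sm z S) (la z S) ∧ Gz t r s (mv S))).card : ℝ) -
      eta * (((RRz K X z H k V).filter fun S => ky z H S = (S₀, J) ∧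
        Nd (sm z S) (la z S)).card : ℝ)| ≤
    ε * (((RRz K X z H k V).filter fun S => ky z H S = (S₀, J)).card : ℝ) +
      (3 ^ (9 * k ^ 2 + 9) * κ) * (X / ((∏ p ∈ S₀, p : ℕ) : ℝ)) := by
  have c1 : (univ.filter fun e : J => e.1.2 % 4 = 3).card =
      (J.filter fun e => e.2 % 4 = 3).card := by
    rw [← Finset.card_map (Function.Embedding.subtype (· ∈ J))]
    congr 1
    ext x
    simp only [Finset.mem_map, Finset.mem_filter, Finset.mem_univ, true_and,
      Function.Embedding.coe_subtype]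
    constructor
    · rintro ⟨u, hu, rfl⟩
      exact ⟨u.2, hu⟩
    · rintro ⟨h, h'⟩
      exact ⟨⟨x, h⟩, h', rfl⟩
  have g3 : ∀ q ∈ mv S₀, q % 3 ≠ 0 := by
    intro q hq h
    have h1 := (mem_mv.1 hq)
    exact h1.2.1 ((Nat.prime_dvd_prime_iff_eq Nat.prime_three (cl_prime (hk.cl q h1.1))).1
      (Nat.dvd_of_mod_eq_zero h)).symm
  have g5 : ∀ q ∈ mv S₀, q % 5 ≠ 0 := by
    intro q hq h
    have h1 := (mem_mv.1 hq)
    exact h1.2.2 ((Nat.prime_dvd_prime_iff_eq Nat.prime_five (cl_prime (hk.cl q h1.1))).1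
      (Nat.dvd_of_mod_eq_zero h)).symm
  have g2 : ∀ q ∈ mv S₀, q % 2 = 1 := fun q hq => cl_odd (hk.cl q (mem_mv.1 hq).1)
  obtain ⟨-, o4, o3, o5⟩ := hOk.2.2 _ hk.mod
  have j1 : ∑ p ∈ mv S₀, uu p + ∑ i : J, uu i.1.2 + s = 1 := by
    rw [char_sum uu (fun n => n % 2 = 1) (by decide) (by norm_num)
      (fun a b ha hb => by rw [Nat.mul_mod, ha, hb]) (fun a b ha hb => uu_mul ha hb) (mv S₀) J g2
      (fun e he => (hk.odd e he).1) (fun n => by
        unfold uu
        have : n % 120 % 4 = n % 4 := by omega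
        rw [this])]
    unfold uu
    rw [o4]
    exact d1 s
  have j2 : ∑ p ∈ mv S₀, al p + ∑ i : J, al i.1.2 + r = 0 := by
    rw [char_sum al (fun n => n % 3 ≠ 0) (by decide) (by norm_num)
      (fun a b ha hb => pr3 ha hb) (fun a b ha hb => al_mul ha hb) (mv S₀) J g3
      (fun e he => (hk.odd e he).2.1) (fun n => by
        unfold al
        have : n % 120 % 3 = n % 3 := by omega
        rw [this])]
    unfold al
    rw [o3]
    exact d2 r
  have j3 : ∑ p ∈ mv S₀, be r p + ∑ i : J, be r i.1.2 + r = 0 := by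
    have e1 : ∑ p ∈ mv S₀, be r p = ∑ p ∈ mv S₀, b5 p :=
      Finset.sum_congr rfl fun p hp => be_eq (g2 p hp)
    have e2 : ∑ i : J, be r i.1.2 = ∑ i : J, b5 i.1.2 :=
      Finset.sum_congr rfl fun i _ => be_eq (hk.odd i.1 i.2).1
    rw [e1, e2, char_sum b5 (fun n => n % 5 ≠ 0) (by decide) (by norm_num)
      (fun a b ha hb => pr5 ha hb) (fun a b ha hb => b5_mul ha hb) (mv S₀) J g5
      (fun e he => (hk.odd e he).2.2) (fun n => by
        unfold b5
        have : n % 120 % 5 = n % 5 := by omega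
        rw [this])]
    unfold b5
    by_cases hr : r = 0
    · rw [if_pos hr] at o5
      rw [if_neg (by omega), hr, add_zero]
    · rw [if_neg hr] at o5
      have hr1 : r = 1 := d3 r hr
      rw [if_pos o5, hr1]
      decide
  have hinj : Function.Injective (fun i : J => i.1.1) := by
    intro a b hab
    exact Subtype.ext (hk.inj (Finset.mem_coe.2 a.2) (Finset.mem_coe.2 b.2) hab)
  let lo : LinearOrder J := LinearOrder.lift' (fun i : J => i.1.1) hinj
  have hbox := box_dec hBOX t r s J lo (fun e => e.1.2) (fun i => CC z H i)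
    (fun i => XX H i.1.1) κ S₀ hOk.1 hOk.2.1 hκ
    (fun i => by
      refine (Finset.card_filter_le _ _).trans ?_
      rw [Nat.card_Icc]
      omega)
    hHB (fun u hu => hk.cl u hu) hk.three hk.five
    (fun i p hp => by
      obtain ⟨h3, h4, h5⟩ := (mem_CC hH).1 hp
      refine ⟨h3, fun h => ?_, congrArg Prod.snd h5⟩
      have := hk.le p h
      omega)
    (fun i l hil => CC_disj hH i l hil)
    j1 j2 j3
    (by
      rw [c1]
      exact hk.few)
  have e1 : ((Fintype.piFinset fun i : J => CC z H i).filter fun p => Nd S₀ (univ.image p) ∧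
      Gz t r s (mv S₀ ∪ univ.image p)).card = ((RRz K X z H k V).filter fun S => ky z H S = (S₀, J) ∧
        (Nd (sm z S) (la z S) ∧ Gz t r s (mv S))).card := by
    rw [← key_bij hH hz hk (fun S => Nd (sm z S) (la z S) ∧ Gz t r s (mv S))]
    congr 1
    refine Finset.filter_congr fun p hp => ?_
    rw [Fintype.mem_piFinset] at hp
    rw [sm_fill hH hk.le hp, la_fill hH hk.le hp, mv_union]
    intro q hq
    obtain ⟨i, -, rfl⟩ := Finset.mem_image.1 hq
    have := ((mem_CC hH).1 (hp i)).2.1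
    omega
  have e2 : ((Fintype.piFinset fun i : J => CC z H i).filter fun p =>
      Nd S₀ (univ.image p)).card = ((RRz K X z H k V).filter fun S => ky z H S = (S₀, J) ∧
        Nd (sm z S) (la z S)).card := by
    rw [← key_bij hH hz hk (fun S => Nd (sm z S) (la z S))]
    congr 1
    refine Finset.filter_congr fun p hp => ?_
    rw [Fintype.mem_piFinset] at hp
    rw [sm_fill hH hk.le hp, la_fill hH hk.le hp]
  rw [e1, e2] at hbox
  refine hbox.trans (add_le_add ?_ ?_)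
  · have h4 : (((RRz K X z H k V).filter fun S => ky z H S = (S₀, J) ∧
        Nd (sm z S) (la z S)).card : ℝ) ≤
        (((RRz K X z H k V).filter fun S => ky z H S = (S₀, J)).card : ℝ) := by
      have : (RRz K X z H k V).filter (fun S => ky z H S = (S₀, J) ∧ Nd (sm z S) (la z S)) ⊆
          (RRz K X z H k V).filter fun S => ky z H S = (S₀, J) := by
        intro S hS
        rw [Finset.mem_filter] at hS ⊢
        exact ⟨hS.1, hS.2.1⟩
      exact_mod_cast Finset.card_le_card this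
    exact mul_le_mul_of_nonneg_left h4 hε
  · have hcJ : Fintype.card J = J.card := Fintype.card_coe J
    have hcard := hk.card
    have hJK : J.card ≤ k := by omega
    have hSK : S₀.card ≤ k := by omega
    obtain ⟨n, hn⟩ : ∃ n : ℕ, n = (@ps J _ lo).card := ⟨_, rfl⟩
    have hpr : n ≤ k * k := by
      rw [hn]
      refine (@ps_card J _ lo).trans ?_
      rw [hcJ]
      exact Nat.mul_le_mul hJK hJK
    rw [← hn]
    have h5 : (2 : ℝ) ^ ((2 * S₀.card + 1) * Fintype.card J + n) ≤ 3 ^ (9 * k ^ 2 + 9) := by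
      have hexp : (2 * S₀.card + 1) * Fintype.card J + n ≤ 9 * k ^ 2 + 9 := by
        rw [hcJ]
        have h6 : S₀.card * J.card ≤ k * k := Nat.mul_le_mul hSK hJK
        have h7 : k ≤ k * k := Nat.le_mul_self k
        have h8 : (2 * S₀.card + 1) * J.card + n = 2 * (S₀.card * J.card) + J.card + n := by ring
        have h9 : k ^ 2 = k * k := by ring
        rw [h8, h9]
        omega
      calc (2 : ℝ) ^ ((2 * S₀.card + 1) * Fintype.card J + n) ≤ 2 ^ (9 * k ^ 2 + 9) :=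
            pow_le_pow_right₀ (by norm_num) hexp
        _ ≤ 3 ^ (9 * k ^ 2 + 9) := by
            apply pow_le_pow_left₀ <;> norm_num
    have hN0 : (0 : ℝ) < ((∏ p ∈ S₀, p : ℕ) : ℝ) := by
      exact_mod_cast Finset.prod_pos fun p hp => (cl_prime (hk.cl p hp)).pos
    have hprod : ∏ j : J, (XX H j.1.1 : ℝ) ≤ X / ((∏ p ∈ S₀, p : ℕ) : ℝ) := by
      have h5 : ∏ j : J, (XX H j.1.1 : ℝ) = ((∏ k ∈ J, XX H k.1 : ℕ) : ℝ) := by
        rw [← Finset.prod_coe_sort J (fun k => XX H k.1)]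
        push_cast
        rfl
      rw [h5, le_div_iff₀ hN0, mul_comm]
      exact_mod_cast hk.prod
    calc (2 : ℝ) ^ ((2 * S₀.card + 1) * Fintype.card J + n) *
        (κ * ∏ j : J, (XX H j.1.1 : ℝ)) ≤
        3 ^ (9 * k ^ 2 + 9) * (κ * (X / ((∏ p ∈ S₀, p : ℕ) : ℝ))) := by gcongr
      _ = _ := by ring

/-- **Z3.** -/
theorem t_KEYz : S_KEYz := by
  intro hBIL hEQ hLA hBOX ε hε
  obtain ⟨C, hC1, hB⟩ := hBIL
  obtain ⟨V, hV⟩ := hBOX hEQ hLA ε hε
  refine ⟨V, C, hC1, ?_⟩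
  intro t r s K hOk X z H k N κ hX hH hz hκ hκz hN
  set T := (RRz K X z H k V).image (ky z H) with hT
  set B : ℝ := 3 ^ (9 * k ^ 2 + 9) * κ with hBd
  have hB0 : 0 ≤ B := by positivity
  have hfib : ∀ (P : Finset ℕ → Prop) [DecidablePred P],
      (((RRz K X z H k V).filter fun S => P S).card : ℝ) =
      ∑ e ∈ T, (((RRz K X z H k V).filter fun S => ky z H S = e ∧ P S).card : ℝ) := by
    intro P _
    rw [Finset.card_eq_sum_card_fiberwise (f := ky z H) (t := T) (by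
      intro S hS
      rw [Finset.mem_coe, Finset.mem_filter] at hS
      exact Finset.mem_coe.2 (Finset.mem_image_of_mem _ hS.1))]
    push_cast
    refine Finset.sum_congr rfl fun e _ => ?_
    congr 2
    ext S
    simp only [Finset.mem_filter]
    tauto
  have hKP : ∀ e ∈ T, KP K X z H k V e.1 e.2 := by
    intro e he
    rw [hT, Finset.mem_image] at he
    obtain ⟨S, hS, rfl⟩ := he
    obtain ⟨f1, f2, f3⟩ := rr_facts hS
    exact (rr_iff hH hz f1 (inj_ph f2)).1 hS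
  have hf1 := hfib fun S => Nd (sm z S) (la z S) ∧ Gz t r s (mv S)
  have hf2 := hfib fun S => Nd (sm z S) (la z S)
  have hf3 := hfib fun _ => True
  simp only [and_true, Finset.filter_true] at hf3
  rw [hf1, hf2, hf3, Finset.mul_sum, ← Finset.sum_sub_distrib]
  refine (Finset.abs_sum_le_sum_abs _ _).trans ?_
  have h3 : ∀ e ∈ T, |(((RRz K X z H k V).filter fun S => ky z H S = e ∧
        (Nd (sm z S) (la z S) ∧ Gz t r s (mv S))).card : ℝ) -
      eta * (((RRz K X z H k V).filter fun S => ky z H S = e ∧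
        Nd (sm z S) (la z S)).card : ℝ)| ≤
      ε * (((RRz K X z H k V).filter fun S => ky z H S = e).card : ℝ) +
      B * (X / ((∏ p ∈ e.1, p : ℕ) : ℝ)) := by
    intro e he
    obtain ⟨S₀, J⟩ := e
    have hk' := hKP _ he
    exact per_key hε.le hV hOk hH hz hκ hk' (hb_box hB hH (by omega) hκ hκz)
  refine (Finset.sum_le_sum h3).trans ?_
  rw [Finset.sum_add_distrib, ← Finset.mul_sum]
  refine add_le_add le_rfl ?_
  have hsub : T ⊆ (TP X) ×ˢ ((range N ×ˢ range 120).powerset.filter fun J => J.card ≤ k) := by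
    intro e he
    have hk' := hKP e he
    rw [hT, Finset.mem_image] at he
    obtain ⟨S, hS, rfl⟩ := he
    obtain ⟨f1, f2, f3⟩ := rr_facts hS
    rw [Finset.mem_product, Finset.mem_filter, Finset.mem_powerset]
    refine ⟨mem_TP (fun q hq => cl_prime (hk'.cl q hq)) ?_, ?_, ?_⟩
    · refine le_trans ?_ f3
      exact Nat.le_of_dvd (Finset.prod_pos fun p hp => (cl_prime (f1 p hp)).pos)
        (Finset.prod_dvd_prod_of_subset _ _ _ (Finset.filter_subset _ _))
    · intro e he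
      unfold ky at he
      rw [Finset.mem_image] at he
      obtain ⟨q, hq, rfl⟩ := he
      have hqS := (Finset.mem_filter.1 hq).1
      have hq0 := (cl_prime (f1 q hqS)).pos
      have hqX : q ≤ X := by
        refine le_trans ?_ f3
        exact Nat.le_of_dvd (Finset.prod_pos fun p hp => (cl_prime (f1 p hp)).pos)
          (Finset.dvd_prod_of_mem _ hqS)
      unfold ph
      rw [Finset.mem_product, Finset.mem_range, Finset.mem_range]
      refine ⟨?_, Nat.mod_lt _ (by norm_num)⟩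
      have h3 : ((jj H q : ℕ) : ℝ) < N := by
        refine lt_of_le_of_lt (Nat.floor_le (mul_nonneg (Nat.cast_nonneg _)
          (Real.log_nonneg (by exact_mod_cast hq0)))) ?_
        refine lt_of_le_of_lt ?_ hN
        refine mul_le_mul_of_nonneg_left ?_ (Nat.cast_nonneg _)
        exact Real.log_le_log (by exact_mod_cast hq0) (by exact_mod_cast hqX)
      exact_mod_cast h3
    · have := hk'.card
      omega
  refine (Finset.sum_le_sum_of_subset_of_nonneg hsub fun _ _ _ => by positivity).trans ?_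
  rw [Finset.sum_product]
  simp only [Finset.sum_const, nsmul_eq_mul]
  rw [← Finset.mul_sum]
  have h4 : ((((range N ×ˢ range 120).powerset.filter fun J => J.card ≤ k).card : ℕ) : ℝ) ≤
      (120 * N + 120 : ℝ) ^ k := by
    have h5 := card_sub (range N ×ˢ range 120) k
    rw [Finset.card_product, Finset.card_range, Finset.card_range] at h5
    calc ((((range N ×ˢ range 120).powerset.filter fun J => J.card ≤ k).card : ℕ) : ℝ) ≤
          (((N * 120 + 1) ^ k : ℕ) : ℝ) := by exact_mod_cast h5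
      _ = (N * 120 + 1 : ℝ) ^ k := by push_cast; ring
      _ ≤ _ := by
        apply pow_le_pow_left₀ (by positivity)
        have : (0 : ℝ) ≤ N := Nat.cast_nonneg _
        linarith
  have h5 : ∑ S ∈ TP X, B * (X / ((∏ p ∈ S, p : ℕ) : ℝ)) ≤ B * (X * (1 + Real.log X)) := by
    have h6 : ∀ S ∈ TP X, B * ((X : ℝ) / ((∏ p ∈ S, p : ℕ) : ℝ)) =
        B * X * (1 / ((∏ p ∈ S, p : ℕ) : ℝ)) := by
      intro S _
      ring
    rw [Finset.sum_congr rfl h6, ← Finset.mul_sum]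
    have h7 := mul_le_mul_of_nonneg_left (harm_TP X) (mul_nonneg hB0 (Nat.cast_nonneg X))
    refine h7.trans (le_of_eq ?_)
    ring
  have h6 : 0 ≤ ∑ S ∈ TP X, B * ((X : ℝ) / ((∏ p ∈ S, p : ℕ) : ℝ)) :=
    Finset.sum_nonneg fun _ _ => by positivity
  rw [mul_assoc]
  gcongr

end Pool.Agent.T2h79.XM.Z.KEY
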