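import Pool.Agent.T2h79.XM.Z.Stm
import Pool.Agent.N916.GB.LA

/-!
# Z1 (helper4): the probability that a random completion is good, for a reciprocity law with an
additional term
-/

set_option autoImplicit false
set_option linter.all false

open scoped Classical

namespace Pool.Agent.T2h79.XM.Z

open Finset Filter
open Pool.Agent.N916.GB

section rel

variable {V : Type} [Fintype V]

/-- the alternating form -/
def omz (u A B x y : V → ZMod 2) : ZMod 2 :=
  om u x y + ((∑ q, A q * x q) * (∑ q, B q * y q) + (∑ q, B q * x q) * (∑ q, A q * y q))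

theorem omz_symm (u A B x y : V → ZMod 2) : omz u A B x y = omz u A B y x := by
  unfold omz
  rw [om_symm]
  ring

theorem omz_add (u A B x y z : V → ZMod 2) :
    omz u A B x (y + z) = omz u A B x y + omz u A B x z := by
  unfold omz
  rw [om_add]
  simp only [Pi.add_apply, mul_add, sum_add_distrib]
  ring

theorem relz (w u A B : V → ZMod 2) (M : V → V → ZMod 2)
    (h3 : ∀ i j, i ≠ j → w i * M i j + w j * M j i = u i * u j + A i * B j + A j * B i)
    (x y : V → ZMod 2) :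
    ∑ q, w q * (x q * Ev M y q + y q * Ev M x q) = omz u A B x y := by
  letI : LinearOrder V := LinearOrder.lift' (Fintype.equivFin V) (Fintype.equivFin V).injective
  have h1 : ∑ q, w q * (x q * Ev M y q + y q * Ev M x q) =
      ∑ q, ∑ p, w q * M q p * (x q * y p + y q * x p) := by
    refine sum_congr rfl fun q _ => ?_
    unfold Ev
    rw [mul_sum, mul_sum, ← sum_add_distrib, mul_sum]
    refine sum_congr rfl fun p _ => ?_
    have h := z2_add_self (x q * y q)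
    linear_combination (w q * M q p) * h
  have h2 : (∑ q, u q * x q) * (∑ q, u q * y q) = ∑ q, ∑ p, (u q * x q) * (u p * y p) := by
    rw [sum_mul_sum]
  have h2' : (∑ q, A q * x q) * (∑ q, B q * y q) + (∑ q, B q * x q) * (∑ q, A q * y q) =
      ∑ q, ∑ p, ((A q * x q) * (B p * y p) + (B q * x q) * (A p * y p)) := by
    rw [sum_mul_sum, sum_mul_sum, ← sum_add_distrib]
    exact sum_congr rfl fun q _ => sum_add_distrib.symm
  rw [h1, omz, om, h2, h2', sum_split, sum_split (fun q p => (u q * x q) * (u p * y p)),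
    sum_split (fun q p => (A q * x q) * (B p * y p) + (B q * x q) * (A p * y p))]
  have h4 : ∑ q, w q * M q q * (x q * y q + y q * x q) = 0 := by
    refine sum_eq_zero fun q _ => ?_
    rw [mul_comm (y q), z2_add_self, mul_zero]
  have h4' : ∑ q, ((A q * x q) * (B q * y q) + (B q * x q) * (A q * y q)) = 0 := by
    refine sum_eq_zero fun q _ => ?_
    have h := z2_add_self (A q * B q * x q * y q)
    linear_combination h
  have h5 : ∑ q, (u q * x q) * (u q * y q) = ∑ q, u q * (x q * y q) := by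
    refine sum_congr rfl fun q _ => ?_
    have := z2_sq (u q)
    linear_combination (x q * y q) * this
  have h6 : ∑ e ∈ ps V, (w e.1 * M e.1 e.2 * (x e.1 * y e.2 + y e.1 * x e.2) +
      w e.2 * M e.2 e.1 * (x e.2 * y e.1 + y e.2 * x e.1)) =
      ∑ e ∈ ps V, ((u e.1 * x e.1) * (u e.2 * y e.2) + (u e.2 * x e.2) * (u e.1 * y e.1)) +
      ∑ e ∈ ps V, (((A e.1 * x e.1) * (B e.2 * y e.2) + (B e.1 * x e.1) * (A e.2 * y e.2)) +
        ((A e.2 * x e.2) * (B e.1 * y e.1) + (B e.2 * x e.2) * (A e.1 * y e.1))) := by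
    rw [← sum_add_distrib]
    refine sum_congr rfl fun e he => ?_
    unfold ps at he
    rw [mem_filter] at he
    have h7 := h3 e.1 e.2 he.2.ne
    linear_combination (x e.1 * y e.2 + y e.1 * x e.2) * h7
  rw [h4, h4', h5, h6]
  have h8 := z2_add_self (∑ q, u q * (x q * y q))
  linear_combination -h8

theorem relrowz (w u A B : V → ZMod 2) (M : V → V → ZMod 2)
    (h3 : ∀ i j, i ≠ j → w i * M i j + w j * M j i = u i * u j + A i * B j + A j * B i)
    (hu : ∑ i, u i = 1) (hA : ∑ i, A i = 0) (hB : ∑ i, B i = 0)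
    (x : V → ZMod 2) : ∑ q, w q * Ev M x q = 0 := by
  have h := relz w u A B M h3 x (fun _ => 1)
  have h1 : ∑ q, w q * (x q * Ev M (fun _ => 1) q + 1 * Ev M x q) = ∑ q, w q * Ev M x q := by
    refine sum_congr rfl fun q _ => ?_
    rw [Ev_const, mul_zero, zero_add, one_mul]
  rw [h1] at h
  rw [h]
  unfold omz om
  have h2 : ∑ q, u q * 1 = 1 := (sum_congr rfl fun q _ => mul_one (u q)).trans hu
  have h2A : ∑ q, A q * 1 = 0 := (sum_congr rfl fun q _ => mul_one (A q)).trans hA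
  have h2B : ∑ q, B q * 1 = 0 := (sum_congr rfl fun q _ => mul_one (B q)).trans hB
  rw [h2, h2A, h2B, mul_one]
  have h3 : ∑ q, u q * (x q * 1) = ∑ q, u q * x q := sum_congr rfl fun q _ => by rw [mul_one]
  rw [h3, z2_add_self]
  ring

end rel

section conc

variable {U J : Type} [Fintype U] [Fintype J] [LinearOrder J]
  {w u A B : U ⊕ J → ZMod 2} {N : U ⊕ J → U ⊕ J → ZMod 2}

theorem li_GGz (hw : ∀ k, w (Sum.inr k) = 1)
    (h3 : ∀ i j, i ≠ j → w i * N i j + w j * N j i = u i * u j + A i * B j + A j * B i)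
    (h4 : ∀ v, w (Sum.inl v) = 0 → u (Sum.inl v) = 1 ∧ ∀ v', w (Sum.inl v') = 0 → v = v')
    (h5 : ∀ (c : U → ZMod 2) (s s' s'' : ZMod 2), ((∃ v, c v ≠ 0) ∨ s ≠ 0 ∨ s' ≠ 0 ∨ s'' ≠ 0) →
      ∃ k, ∑ v, c v * N (Sum.inl v) (Sum.inr k) + s * u (Sum.inr k) + s' * A (Sum.inr k) +
        s'' * B (Sum.inr k) ≠ 0)
    {k0 : J} {k : ℕ} {z : Fin k → Zs N k0} (hz : LinearIndependent (ZMod 2) z) {σ : ps J → ZMod 2}
    (hσ : Pc (yy z) (ee z) σ) : z ∈ GG N k0 k := by
  unfold GG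
  rw [mem_filter]
  refine ⟨mem_univ _, fun c hc => ?_⟩
  rw [Fintype.linearIndependent_iff] at hz
  refine hz c ?_
  set a : Zs N k0 := ∑ i, c i • z i with ha
  have hal : ∀ l, (a : U ⊕ J → ZMod 2) (Sum.inr l) = 0 := by
    intro l
    rw [ha, Zs_coe_sum]
    exact hc l
  have haK : (a : U ⊕ J → ZMod 2) ∈ Kr (pt N (sx σ)) k0 := by
    have h1 := (Kr_iff z σ).2 hσ
    rw [ha, AddSubmonoidClass.coe_finsetSum]
    refine Submodule.sum_mem _ fun i _ => ?_
    rw [Submodule.coe_smul]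
    exact Submodule.smul_mem _ _ (h1 i)
  have h6 : ∀ l, ∑ v, (a : U ⊕ J → ZMod 2) (Sum.inl v) * N (Sum.inr l) (Sum.inl v) = 0 := by
    intro l
    have h7 := (mem_Kr.1 haK).2 (Sum.inr l)
    rw [Ev_inr] at h7
    have h8 : ∑ m, ((a : U ⊕ J → ZMod 2) (Sum.inr m) + (a : U ⊕ J → ZMod 2) (Sum.inr l)) *
        sx σ l m = 0 := by
      refine sum_eq_zero fun m _ => ?_
      rw [hal, hal, add_zero, zero_mul]
    rw [h8, add_zero] at h7
    unfold Ev at h7
    rw [Fintype.sum_sum_type] at h7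
    have h9 : ∑ m, ((a : U ⊕ J → ZMod 2) (Sum.inr m) + (a : U ⊕ J → ZMod 2) (Sum.inr l)) *
        N (Sum.inr l) (Sum.inr m) = 0 := by
      refine sum_eq_zero fun m _ => ?_
      rw [hal, hal, add_zero, zero_mul]
    rw [h9, add_zero] at h7
    rw [← h7]
    refine sum_congr rfl fun v _ => ?_
    rw [hal, add_zero]
  have h7 : ∀ l, ∑ v, ((a : U ⊕ J → ZMod 2) (Sum.inl v) * w (Sum.inl v)) *
      N (Sum.inl v) (Sum.inr l) +
      (∑ v, (a : U ⊕ J → ZMod 2) (Sum.inl v) * u (Sum.inl v)) * u (Sum.inr l) +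
      (∑ v, (a : U ⊕ J → ZMod 2) (Sum.inl v) * B (Sum.inl v)) * A (Sum.inr l) +
      (∑ v, (a : U ⊕ J → ZMod 2) (Sum.inl v) * A (Sum.inl v)) * B (Sum.inr l) = 0 := by
    intro l
    rw [← h6 l, sum_mul, sum_mul, sum_mul, ← sum_add_distrib, ← sum_add_distrib,
      ← sum_add_distrib]
    refine sum_congr rfl fun v _ => ?_
    have h8 := h3 (Sum.inr l) (Sum.inl v) (by simp)
    rw [hw, one_mul] at h8
    have h9 := z2_add_self ((a : U ⊕ J → ZMod 2) (Sum.inl v) * (w (Sum.inl v) *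
      N (Sum.inl v) (Sum.inr l)))
    linear_combination -((a : U ⊕ J → ZMod 2) (Sum.inl v)) * h8 + h9
  have h8 : (∀ v, (a : U ⊕ J → ZMod 2) (Sum.inl v) * w (Sum.inl v) = 0) ∧
      ∑ v, (a : U ⊕ J → ZMod 2) (Sum.inl v) * u (Sum.inl v) = 0 := by
    by_contra hcon
    have h9 : (∃ v, (a : U ⊕ J → ZMod 2) (Sum.inl v) * w (Sum.inl v) ≠ 0) ∨
        ∑ v, (a : U ⊕ J → ZMod 2) (Sum.inl v) * u (Sum.inl v) ≠ 0 := by
      by_contra h10
      push Not at h10
      exact hcon h10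
    have h9' : (∃ v, (a : U ⊕ J → ZMod 2) (Sum.inl v) * w (Sum.inl v) ≠ 0) ∨
        ∑ v, (a : U ⊕ J → ZMod 2) (Sum.inl v) * u (Sum.inl v) ≠ 0 ∨
        ∑ v, (a : U ⊕ J → ZMod 2) (Sum.inl v) * B (Sum.inl v) ≠ 0 ∨
        ∑ v, (a : U ⊕ J → ZMod 2) (Sum.inl v) * A (Sum.inl v) ≠ 0 := by
      rcases h9 with h9 | h9
      · exact Or.inl h9
      · exact Or.inr (Or.inl h9)
    obtain ⟨l, hl⟩ := h5 (fun v => (a : U ⊕ J → ZMod 2) (Sum.inl v) * w (Sum.inl v)) _ _ _ h9'
    exact hl (h7 l)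
  have h9 : ∀ v, (a : U ⊕ J → ZMod 2) (Sum.inl v) = 0 := by
    intro v
    rcases z2 (w (Sum.inl v)) with h | h
    · obtain ⟨h10, h11⟩ := h4 v h
      have h12 := h8.2
      rw [sum_eq_single v] at h12
      · rw [h10, mul_one] at h12
        exact h12
      · intro v' _ hv'
        rcases z2 (w (Sum.inl v')) with h' | h'
        · exact absurd (h11 v' h').symm hv'
        · have := h8.1 v'
          rw [h', mul_one] at this
          rw [this, zero_mul]
      · intro h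
        exact absurd (mem_univ v) h
    · have := h8.1 v
      rw [h, mul_one] at this
      exact this
  refine Subtype.ext (funext fun q => ?_)
  rcases q with v | l
  · exact h9 v
  · exact hal l

theorem sum_eez (hw : ∀ k, w (Sum.inr k) = 1) (hu : ∑ i, u i = 1) (hA : ∑ i, A i = 0)
    (hB : ∑ i, B i = 0)
    (h3 : ∀ i j, i ≠ j → w i * N i j + w j * N j i = u i * u j + A i * B j + A j * B i)
    {k0 : J} {k : ℕ}
    (z : Fin k → Zs N k0) (i : Fin k) : ∑ l, ee z i l = 0 := by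
  have h := relrowz w u A B N h3 hu hA hB (z i : U ⊕ J → ZMod 2)
  rw [Fintype.sum_sum_type] at h
  rw [sum_eq_zero fun v _ => by rw [(mem_Zs.1 (z i).2).2 v, mul_zero], zero_add] at h
  rw [← h]
  refine sum_congr rfl fun l _ => ?_
  rw [hw, one_mul]
  rfl

theorem form_eez (hw : ∀ k, w (Sum.inr k) = 1)
    (h3 : ∀ i j, i ≠ j → w i * N i j + w j * N j i = u i * u j + A i * B j + A j * B i)
    {k0 : J} {k : ℕ}
    (z : Fin k → Zs N k0) (i j : Fin k) : ∑ l, (yy z i l * ee z j l + yy z j l * ee z i l) =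
      omz u A B (z i : U ⊕ J → ZMod 2) (z j : U ⊕ J → ZMod 2) := by
  have h := relz w u A B N h3 (z i : U ⊕ J → ZMod 2) (z j : U ⊕ J → ZMod 2)
  rw [Fintype.sum_sum_type] at h
  rw [sum_eq_zero fun v _ => by
    rw [(mem_Zs.1 (z i).2).2 v, (mem_Zs.1 (z j).2).2 v, mul_zero, mul_zero, add_zero, mul_zero],
    zero_add] at h
  rw [← h]
  refine sum_congr rfl fun l _ => ?_
  rw [hw, one_mul]
  rfl

/-- the form on the space -/
def BBz (u A B : U ⊕ J → ZMod 2) (N : U ⊕ J → U ⊕ J → ZMod 2) (k0 : J) (a b : Zs N k0) : ZMod 2 :=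
  omz u A B (a : U ⊕ J → ZMod 2) (b : U ⊕ J → ZMod 2)

theorem card_radz (u A B : U ⊕ J → ZMod 2) (N : U ⊕ J → U ⊕ J → ZMod 2) (k0 : J) :
    ((rad (BBz u A B N k0)).card : ℝ) ≤ (Ann N k0).card * (8 * (2 ^ Fintype.card U *
      2 ^ (Fintype.card J - (univ.filter fun k : J => u (Sum.inr k) = 1).card))) := by
  set ff : Zs N k0 → (U ⊕ J → ZMod 2) × ((ZMod 2 × ZMod 2 × ZMod 2) × ((U → ZMod 2) ×
      ({l : J // l ∈ (univ.filter fun k : J => u (Sum.inr k) = 1)ᶜ} → ZMod 2))) := fun a =>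
    (fun q => u q * ((a : U ⊕ J → ZMod 2) q + ∑ p, u p * (a : U ⊕ J → ZMod 2) p) +
        (A q * ∑ p, B p * (a : U ⊕ J → ZMod 2) p + B q * ∑ p, A p * (a : U ⊕ J → ZMod 2) p),
      ((∑ p, u p * (a : U ⊕ J → ZMod 2) p, ∑ p, B p * (a : U ⊕ J → ZMod 2) p,
        ∑ p, A p * (a : U ⊕ J → ZMod 2) p), (fun v => (a : U ⊕ J → ZMod 2) (Sum.inl v),
        fun l => (a : U ⊕ J → ZMod 2) (Sum.inr l.1)))) with hff
  have h1 : (rad (BBz u A B N k0)).card ≤ ((Ann N k0) ×ˢ (univ : Finset ((ZMod 2 × ZMod 2 × ZMod 2) ×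
      ((U → ZMod 2) ×
      ({l : J // l ∈ (univ.filter fun k : J => u (Sum.inr k) = 1)ᶜ} → ZMod 2))))).card := by
    refine card_le_card_of_injOn ff (fun a ha => ?_) ?_
    · rw [mem_coe, mem_product]
      refine ⟨?_, mem_univ _⟩
      unfold Ann
      rw [mem_filter]
      refine ⟨mem_univ _, fun b => ?_⟩
      have h2 : a ∈ rad (BBz u A B N k0) := ha
      unfold rad at h2
      rw [mem_filter] at h2
      have h3 := h2.2 b
      unfold BBz omz om at h3
      rw [← h3, hff]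
      simp only
      have e0 : ∀ (F : U ⊕ J → ZMod 2) (s : ZMod 2), (∑ q, F q * (b : U ⊕ J → ZMod 2) q) * s =
          ∑ q, (F q * s) * (b : U ⊕ J → ZMod 2) q := by
        intro F s
        rw [sum_mul]
        exact sum_congr rfl fun q _ => by ring
      rw [e0 A, e0 B, e0 u, ← sum_add_distrib, ← sum_add_distrib, ← sum_add_distrib]
      refine sum_congr rfl fun q _ => ?_
      ring
    · intro a _ b _ hab
      rw [hff] at hab
      simp only [Prod.mk.injEq] at hab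
      obtain ⟨h2, ⟨h3, h3', h3''⟩, h4, h5⟩ := hab
      refine Subtype.ext (funext fun q => ?_)
      rcases q with v | l
      · exact congrFun h4 v
      · by_cases hl : u (Sum.inr l) = 1
        · have h6 := congrFun h2 (Sum.inr l)
          simp only [hl, one_mul] at h6
          rw [h3, h3', h3''] at h6
          exact add_right_cancel (add_right_cancel h6)
        · have hm : l ∈ (univ.filter fun k : J => u (Sum.inr k) = 1)ᶜ := by
            rw [mem_compl, mem_filter]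
            exact fun h => hl h.2
          exact congrFun h5 ⟨l, hm⟩
  have h2 : ((rad (BBz u A B N k0)).card : ℝ) ≤ _ := Nat.cast_le.2 h1
  refine h2.trans (le_of_eq ?_)
  rw [card_product, Nat.cast_mul]
  congr 1
  rw [card_univ, Fintype.card_prod, Fintype.card_prod, Fintype.card_prod, Fintype.card_prod,
    Fintype.card_fun, Fintype.card_fun, ZMod.card, Fintype.card_coe, card_compl]
  push_cast
  ring

theorem T_valz (hw : ∀ k, w (Sum.inr k) = 1) (hu : ∑ i, u i = 1) (hA : ∑ i, A i = 0)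
    (hB : ∑ i, B i = 0)
    (h3 : ∀ i j, i ≠ j → w i * N i j + w j * N j i = u i * u j + A i * B j + A j * B i)
    (h4 : ∀ v, w (Sum.inl v) = 0 → u (Sum.inl v) = 1 ∧ ∀ v', w (Sum.inl v') = 0 → v = v')
    (h5 : ∀ (c : U → ZMod 2) (s s' s'' : ZMod 2), ((∃ v, c v ≠ 0) ∨ s ≠ 0 ∨ s' ≠ 0 ∨ s'' ≠ 0) →
      ∃ k, ∑ v, c v * N (Sum.inl v) (Sum.inr k) + s * u (Sum.inr k) + s' * A (Sum.inr k) +
        s'' * B (Sum.inr k) ≠ 0) (k0 : J) (k : ℕ) :
    (∑ σ : ps J → ZMod 2, In k (Module.finrank (ZMod 2) (Kr (pt N (sx σ)) k0))) *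
        2 ^ (k * Fintype.card J) =
      2 ^ (ps J).card * (2 ^ k * ∑ τ : ps (Fin k) → ZMod 2, ∑ z ∈ GG N k0 k,
        ch (Qf (BBz u A B N k0) τ z)) := by
  have h6 : ∑ σ : ps J → ZMod 2, In k (Module.finrank (ZMod 2) (Kr (pt N (sx σ)) k0)) =
      ∑ z ∈ GG N k0 k, ((univ.filter fun σ : ps J → ZMod 2 => Pc (yy z) (ee z) σ).card : ℝ) := by
    rw [sum_congr rfl fun σ _ => card_Kr N k0 k σ]
    simp only [card_filter, Nat.cast_sum]
    rw [sum_comm]
    unfold GG
    rw [sum_filter]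
    refine sum_congr rfl fun z _ => ?_
    by_cases hz : z ∈ GG N k0 k
    · have hz' := hz
      unfold GG at hz'
      rw [mem_filter] at hz'
      rw [if_pos hz'.2]
      refine sum_congr rfl fun σ _ => ?_
      have := GG_li hz
      by_cases hσ : Pc (yy z) (ee z) σ
      · rw [if_pos ⟨this, hσ⟩, if_pos hσ]
      · rw [if_neg fun h => hσ h.2, if_neg hσ]
    · have hz' := hz
      unfold GG at hz'
      rw [mem_filter] at hz'
      rw [if_neg fun h => hz' ⟨mem_univ _, h⟩]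
      refine sum_eq_zero fun σ _ => ?_
      rw [if_neg, Nat.cast_zero]
      rintro ⟨h1, h2⟩
      exact hz (li_GGz hw h3 h4 h5 h1 h2)
  rw [h6, sum_mul]
  have h7 : ∀ z ∈ GG N k0 k, ((univ.filter fun σ : ps J → ZMod 2 => Pc (yy z) (ee z) σ).card : ℝ) *
      2 ^ (k * Fintype.card J) = 2 ^ (ps J).card * (2 ^ k * ∑ τ : ps (Fin k) → ZMod 2,
        ch (Qf (BBz u A B N k0) τ z)) := by
    intro z hz
    unfold GG at hz
    rw [mem_filter] at hz
    rw [count_val (yy z) (ee z) hz.2 k0 (fun i => (mem_Zs.1 (z i).2).1)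
      (sum_eez hw hu hA hB h3 z)]
    congr 2
    refine sum_congr rfl fun τ _ => congrArg ch ?_
    unfold Qf
    refine sum_congr rfl fun f _ => ?_
    rw [form_eez hw h3]
    rfl
  rw [sum_congr rfl h7, ← mul_sum, ← mul_sum, sum_comm]

theorem BBz_add (u A B : U ⊕ J → ZMod 2) (N : U ⊕ J → U ⊕ J → ZMod 2) (k0 : J) (a b c : Zs N k0) :
    BBz u A B N k0 a (b + c) = BBz u A B N k0 a b + BBz u A B N k0 a c := by
  unfold BBz
  rw [Submodule.coe_add, omz_add]

theorem T_boundz (hw : ∀ k, w (Sum.inr k) = 1) (hu : ∑ i, u i = 1) (hA : ∑ i, A i = 0)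
    (hB : ∑ i, B i = 0)
    (h3 : ∀ i j, i ≠ j → w i * N i j + w j * N j i = u i * u j + A i * B j + A j * B i)
    (h4 : ∀ v, w (Sum.inl v) = 0 → u (Sum.inl v) = 1 ∧ ∀ v', w (Sum.inl v') = 0 → v = v')
    (h5 : ∀ (c : U → ZMod 2) (s s' s'' : ZMod 2), ((∃ v, c v ≠ 0) ∨ s ≠ 0 ∨ s' ≠ 0 ∨ s'' ≠ 0) →
      ∃ k, ∑ v, c v * N (Sum.inl v) (Sum.inr k) + s * u (Sum.inr k) + s' * A (Sum.inr k) +
        s'' * B (Sum.inr k) ≠ 0) (k0 : J) (k V : ℕ)
    (hV : 2 * Fintype.card U + V ≤ (univ.filter fun k : J => u (Sum.inr k) = 1).card) :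
    |(∑ σ : ps J → ZMod 2, In k (Module.finrank (ZMod 2) (Kr (pt N (sx σ)) k0))) /
        2 ^ (ps J).card - 1| * 2 ^ V ≤ 2 ^ (k ^ 2 + k + 6) := by
  set T : ℝ := (∑ σ : ps J → ZMod 2, In k (Module.finrank (ZMod 2) (Kr (pt N (sx σ)) k0))) /
        2 ^ (ps J).card with hT
  set S : ℝ := ∑ τ : ps (Fin k) → ZMod 2, ∑ z ∈ GG N k0 k, ch (Qf (BBz u A B N k0) τ z) with hS
  set Z : ℝ := (Fintype.card (Zs N k0) : ℝ) with hZ
  have h5' : ∀ (b : U → ZMod 2) (s : ZMod 2), ((∃ v, b v ≠ 0) ∨ s ≠ 0) →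
      ∃ k, ∑ v, b v * N (Sum.inl v) (Sum.inr k) + s * u (Sum.inr k) ≠ 0 := by
    intro b s hbs
    obtain ⟨k, hk⟩ := h5 b s 0 0 (by
      rcases hbs with h | h
      · exact Or.inl h
      · exact Or.inr (Or.inl h))
    refine ⟨k, ?_⟩
    rw [zero_mul, zero_mul, add_zero, add_zero] at hk
    exact hk
  have hZ2 : Z * 2 = 2 ^ Fintype.card J := card_Zs h5' k0
  have hZ0 : 0 < Z := by
    have : (0 : ℝ) < 2 ^ Fintype.card J := by positivity
    linarith
  have h6 := T_valz hw hu hA hB h3 h4 h5 k0 k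
  have hp : (0 : ℝ) < 2 ^ (ps J).card := by positivity
  have h7 : T * 2 ^ (k * Fintype.card J) = 2 ^ k * S := by
    rw [hT, div_mul_eq_mul_div, h6, mul_div_cancel_left₀ _ hp.ne']
  have h8 : (2 : ℝ) ^ (k * Fintype.card J) = Z ^ k * 2 ^ k := by
    rw [← mul_pow, hZ2, ← pow_mul, mul_comm]
  have hk2 : (0 : ℝ) < 2 ^ k := by positivity
  have h9 : T * Z ^ k = S := by
    rw [h8] at h7
    have : 2 ^ k * (T * Z ^ k) = 2 ^ k * S := by rw [← h7]; ring
    exact mul_left_cancel₀ hk2.ne' this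
  have hZk : 0 < Z ^ k := by positivity
  have h10 := mom (B := BBz u A B N k0) (BBz_add u A B N k0) (fun a b => omz_symm u A B _ _) k
    (SU N k0) (GG N k0 k)
    (fun z hz => by
      unfold GG at hz
      rw [mem_filter] at hz
      have hz' : ¬ ∀ c : Fin k → ZMod 2, (∀ l, ∑ i, c i * yy z i l = 0) → ∀ i, c i = 0 :=
        fun h => hz ⟨mem_univ _, h⟩
      push Not at hz'
      obtain ⟨c, hc1, hc2⟩ := hz'
      refine ⟨c, hc2, ?_⟩
      unfold SU
      rw [mem_filter]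
      refine ⟨mem_univ _, fun l => ?_⟩
      rw [Zs_coe_sum]
      exact hc1 l)
  rw [← hS, ← hZ] at h10
  have h11 : |T - 1| * Z ≤ 2 ^ k ^ 2 * ((rad (BBz u A B N k0)).card + 2 ^ k * (SU N k0).card) := by
    have h12 : |S - Z ^ k| = |T - 1| * Z ^ k := by
      rw [← h9, ← sub_one_mul, abs_mul, abs_of_pos hZk]
    rw [h12] at h10
    refine le_of_mul_le_mul_left ?_ hZk
    calc Z ^ k * (|T - 1| * Z) = |T - 1| * Z ^ k * Z := by ring
      _ ≤ _ := h10
      _ = _ := by ring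
  -- the radical
  have h13 := card_radz u A B N k0
  have h14 := card_Ann N k0
  rw [← hZ] at h14
  set r : ℝ := ((rad (BBz u A B N k0)).card : ℝ) with hr
  set An : ℝ := ((Ann N k0).card : ℝ) with hAn
  set o : ℕ := (univ.filter fun k : J => u (Sum.inr k) = 1).card with ho
  have hoJ : o ≤ Fintype.card J := by
    rw [ho]
    exact (card_filter_le _ _).trans (le_of_eq card_univ)
  have h15 : r * 2 ^ V ≤ 32 * Z := by
    refine le_of_mul_le_mul_left ?_ hZ0
    calc Z * (r * 2 ^ V) = (r * Z) * 2 ^ V := by ring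
      _ ≤ (An * (8 * (2 ^ Fintype.card U * 2 ^ (Fintype.card J - o))) * Z) * 2 ^ V := by gcongr
      _ = (An * Z) * (8 * (2 ^ Fintype.card U * 2 ^ (Fintype.card J - o))) * 2 ^ V := by ring
      _ = 2 ^ (Fintype.card U + Fintype.card J + 3 + Fintype.card U + (Fintype.card J - o) + V) := by
        rw [h14]
        ring
      _ ≤ (2 : ℝ) ^ (Fintype.card J + Fintype.card J + 3) :=
        pow_le_pow_right₀ (by norm_num) (by omega)
      _ = 2 ^ Fintype.card J * 2 ^ Fintype.card J * 8 := by ring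
      _ = (Z * 2) * (Z * 2) * 8 := by rw [hZ2]
      _ = Z * (32 * Z) := by ring
  have h16 : ((SU N k0).card : ℝ) * 2 ^ V ≤ 2 * Z := by
    calc ((SU N k0).card : ℝ) * 2 ^ V ≤ 2 ^ Fintype.card U * 2 ^ V := by
          have := card_SU N k0
          gcongr
      _ = 2 ^ (Fintype.card U + V) := by ring
      _ ≤ 2 ^ Fintype.card J := pow_le_pow_right₀ (by norm_num) (by omega)
      _ = 2 * Z := by rw [← hZ2]; ring
  have hk1 : (1 : ℝ) ≤ 2 ^ k := one_le_pow₀ (by norm_num)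
  have h17 : (|T - 1| * 2 ^ V) * Z ≤ 2 ^ (k ^ 2 + k + 6) * Z := by
    calc (|T - 1| * 2 ^ V) * Z = (|T - 1| * Z) * 2 ^ V := by ring
      _ ≤ (2 ^ k ^ 2 * (r + 2 ^ k * (SU N k0).card)) * 2 ^ V := by gcongr
      _ = 2 ^ k ^ 2 * (r * 2 ^ V + 2 ^ k * ((SU N k0).card * 2 ^ V)) := by ring
      _ ≤ 2 ^ k ^ 2 * (32 * Z + 2 ^ k * (2 * Z)) := by gcongr
      _ ≤ 2 ^ k ^ 2 * (32 * Z * 2 ^ k + 2 ^ k * (32 * Z)) := by
          have : 32 * Z ≤ 32 * Z * 2 ^ k := le_mul_of_one_le_right (by linarith) hk1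
          have h18 : 2 * Z ≤ 32 * Z := by linarith
          gcongr
      _ = 2 ^ (k ^ 2 + k + 6) * Z := by ring
  exact le_of_mul_le_mul_right h17 hZ0

end conc

theorem t_LAz : S_LAz := by
  intro ε hε
  -- the truncation
  have hlim := eta_sum
  rw [Metric.tendsto_atTop] at hlim
  obtain ⟨K0, hK0⟩ := hlim (ε / 2) (by linarith)
  set K : ℕ := 2 * K0 with hK
  set M : ℝ := ∑ k ∈ range (K + 2), (2 : ℝ) ^ (k ^ 2 + k + 6) with hM
  have hM0 : 0 ≤ M := sum_nonneg fun k _ => by positivity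
  obtain ⟨V1, hV1⟩ := pow_unbounded_of_one_lt (M / (ε / 2)) (by norm_num : (1 : ℝ) < 2)
  refine ⟨V1 + 1, ?_⟩
  intro U J _ _ _ w u A B N hw hu hA hB h3 h4 h5 hV
  have hne : (univ.filter fun k : J => u (Sum.inr k) = 1).Nonempty := by
    rw [← card_pos]
    omega
  obtain ⟨k0, -⟩ := hne
  set P : ℝ := ((univ.filter fun σ : ps J → ZMod 2 => Gv (pt N (sx σ))).card : ℝ) /
    2 ^ (ps J).card with hP
  have hp : (0 : ℝ) < 2 ^ (ps J).card := by positivity
  set T : ℕ → ℝ := fun k => (∑ σ : ps J → ZMod 2,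
    In k (Module.finrank (ZMod 2) (Kr (pt N (sx σ)) k0))) / 2 ^ (ps J).card with hT
  have hTb : ∀ k, |T k - 1| ≤ 2 ^ (k ^ 2 + k + 6) / 2 ^ V1 := by
    intro k
    rw [le_div_iff₀ (by positivity)]
    exact T_boundz hw hu hA hB h3 h4 h5 k0 k V1 (by omega)
  have hPs : ((univ.filter fun σ : ps J → ZMod 2 => Gv (pt N (sx σ))).card : ℝ) =
      ∑ σ : ps J → ZMod 2,
        if Module.finrank (ZMod 2) (Kr (pt N (sx σ)) k0) = 0 then (1 : ℝ) else 0 := by
    rw [card_filter, Nat.cast_sum]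
    refine sum_congr rfl fun σ _ => ?_
    by_cases h : Gv (pt N (sx σ))
    · rw [if_pos h, if_pos ((Gv_iff _ k0).1 h), Nat.cast_one]
    · rw [if_neg h, if_neg fun h' => h ((Gv_iff _ k0).2 h'), Nat.cast_zero]
  have hsw : ∀ n : ℕ, ∑ k ∈ range n, (-1) ^ k * T k / mm k =
      (∑ σ : ps J → ZMod 2, ∑ k ∈ range n,
        (-1) ^ k * In k (Module.finrank (ZMod 2) (Kr (pt N (sx σ)) k0)) / mm k) /
        2 ^ (ps J).card := by
    intro n
    rw [sum_comm, sum_div]
    refine sum_congr rfl fun k _ => ?_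
    rw [hT]
    simp only
    rw [← sum_div, ← mul_sum]
    ring
  have hup : P ≤ ∑ k ∈ range (K + 1), (-1) ^ k * T k / mm k := by
    rw [hsw, hP, hPs]
    refine div_le_div_of_nonneg_right (sum_le_sum fun σ _ => ?_) hp.le
    exact bon_even ⟨K0, by omega⟩ _
  have hlo : ∑ k ∈ range (K + 2), (-1) ^ k * T k / mm k ≤ P := by
    rw [hsw, hP, hPs]
    refine div_le_div_of_nonneg_right (sum_le_sum fun σ _ => ?_) hp.le
    exact bon_odd (K := K + 1) ⟨K0, by omega⟩ _
  have herr : ∀ n : ℕ, n ≤ K + 2 → |∑ k ∈ range n, (-1) ^ k * T k / mm k -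
      ∑ k ∈ range n, (-1 : ℝ) ^ k / mm k| ≤ ε / 2 := by
    intro n hn
    rw [← sum_sub_distrib]
    refine (abs_sum_le_sum_abs _ _).trans ?_
    have h1 : ∀ k ∈ range n, |(-1) ^ k * T k / mm k - (-1 : ℝ) ^ k / mm k| ≤
        2 ^ (k ^ 2 + k + 6) / 2 ^ V1 := by
      intro k _
      have h2 : (-1) ^ k * T k / mm k - (-1 : ℝ) ^ k / mm k = (-1) ^ k * ((T k - 1) / mm k) := by
        ring
      rw [h2, abs_mul, abs_pow, abs_neg, abs_one, one_pow, one_mul, abs_div, abs_of_pos (mm_pos k)]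
      refine (div_le_self (abs_nonneg _) (mm_one_le k)).trans (hTb k)
    refine (sum_le_sum h1).trans ?_
    rw [← sum_div]
    have h2 : ∑ k ∈ range n, (2 : ℝ) ^ (k ^ 2 + k + 6) ≤ M := by
      rw [hM]
      refine sum_le_sum_of_subset_of_nonneg (fun k hk => ?_) fun k _ _ => by positivity
      rw [mem_range] at hk ⊢
      omega
    rw [div_le_iff₀ (by positivity)]
    refine h2.trans ?_
    rw [div_lt_iff₀ (by linarith)] at hV1
    linarith
  have h6 := hK0 (K + 1) (by omega)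
  have h7 := hK0 (K + 2) (by omega)
  rw [Real.dist_eq] at h6 h7
  have h8 := herr (K + 1) (by omega)
  have h9 := herr (K + 2) le_rfl
  rw [abs_le] at h8 h9 ⊢
  rw [abs_lt] at h6 h7
  constructor
  · linarith [h9.1, h7.1]
  · linarith [h8.2, h6.2]

end Pool.Agent.T2h79.XM.Z
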