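import Pool.Agent.T2h79.XM.Z.R1

/-!
# The second pair of isogenies: the second Selmer group
-/

set_option autoImplicit false
set_option linter.unusedVariables false
set_option linter.unusedSectionVars false

namespace Pool.Agent.T2h79.XM.Z

open Finset
open Pool.Agent.T2h79.XM
open Pool.Agent.Y703.CQ (nr)
open Pool.Agent.N973.ND (uu)
open Pool.Agent.N916.GB (Po sy Vt Gd Gv z2 z2_add_self z2_sq nr_recip z2_eq_of_add)
open Pool.Agent.N848.Q hiding star

open Pool.Agent.N848.Q renaming star → st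

open scoped Classical

section

variable {n : ℕ} {t : Bool} {r s : ZMod 2}

/-- the value of `e` -/
lemma e_fac (hn : Squarefree n) (h4 : n % 4 = if s = 0 then 3 else 1) {e : ℤ} (he : Squarefree e)
    (he0 : 0 < e) (hdvd : e ∣ 2 * (n : ℤ)) :
    e = (if (2 : ℤ) ∣ e then 2 else 1) *
      ∏ p ∈ n.primeFactors.filter (fun p : ℕ => ((p : ℕ) : ℤ) ∣ e), (p : ℤ) := by
  set S := n.primeFactors with hSdef
  have hS : ∀ p ∈ S, Po p := po_of (odd_of h4)
  set T : Finset ℕ := S.filter (fun p : ℕ => ((p : ℕ) : ℤ) ∣ e) with hT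
  have hTS : T ⊆ S := filter_subset _ _
  have h2T : (2 : ℕ) ∉ T := fun h => (hS 2 (hTS h)).2 rfl
  have h1 : (e.natAbs : ℤ) = e := Int.natAbs_of_nonneg he0.le
  have hsq : Squarefree e.natAbs := Int.squarefree_natAbs.2 he
  have hT2 : e.natAbs.primeFactors = (if (2 : ℤ) ∣ e then insert 2 T else T) := by
    ext p
    rw [Nat.mem_primeFactors]
    have hpe : ∀ {p : ℕ}, p ∣ e.natAbs ↔ (p : ℤ) ∣ e := fun {p} => Int.natCast_dvd.symm
    have h3 : ∀ p : ℕ, p.Prime → p ≠ 2 → (p : ℤ) ∣ e → p ∈ T := by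
      intro p hp hp2 h
      rw [hT, mem_filter, hSdef, Nat.mem_primeFactors]
      refine ⟨⟨hp, ?_, hn.ne_zero⟩, h⟩
      have h4 : (p : ℤ) ∣ 2 * (n : ℤ) := h.trans hdvd
      have h5 : p ∣ 2 * n := by exact_mod_cast h4
      rcases hp.dvd_mul.1 h5 with h6 | h6
      · exact absurd ((Nat.prime_dvd_prime_iff_eq hp Nat.prime_two).1 h6) hp2
      · exact h6
    have h3' : ∀ p ∈ T, p.Prime ∧ (p : ℤ) ∣ e := fun p hp =>
      ⟨(hS p (hTS hp)).1, (mem_filter.1 hp).2⟩
    have hne0 : e.natAbs ≠ 0 := hsq.ne_zero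
    by_cases h2 : (2 : ℤ) ∣ e
    · rw [if_pos h2, mem_insert]
      constructor
      · rintro ⟨h5, h6, -⟩
        by_cases hp2 : p = 2
        · exact Or.inl hp2
        · exact Or.inr (h3 p h5 hp2 (hpe.1 h6))
      · rintro (rfl | h5)
        · exact ⟨Nat.prime_two, hpe.2 h2, hne0⟩
        · exact ⟨(h3' p h5).1, hpe.2 (h3' p h5).2, hne0⟩
    · rw [if_neg h2]
      constructor
      · rintro ⟨h5, h6, -⟩
        by_cases hp2 : p = 2
        · subst hp2
          exact absurd (hpe.1 h6) h2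
        · exact h3 p h5 hp2 (hpe.1 h6)
      · intro h5
        exact ⟨(h3' p h5).1, hpe.2 (h3' p h5).2, hne0⟩
  have h5 : (e.natAbs : ℤ) = ∏ p ∈ e.natAbs.primeFactors, (p : ℤ) := by
    rw [← Nat.cast_prod, Nat.prod_primeFactors_of_squarefree hsq]
  rw [hT2, h1] at h5
  by_cases h2 : (2 : ℤ) ∣ e
  · rw [if_pos h2, prod_insert h2T] at h5
    rw [if_pos h2]
    exact_mod_cast h5
  · rw [if_neg h2] at h5
    rw [if_neg h2, one_mul]
    exact h5

/-- the second descent map -/
theorem r2z (hz : Hz n t r s) (hG : Gz t r s n.primeFactors) (hne : n ≠ 1 ∨ (t = true ∧ r = 1))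
    {e : ℤ} (he : Squarefree e) (he0 : 0 < e)
    (hdvd : e ∣ 10 * (((if r = 1 then 2 * n else n : ℕ)) : ℤ)) (he2 : t = false → e % 2 = 1)
    (he3 : e % 3 = 1)
    (hloc : ∀ p ∈ n.primeFactors, ∀ m' : ℤ, (((if r = 1 then 2 * n else n : ℕ)) : ℤ) = p * m' →
      (¬ (p : ℤ) ∣ e → Sq p e) ∧ ∀ e', e = p * e' → Sq p (m' * e')) :
    e = 1 ∨ e = ((if r = 1 then 2 * n else n : ℕ) : ℤ) := by
  obtain ⟨hn, hm4, hok, hAl, hBe, n3, n5⟩ := hz
  set S := n.primeFactors with hSdef
  have hS : ∀ p ∈ S, Po p := po_of (odd_of hm4)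
  have hS5 : ∀ p ∈ S, p ≠ 5 := by
    rintro p hp rfl
    have := Nat.dvd_of_mem_primeFactors hp
    omega
  have hS3 : ∀ p ∈ S, p % 3 ≠ 0 := by
    intro p hp h
    have h1 := Nat.dvd_of_mem_primeFactors hp
    have : 3 ∣ n := (Nat.dvd_of_mod_eq_zero h).trans h1
    omega
  have hU : ∑ p ∈ S, uu p = 1 + s := uu_of hn hm4
  set M : ℕ := if r = 1 then 2 * n else n with hM
  have hB0 : ∑ q ∈ Vt t S, be r q = 0 := sum_be hS hok hBe
  -- the part prime to five
  obtain ⟨x5, c, e0, hx5, hce⟩ : ∃ (x5 : ZMod 2) (c e0 : ℤ),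
      (x5 = 0 ∧ c = 1 ∨ x5 = 1 ∧ c = 5) ∧ e = c * e0 ∧ ¬ (5 : ℤ) ∣ e0 := by
    by_cases h5 : (5 : ℤ) ∣ e
    · obtain ⟨f, rfl⟩ := h5
      refine ⟨1, 5, f, Or.inr ⟨rfl, rfl⟩, rfl, ?_⟩
      rintro ⟨g, hg⟩
      have h9 := he 5 ⟨g, by rw [hg]; ring⟩
      rw [Int.isUnit_iff] at h9
      omega
    · exact ⟨0, 1, e, Or.inl ⟨rfl, rfl⟩, by ring, h5⟩
  obtain ⟨hce, h5e0⟩ := hce
  have hcpos : 0 < c := by rcases hx5 with ⟨_, h⟩ | ⟨_, h⟩ <;> rw [h] <;> norm_num
  have he00 : 0 < e0 := by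
    rw [hce] at he0
    exact (pos_iff_pos_of_mul_pos he0).1 hcpos
  have hse0 : Squarefree e0 := he.squarefree_of_dvd ⟨c, by rw [hce]; ring⟩
  have hpe : ∀ p : ℕ, p.Prime → p ≠ 5 → ((p : ℤ) ∣ e ↔ (p : ℤ) ∣ e0) := by
    intro p hp hp5
    have hpp : Prime (p : ℤ) := Nat.prime_iff_prime_int.1 hp
    have hpc : ¬ (p : ℤ) ∣ c := by
      intro h
      rcases hx5 with ⟨_, h9⟩ | ⟨_, h9⟩
      · rw [h9] at h
        exact hp.one_lt.ne' (Nat.dvd_one.1 (by exact_mod_cast h))
      · rw [h9] at h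
        exact hp5 ((Nat.prime_dvd_prime_iff_eq hp Nat.prime_five).1 (by exact_mod_cast h))
    rw [hce]
    exact ⟨fun h => (hpp.dvd_or_dvd h).resolve_left hpc, fun h => h.mul_left _⟩
  have hdv0 : e0 ∣ 2 * (n : ℤ) := by
    refine dvd_of_primes hse0 fun p hp hpe0 => ?_
    have hpp : Prime (p : ℤ) := Nat.prime_iff_prime_int.1 hp
    have hp5 : p ≠ 5 := by
      rintro rfl
      exact h5e0 hpe0
    have h6 : (p : ℤ) ∣ 10 * (M : ℤ) := ((hpe p hp hp5).2 hpe0).trans hdvd
    by_cases hp2 : p = 2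
    · subst hp2
      exact dvd_mul_right _ _
    have h7 : (p : ℤ) ∣ (M : ℤ) := by
      have e10 : (10 : ℤ) * M = ((2 : ℕ) : ℤ) * (((5 : ℕ) : ℤ) * M) := by push_cast; ring
      rw [e10] at h6
      rcases hpp.dvd_or_dvd h6 with h | h
      · exact absurd ((Nat.prime_dvd_prime_iff_eq hp Nat.prime_two).1 (by exact_mod_cast h)) hp2
      · rcases hpp.dvd_or_dvd h with h | h
        · exact absurd ((Nat.prime_dvd_prime_iff_eq hp Nat.prime_five).1 (by exact_mod_cast h)) hp5
        · exact h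
    rw [hM] at h7
    split_ifs at h7
    · push_cast at h7
      exact h7
    · exact h7.mul_left _
  have h20 : (2 : ℤ) ∣ e ↔ (2 : ℤ) ∣ e0 := hpe 2 Nat.prime_two (by norm_num)
  have he02 : t = false → e0 % 2 = 1 := by
    intro ht
    have h9 := he2 ht
    by_contra hcon
    have h10 : (2 : ℤ) ∣ e := h20.2 (by omega)
    omega
  set x : ℕ → ZMod 2 := fun p => if (p : ℤ) ∣ e0 then 1 else 0 with hx
  -- the symbols of `c`
  have hcq : ∀ q ∈ S, ¬ (q : ℤ) ∣ c := by
    intro q hq h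
    have hq' := hS q hq
    rcases hx5 with ⟨_, h9⟩ | ⟨_, h9⟩
    · rw [h9] at h
      exact hq'.1.one_lt.ne' (Nat.dvd_one.1 (by exact_mod_cast h))
    · rw [h9] at h
      exact hS5 q hq ((Nat.prime_dvd_prime_iff_eq hq'.1 Nat.prime_five).1 (by exact_mod_cast h))
  have hcns : ∀ q ∈ S, ns q c = x5 * be r q := by
    intro q hq
    rcases hx5 with ⟨h9, h10⟩ | ⟨h9, h10⟩
    · rw [h9, h10, ns_one, zero_mul]
    · rw [h9, h10, (be_ns (r := r) (hS q hq) (hS5 q hq)).1, one_mul]
  have hLk : ∀ p ∈ S, Lk t r s S x p = x5 * be r p := by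
    intro p hp
    have hp' := hS p hp
    have hpp : Prime (p : ℤ) := Nat.prime_iff_prime_int.1 hp'.1
    obtain ⟨c1, c2⟩ := col hn hm4 hok hse0 he00 hdv0 he02 hp
    have hpM : ∃ m', (M : ℤ) = p * m' := by
      have hqn : p ∣ n := Nat.dvd_of_mem_primeFactors hp
      have : (p : ℤ) ∣ (M : ℤ) := by
        rw [hM]
        split_ifs
        · exact_mod_cast hqn.mul_left 2
        · exact_mod_cast hqn
      exact this
    obtain ⟨m', hm'⟩ := hpM
    obtain ⟨l1, l2⟩ := hloc p hp m' hm'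
    by_cases hpe0 : (p : ℤ) ∣ e0
    · obtain ⟨e', he'⟩ := hpe0
      have h6 := l2 (c * e') (by rw [hce, he']; ring)
      have h7 := c2 m' e' hm' he'
      have hm'nd : ¬ (p : ℤ) ∣ m' := by
        rintro ⟨f, hf⟩
        have h6 : p * p ∣ M := by
          have : ((p * p : ℕ) : ℤ) ∣ (M : ℤ) := by
            rw [hm', hf]; push_cast; exact ⟨f, by ring⟩
          exact_mod_cast this
        have h7 : p * p ∣ n := by
          rw [hM] at h6
          split_ifs at h6
          · refine (Nat.Coprime.dvd_of_dvd_mul_left ?_ h6)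
            have : Nat.Coprime p 2 := (Nat.coprime_primes hp'.1 Nat.prime_two).2 hp'.2
            exact Nat.Coprime.mul_left this this
          · exact h6
        exact hp'.1.prime.not_isUnit (hn p h7)
      have he'nd : ¬ (p : ℤ) ∣ e' := by
        rintro ⟨f, hf⟩
        exact hpp.not_isUnit (hse0 p ⟨f, by rw [he', hf]; ring⟩)
      have h8 : ns p (c * (m' * e')) = 0 := by
        have : c * (m' * e') = m' * (c * e') := by ring
        rw [this]
        exact ns_sq.2 h6
      rw [ns_mul hp'.1 (hcq p hp) (fun h => (hpp.dvd_or_dvd h).elim hm'nd he'nd), hcns p hp,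
        ← h7] at h8
      exact (z2_eq_of_add h8).symm
    · have h6 := l1 (fun h => hpe0 ((hpe p hp'.1 (hS5 p hp)).1 h))
      have h8 : ns p (c * e0) = 0 := by
        rw [← hce]
        exact ns_sq.2 h6
      rw [ns_mul hp'.1 (hcq p hp) hpe0, hcns p hp, ← c1 hpe0] at h8
      exact (z2_eq_of_add h8).symm
  -- the value of `e0` and the prime three
  have hfac := e_fac hn hm4 hse0 he00 hdv0
  set T : Finset ℕ := S.filter (fun p : ℕ => ((p : ℕ) : ℤ) ∣ e0) with hT
  have hTS : T ⊆ S := filter_subset _ _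
  have hX : ∑ q ∈ Vt t S, x q * al q = x5 := by
    rw [sum_Vt hS, al2v, mul_one]
    have h6 : ∑ q ∈ S, x q * al q = ∑ q ∈ T, al q := by
      rw [hT, sum_filter]
      refine sum_congr rfl fun q _ => ?_
      simp only [hx]
      split_ifs
      · rw [one_mul]
      · rw [zero_mul]
    have h7 : (if t = true then x 2 else 0) = if (2 : ℤ) ∣ e0 then 1 else 0 := by
      by_cases ht : t = true
      · rw [if_pos ht]
        rfl
      · rw [if_neg ht, if_neg]
        intro h
        have := he02 (by simpa using ht)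
        omega
    rw [h6, h7]
    have h8 := prod_three T fun p hp => hS3 p (hTS hp)
    have h9 : ((∏ p ∈ T, p : ℕ) : ℤ) = ∏ p ∈ T, (p : ℤ) := by push_cast; rfl
    rw [hce, hfac, ← h9] at he3
    have h10 : (((∏ p ∈ T, p : ℕ) : ℤ)) % 3 = (((∏ p ∈ T, p) % 3 : ℕ) : ℤ) := by push_cast; rfl
    generalize (∏ p ∈ T, p) = P at *
    by_cases h2 : (2 : ℤ) ∣ e0
    · rw [if_pos h2] at he3 ⊢
      rcases hx5 with ⟨h11, h12⟩ | ⟨h11, h12⟩ <;> rcases z2 (∑ p ∈ T, al p) with h13 | h13
      · rw [h13, if_pos rfl] at h8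
        rw [h12] at he3
        omega
      · rw [h11, h13]
        decide
      · rw [h11, h13]
        decide
      · rw [h13, if_neg (by decide)] at h8
        rw [h12] at he3
        omega
    · rw [if_neg h2] at he3 ⊢
      rcases hx5 with ⟨h11, h12⟩ | ⟨h11, h12⟩ <;> rcases z2 (∑ p ∈ T, al p) with h13 | h13
      · rw [h11, h13]
        decide
      · rw [h13, if_neg (by decide)] at h8
        rw [h12] at he3
        omega
      · rw [h13, if_pos rfl] at h8
        rw [h12] at he3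
        omega
      · rw [h11, h13]
        decide
  have hxl : ∀ p ∈ S, Lz t r s S x p = 0 := by
    intro p hp
    rw [lz_eq x (mem_Vt.2 (Or.inr hp)) hB0, hLk p hp, hX, mul_comm (be r p), z2_add_self]
  have hxl' : ∀ p ∈ Vt t S, Lz t r s S x p = 0 := by
    intro p hp
    rcases mem_Vt.1 hp with ⟨ht, rfl⟩ | hp
    · have h1 := sum_Lz (t := t) (r := r) (s := s) S x
      rw [sum_Vt hS, if_pos ht, sum_eq_zero hxl, add_zero] at h1
      exact h1
    · exact hxl p hp
  have hy := gen_leftz hS hok hU hAl hBe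
  -- the generator is not zero
  obtain ⟨p₀, hp₀, hy0⟩ : ∃ p₀ ∈ Vt t S, (fun q => if q = 2 then r else (1 : ZMod 2)) p₀ ≠ 0 := by
    rcases hne with h | ⟨ht, hr⟩
    · obtain ⟨p, hp⟩ := (Nat.nonempty_primeFactors.2 (by
        have := hn.ne_zero
        omega : 1 < n))
      refine ⟨p, mem_Vt.2 (Or.inr hp), ?_⟩
      simp only
      rw [if_neg (hS p hp).2]
      exact one_ne_zero
    · refine ⟨2, mem_Vt.2 (Or.inl ⟨ht, rfl⟩), ?_⟩
      simp [hr]
  have h2n : (2 : ℤ) ∣ e0 → t = true := by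
    intro h
    by_contra ht
    have := he02 (by simpa using ht)
    omega
  have hx22 : x 2 = if (2 : ℤ) ∣ e0 then 1 else 0 := rfl
  rcases left_twoz hG hxl' hy hp₀ hy0 with h | h
  · left
    have hT0 : T = ∅ := by
      rw [hT, filter_eq_empty_iff]
      intro p hp hpe
      have := h p (mem_Vt.2 (Or.inr hp))
      simp only [hx, if_pos hpe] at this
      exact one_ne_zero this
    have h20' : ¬ (2 : ℤ) ∣ e0 := by
      intro h2
      have h3 := h 2 (mem_Vt.2 (Or.inl ⟨h2n h2, rfl⟩))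
      rw [hx22, if_pos h2] at h3
      exact one_ne_zero h3
    have h50 : x5 = 0 := by
      rw [← hX]
      exact sum_eq_zero fun q hq => by rw [h q hq, zero_mul]
    have hc1 : c = 1 := by
      rcases hx5 with ⟨_, h9⟩ | ⟨h9, _⟩
      · exact h9
      · rw [h50] at h9
        exact absurd h9 (by decide)
    rw [hce, hc1, hfac, hT0, if_neg h20', prod_empty]
    norm_num
  · right
    have hTS' : T = S := by
      rw [hT, filter_eq_self]
      intro p hp
      have h3 := h p (mem_Vt.2 (Or.inr hp))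
      rw [if_neg (hS p hp).2] at h3
      by_contra hpe
      simp only [hx, if_neg hpe] at h3
      exact zero_ne_one h3
    have hprod : ∏ p ∈ S, (p : ℤ) = n := by
      rw [← Nat.cast_prod, hSdef, Nat.prod_primeFactors_of_squarefree hn]
    have h50 : x5 = 0 := by
      have h9 : ∑ q ∈ Vt t S, x q * al q = 0 := by
        rw [sum_Vt hS, al2v, mul_one]
        have h10 : ∑ q ∈ S, x q * al q = r := by
          rw [← hAl]
          refine sum_congr rfl fun q hq => ?_
          rw [h q (mem_Vt.2 (Or.inr hq)), if_neg (hS q hq).2, one_mul]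
        rw [h10]
        by_cases ht : t = true
        · rw [if_pos ht, h 2 (mem_Vt.2 (Or.inl ⟨ht, rfl⟩)), if_pos rfl, z2_add_self]
        · rw [if_neg ht, (hok (by simpa using ht)).1, add_zero]
      rw [← hX, h9]
    have hc1 : c = 1 := by
      rcases hx5 with ⟨_, h9⟩ | ⟨h9, _⟩
      · exact h9
      · rw [h50] at h9
        exact absurd h9 (by decide)
    rw [hce, hc1, one_mul, hfac, hTS', hprod, hM]
    by_cases ht : t = true
    · have h3 := h 2 (mem_Vt.2 (Or.inl ⟨ht, rfl⟩))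
      rw [hx22, if_pos rfl] at h3
      by_cases h2 : (2 : ℤ) ∣ e0
      · rw [if_pos h2] at h3 ⊢
        rw [if_pos h3.symm]
        push_cast
        ring
      · rw [if_neg h2] at h3 ⊢
        rw [if_neg (by rw [← h3]; exact zero_ne_one)]
        ring
    · have h2 : ¬ (2 : ℤ) ∣ e0 := fun h => ht (h2n h)
      obtain ⟨hr, hs⟩ := hok (by simpa using ht)
      rw [if_neg h2, if_neg (by rw [hr]; exact zero_ne_one)]
      ring

end

end Pool.Agent.T2h79.XM.Z
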