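import Pool.Agent.T2h79.XM.Z.Sys

/-!
# The second pair of isogenies: the first Selmer group
-/

set_option autoImplicit false
set_option linter.unusedVariables false
set_option linter.unusedSectionVars false

namespace Pool.Agent.T2h79.XM.Z

open Finset
open Pool.Agent.T2h79.XM
open Pool.Agent.Y703.CQ (nr)
open Pool.Agent.N973.ND (uu)
open Pool.Agent.N916.GB (Po sy Vt Gd Gv z2 z2_add_self z2_sq nr_recip z2_eq_of_add)
open Pool.Agent.N848.Q hiding star

open Pool.Agent.N848.Q renaming star → st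

open scoped Classical

/-- the hypotheses on the parameters -/
structure Hz (n : ℕ) (t : Bool) (r s : ZMod 2) : Prop where
  sq : Squarefree n
  m4 : n % 4 = if s = 0 then 3 else 1
  ok : t = false → r = 0 ∧ s = 0
  al : ∑ p ∈ n.primeFactors, al p = r
  be : ∑ p ∈ n.primeFactors, be r p = r
  n3 : n % 3 ≠ 0
  n5 : n % 5 ≠ 0

lemma hz_of {m n : ℕ} {t : Bool} {r s : ZMod 2} (hm : Squarefree m) (hp : Par m n t r s)
    (h3 : m % 3 = 1) (h5 : m % 5 = 1 ∨ m % 5 = 4) : Hz n t r s := by
  obtain ⟨p1, p2, p3, p4⟩ := hp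
  have hn : Squarefree n := by
    rw [p1] at hm
    split_ifs at hm
    · exact hm.squarefree_of_dvd (dvd_mul_left _ _)
    · exact hm
  have n3 : n % 3 ≠ 0 := by split_ifs at p1 <;> omega
  have n5 : n % 5 ≠ 0 := by split_ifs at p1 <;> omega
  have n2 : n % 2 = 1 := by split_ifs at p2 <;> omega
  have hpr : ∀ p ∈ n.primeFactors, p % 3 ≠ 0 ∧ p % 5 ≠ 0 ∧ p ≠ 2 := by
    intro p hp
    have hd := Nat.dvd_of_mem_primeFactors hp
    refine ⟨fun h => ?_, fun h => ?_, ?_⟩
    · have : 3 ∣ n := (Nat.dvd_of_mod_eq_zero h).trans hd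
      omega
    · have : 5 ∣ n := (Nat.dvd_of_mod_eq_zero h).trans hd
      omega
    · rintro rfl
      omega
  have e3 := prod_three n.primeFactors fun p hp => (hpr p hp).1
  have e5 := prod_five (r := r) n.primeFactors fun p hp => (hpr p hp).2
  rw [Nat.prod_primeFactors_of_squarefree hn] at e3 e5
  refine ⟨hn, p2, p3, ?_, ?_, n3, n5⟩
  · rcases z2 r with hr | hr
    · rw [hr, if_neg (by decide)] at p1
      rcases z2 (∑ p ∈ n.primeFactors, Z.al p) with h | h
      · rw [h, hr]
      · rw [h, if_neg (by decide)] at e3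
        omega
    · rw [hr, if_pos rfl] at p1
      rcases z2 (∑ p ∈ n.primeFactors, Z.al p) with h | h
      · rw [h, if_pos rfl] at e3
        omega
      · rw [h, hr]
  · rcases z2 r with hr | hr
    · rcases e5 with ⟨h, h'⟩ | ⟨h, h'⟩
      · rw [h, hr]
      · rw [hr, if_neg (by decide)] at p1
        omega
    · rcases e5 with ⟨h, h'⟩ | ⟨h, h'⟩
      · rw [hr, if_pos rfl] at p1
        omega
      · rw [h, hr]

section

variable {n : ℕ} {t : Bool} {r s : ZMod 2}

/-- the first descent map, normalised -/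
theorem r1z_norm (hz : Hz n t r s) (hG : Gz t r s n.primeFactors) {d : ℤ} (hd : Squarefree d)
    (h8 : t = true → d % 8 = 1) (h4 : t = false → d % 4 = 1)
    (hdvd : d ∣ 3 * (((if r = 1 then 2 * n else n : ℕ)) : ℤ)) (h5 : Sq 5 d)
    (h5' : ¬ (5 : ℤ) ∣ d)
    (hloc : ∀ p ∈ n.primeFactors, ∀ m' : ℤ, (((if r = 1 then 2 * n else n : ℕ)) : ℤ) = p * m' →
      (¬ (p : ℤ) ∣ d → Sq p d) ∧ ∀ d', d = p * d' → Sq p (-m' * d')) :
    d = 1 ∨ d = -(((if r = 1 then 2 * n else n : ℕ)) : ℤ) := by
  obtain ⟨hn, hm4, hok, hAl, hBe, n3, n5⟩ := hz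
  set S := n.primeFactors with hSdef
  have hS : ∀ p ∈ S, Po p := po_of (odd_of hm4)
  have hS3 : ∀ p ∈ S, p ≠ 3 := by
    rintro p hp rfl
    have := Nat.dvd_of_mem_primeFactors hp
    omega
  have hS5 : ∀ p ∈ S, p ≠ 5 := by
    rintro p hp rfl
    have := Nat.dvd_of_mem_primeFactors hp
    omega
  set M : ℕ := if r = 1 then 2 * n else n with hM
  have hMof : Dl r s * ∏ p ∈ S, st p = -(M : ℤ) := M_of hn hm4
  have hd4 : d % 4 = 1 := by
    by_cases ht : t = true
    · have := h8 ht
      omega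
    · exact h4 (by simpa using ht)
  -- the part prime to three
  obtain ⟨x3, c, a, hx3, hda, ha4, ha3, hca⟩ : ∃ (x3 : ZMod 2) (c a : ℤ),
      (x3 = 0 ∧ c = 1 ∨ x3 = 1 ∧ c = -3) ∧ d = c * a ∧ a % 4 = 1 ∧ ¬ (3 : ℤ) ∣ a ∧
      (c % 8 = if x3 = 0 then 1 else 5) := by
    by_cases h3 : (3 : ℤ) ∣ d
    · obtain ⟨f, rfl⟩ := h3
      refine ⟨1, -3, -f, Or.inr ⟨rfl, rfl⟩, by ring, by omega, ?_, by rw [if_neg (by decide)]; rfl⟩
      rintro ⟨g, hg⟩
      have h9 := hd 3 ⟨-g, by linear_combination (-3) * hg⟩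
      rw [Int.isUnit_iff] at h9
      omega
    · exact ⟨0, 1, d, Or.inl ⟨rfl, rfl⟩, by ring, hd4, h3, by rw [if_pos rfl]; rfl⟩
  have hsa : Squarefree a.natAbs := by
    rw [Int.squarefree_natAbs]
    exact hd.squarefree_of_dvd ⟨c, by rw [hda]; ring⟩
  have e1 := eq_prod_star ha4 hsa
  set T := a.natAbs.primeFactors with hT
  have hTS : T ⊆ S := by
    intro p hp
    have hpp := Nat.prime_of_mem_primeFactors hp
    have hpa : (p : ℤ) ∣ a := Int.natCast_dvd.2 (Nat.dvd_of_mem_primeFactors hp)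
    have hp3 : p ≠ 3 := by
      rintro rfl
      exact ha3 hpa
    have hp2 : p ≠ 2 := by
      rintro rfl
      have : (2 : ℤ) ∣ a := hpa
      omega
    have hppi : Prime (p : ℤ) := Nat.prime_iff_prime_int.1 hpp
    have h6 : (p : ℤ) ∣ 3 * (M : ℤ) := by
      refine dvd_trans ?_ hdvd
      rw [hda]
      exact hpa.mul_left c
    have h7 : (p : ℤ) ∣ (M : ℤ) := by
      rcases hppi.dvd_or_dvd h6 with h | h
      · exact absurd ((Nat.prime_dvd_prime_iff_eq hpp Nat.prime_three).1 (by exact_mod_cast h)) hp3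
      · exact h
    have h8 : p ∣ M := by exact_mod_cast h7
    rw [hSdef, Nat.mem_primeFactors]
    refine ⟨hpp, ?_, hn.ne_zero⟩
    rw [hM] at h8
    split_ifs at h8
    · rcases hpp.dvd_mul.1 h8 with h | h
      · exact absurd ((Nat.prime_dvd_prime_iff_eq hpp Nat.prime_two).1 h) hp2
      · exact h
    · exact h8
  have hc0 : c ≠ 0 := by rcases hx3 with ⟨_, h⟩ | ⟨_, h⟩ <;> rw [h] <;> norm_num
  have ha0 : a ≠ 0 := by rintro rfl; norm_num at ha4
  set b := Dl r s * ∏ p ∈ S \ T, st p with hb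
  have hab : a * b = -(M : ℤ) := by
    rw [← hMof, hb, ← prod_sdiff hTS, ← e1]
    ring
  -- the symbols of `c`
  have hcq : ∀ q, Po q → q ≠ 3 → ¬ (q : ℤ) ∣ c := by
    intro q hq hq3 h
    rcases hx3 with ⟨_, h9⟩ | ⟨_, h9⟩
    · rw [h9] at h
      exact hq.1.one_lt.ne' (Nat.dvd_one.1 (by exact_mod_cast h))
    · rw [h9, dvd_neg] at h
      exact hq3 ((Nat.prime_dvd_prime_iff_eq hq.1 Nat.prime_three).1 (by exact_mod_cast h))
  have hcns : ∀ q, Po q → q ≠ 3 → ns q c = x3 * al q := by
    intro q hq hq3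
    rcases hx3 with ⟨h9, h10⟩ | ⟨h9, h10⟩
    · rw [h9, h10, ns_one, zero_mul]
    · rw [h9, h10, al_ns hq hq3, one_mul]
  have hsum : ∑ p ∈ T, be r p = x3 := by
    have h6 : ns 5 d = 0 := ns_sq.2 h5
    have p5 : Po 5 := ⟨Nat.prime_five, by norm_num⟩
    have h5T : 5 ∉ T := fun h => hS5 5 (hTS h) rfl
    have hTP : ∀ p ∈ T, Po p := fun p hp => hS p (hTS hp)
    have h7 : ¬ ((5 : ℕ) : ℤ) ∣ a := by
      rw [e1]
      exact not_dvd_prod_star p5 T hTP h5T
    rw [hda, ns_mul Nat.prime_five (hcq 5 p5 (by norm_num)) h7, hcns 5 p5 (by norm_num)] at h6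
    have h8 : ns 5 a = ∑ p ∈ T, be r p := by
      conv_lhs => rw [e1]
      rw [ns_prod_star p5 T hTP h5T]
      exact sum_congr rfl fun p hp => (be_ns (hTP p hp) (hS5 p (hTS hp))).2
    have h9 : al 5 = 1 := if_pos (by norm_num)
    rw [h8, h9, mul_one] at h6
    exact (z2_eq_of_add h6).symm
  have hB0 : ∑ q ∈ Vt t S, be r q = 0 := sum_be hS hok hBe
  have h2T : (2 : ℕ) ∉ T := fun h => (hS 2 (hTS h)).2 rfl
  have hextra : ∀ q, ∑ p ∈ Vt t S, ((if p ∈ T then (1 : ZMod 2) else 0) +
      (if q ∈ T then 1 else 0)) * (al q * be r p) = al q * x3 := by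
    intro q
    have h6 : ∑ p ∈ Vt t S, (if p ∈ T then (1 : ZMod 2) else 0) * be r p = ∑ p ∈ T, be r p := by
      rw [sum_Vt hS, if_neg h2T, zero_mul, ite_self, zero_add, ← sum_sdiff hTS,
        sum_eq_zero (s := S \ T) fun p hp => by rw [if_neg (mem_sdiff.1 hp).2, zero_mul], zero_add]
      exact sum_congr rfl fun p hp => by rw [if_pos hp, one_mul]
    have h7 : ∀ p ∈ Vt t S, ((if p ∈ T then (1 : ZMod 2) else 0) +
      (if q ∈ T then 1 else 0)) * (al q * be r p) =
        al q * ((if p ∈ T then (1 : ZMod 2) else 0) * be r p) +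
          (if q ∈ T then 1 else 0) * al q * be r p := by
      intro p _
      ring
    rw [sum_congr rfl h7, sum_add_distrib, ← mul_sum, ← mul_sum, h6, hB0, mul_zero, add_zero, hsum]
  have hsplit : ∀ q, ∑ p ∈ Vt t S, ((if p ∈ T then (1 : ZMod 2) else 0) +
      (if q ∈ T then 1 else 0)) * sz r s q p =
      ∑ p ∈ Vt t S, ((if p ∈ T then (1 : ZMod 2) else 0) +
      (if q ∈ T then 1 else 0)) * sy r s q p + al q * x3 := by
    intro q
    rw [← hextra q, ← sum_add_distrib]
    refine sum_congr rfl fun p _ => ?_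
    unfold sz
    ring
  have hconst := hG (fun p => if p ∈ T then 1 else 0) (by
    intro q hq
    rw [hsplit q]
    rcases mem_Vt.1 hq with ⟨ht, rfl⟩ | hq
    · rw [row_two hS hTS, al2v, one_mul]
      have h6 := prod_star_mod T fun p hp => hS p (hTS hp)
      rw [← e1] at h6
      have h7 := h8 ht
      rw [hda] at h7
      rcases z2 x3 with h9 | h9 <;> rcases z2 (∑ p ∈ T, nr p 2) with h10 | h10
      · rw [h9, h10, add_zero]
      · exfalso
        rw [h9, if_pos rfl] at hca
        rw [h10, if_neg (by decide)] at h6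
        simp [Int.mul_emod, hca, h6] at h7
      · exfalso
        rw [h9, if_neg (by decide)] at hca
        rw [h10, if_pos rfl] at h6
        simp [Int.mul_emod, hca, h6] at h7
      · rw [h9, h10]
        decide
    · have hq' := hS q hq
      have hq3 := hS3 q hq
      rw [row_eq hS hok hTS hq, mul_comm (al q), ← hcns q hq' hq3]
      have hqq : Prime (q : ℤ) := Nat.prime_iff_prime_int.1 hq'.1
      have hqM : ∃ m', (M : ℤ) = q * m' := by
        have hqn : q ∣ n := Nat.dvd_of_mem_primeFactors hq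
        have : (q : ℤ) ∣ (M : ℤ) := by
          rw [hM]
          split_ifs
          · exact_mod_cast hqn.mul_left 2
          · exact_mod_cast hqn
        exact this
      obtain ⟨m', hm'⟩ := hqM
      by_cases hqT : q ∈ T
      · rw [if_pos hqT]
        have hqb : ¬ (q : ℤ) ∣ b := by
          rw [hb]
          intro h
          rcases hqq.dvd_or_dvd h with h | h
          · exact not_dvd_Dl hq' h
          · exact not_dvd_prod_star hq' _ (fun p hp => hS p (mem_sdiff.1 hp).1)
              (fun h => (mem_sdiff.1 h).2 hqT) h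
        rw [← ns_mul hq'.1 hqb (hcq q hq' hq3)]
        obtain ⟨a', ha'⟩ : (q : ℤ) ∣ a := by
          rw [e1]
          exact star_dvd_prod hqT
        have hqa' : ¬ (q : ℤ) ∣ a' := by
          rintro ⟨f, hf⟩
          have hsa' : Squarefree a := Int.squarefree_natAbs.1 hsa
          exact hqq.not_isUnit (hsa' q ⟨f, by rw [ha', hf]; ring⟩)
        have h6 := (hloc q hq m' hm').2 (c * a') (by rw [hda, ha']; ring)
        refine ns_sq.2 (sq_cancel hq'.1 hqa' ?_)
        have h7 : (q : ℤ) * (a' * b) = q * (-m') := by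
          rw [ha'] at hab
          linear_combination hab - hm'
        have h8 : a' * b = -m' := mul_left_cancel₀ hqq.ne_zero h7
        have h9 : b * c * a' ^ 2 = -m' * (c * a') := by
          rw [← h8]
          ring
        rw [h9]
        exact h6
      · rw [if_neg hqT, ← e1]
        have hqa : ¬ (q : ℤ) ∣ a := by
          rw [e1]
          exact not_dvd_prod_star hq' _ (fun p hp => hS p (hTS hp)) hqT
        rw [← ns_mul hq'.1 hqa (hcq q hq' hq3), mul_comm, ← hda]
        refine ns_sq.2 ((hloc q hq m' hm').1 ?_)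
        rw [hda]
        intro h
        rcases hqq.dvd_or_dvd h with h | h
        · exact hcq q hq' hq3 h
        · exact hqa h)
  by_cases hne : T = ∅
  · left
    have h6 : x3 = 0 := by rw [← hsum, hne, sum_empty]
    have h7 : c = 1 := by
      rcases hx3 with ⟨_, h⟩ | ⟨h, _⟩
      · exact h
      · rw [h6] at h
        exact absurd h (by decide)
    rw [hda, h7, e1, hne, prod_empty]
    norm_num
  · right
    obtain ⟨p₀, hp₀⟩ := Finset.nonempty_iff_ne_empty.2 hne
    have hST : S \ T = ∅ := by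
      rw [sdiff_eq_empty_iff_subset]
      intro p hp
      have h4 := hconst p₀ (mem_Vt.2 (Or.inr (hTS hp₀))) p (mem_Vt.2 (Or.inr hp))
      simp only [if_pos hp₀] at h4
      by_contra hpT
      rw [if_neg hpT] at h4
      exact one_ne_zero h4
    have ht : t = false := by
      by_contra ht
      have ht' : t = true := by simpa using ht
      have h4 := hconst p₀ (mem_Vt.2 (Or.inr (hTS hp₀))) 2 (mem_Vt.2 (Or.inl ⟨ht', rfl⟩))
      simp only [if_pos hp₀, if_neg h2T] at h4
      exact one_ne_zero h4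
    obtain ⟨hr, hs⟩ := hok ht
    have hTeq : T = S := by
      refine Finset.Subset.antisymm hTS ?_
      rwa [← sdiff_eq_empty_iff_subset]
    have h6 : x3 = 0 := by rw [← hsum, hTeq, hBe, hr]
    have h7 : c = 1 := by
      rcases hx3 with ⟨_, h⟩ | ⟨h, _⟩
      · exact h
      · rw [h6] at h
        exact absurd h (by decide)
    have h9 : b = 1 := by
      rw [hb, hST, prod_empty, hr, hs]
      unfold Dl
      norm_num
    rw [hda, h7, ← hab, h9]
    ring

end

end Pool.Agent.T2h79.XM.Z
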