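import Pool.Agent.T2h79.XM.Z.R1

/-!
# The second pair of isogenies: the first Selmer group, not normalised
-/

set_option autoImplicit false
set_option linter.unusedVariables false
set_option linter.unusedSectionVars false

namespace Pool.Agent.T2h79.XM.Z

open Finset
open Pool.Agent.T2h79.XM
open Pool.Agent.Y703.CQ (nr)
open Pool.Agent.N973.ND (uu)
open Pool.Agent.N916.GB (Po sy Vt Gd Gv z2 z2_add_self z2_sq nr_recip z2_eq_of_add)
open Pool.Agent.N848.Q hiding star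

open Pool.Agent.N848.Q renaming star → st

open scoped Classical

lemma neg5 {m : ℕ} (h : m % 5 = 1 ∨ m % 5 = 4) : (-(m : ℤ)) % 5 = 1 ∨ (-(m : ℤ)) % 5 = 4 := by
  omega

/-- the common part -/
lemma gcd_split {m d : ℤ} (hm : Squarefree m) (hd : Squarefree d) : ∃ g m1 d1 : ℤ, 0 < g ∧
    m = g * m1 ∧ d = g * d1 ∧ IsCoprime d1 m1 ∧ IsCoprime g d1 ∧ IsCoprime g m1 := by
  obtain ⟨d1, hd1⟩ : (Int.gcd d m : ℤ) ∣ d := Int.gcd_dvd_left _ _
  obtain ⟨m1, hm1⟩ : (Int.gcd d m : ℤ) ∣ m := Int.gcd_dvd_right _ _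
  have hg0 : 0 < Int.gcd d m := Int.gcd_pos_of_ne_zero_left _ hd.ne_zero
  have hmax : ∀ k : ℤ, k ∣ d → k ∣ m → k ∣ (Int.gcd d m : ℤ) := fun k h1 h2 => Int.dvd_coe_gcd h1 h2
  generalize Int.gcd d m = G at *
  have hG : (0 : ℤ) < G := by exact_mod_cast hg0
  refine ⟨(G : ℤ), m1, d1, hG, hm1, hd1, ?_, ?_, ?_⟩
  · rw [Int.isCoprime_iff_gcd_eq_one]
    by_contra hcon
    obtain ⟨p, hp, hpd⟩ := Nat.exists_prime_and_dvd hcon
    have e1 : (p : ℤ) ∣ d1 := (Int.natCast_dvd_natCast.2 hpd).trans (Int.gcd_dvd_left _ _)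
    have e2 : (p : ℤ) ∣ m1 := (Int.natCast_dvd_natCast.2 hpd).trans (Int.gcd_dvd_right _ _)
    obtain ⟨x, hx⟩ := e1
    obtain ⟨y, hy⟩ := e2
    obtain ⟨w, hw⟩ := hmax (G * p) ⟨x, by rw [hd1, hx]; ring⟩ ⟨y, by rw [hm1, hy]; ring⟩
    have h1 : (G : ℤ) * 1 = G * (p * w) := by rw [mul_one]; rw [← mul_assoc]; exact hw
    have h2 := mul_left_cancel₀ hG.ne' h1
    exact (Nat.prime_iff_prime_int.1 hp).not_isUnit (IsUnit.of_mul_eq_one w h2.symm)
  · rw [Int.isCoprime_iff_gcd_eq_one]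
    by_contra hcon
    obtain ⟨p, hp, hpd⟩ := Nat.exists_prime_and_dvd hcon
    have e1 : (p : ℤ) ∣ G := (Int.natCast_dvd_natCast.2 hpd).trans (Int.gcd_dvd_left _ _)
    have e2 : (p : ℤ) ∣ d1 := (Int.natCast_dvd_natCast.2 hpd).trans (Int.gcd_dvd_right _ _)
    obtain ⟨x, hx⟩ := e1
    obtain ⟨y, hy⟩ := e2
    exact (Nat.prime_iff_prime_int.1 hp).not_isUnit (hd p ⟨x * y, by rw [hd1, hx, hy]; ring⟩)
  · rw [Int.isCoprime_iff_gcd_eq_one]
    by_contra hcon
    obtain ⟨p, hp, hpd⟩ := Nat.exists_prime_and_dvd hcon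
    have e1 : (p : ℤ) ∣ G := (Int.natCast_dvd_natCast.2 hpd).trans (Int.gcd_dvd_left _ _)
    have e2 : (p : ℤ) ∣ m1 := (Int.natCast_dvd_natCast.2 hpd).trans (Int.gcd_dvd_right _ _)
    obtain ⟨x, hx⟩ := e1
    obtain ⟨y, hy⟩ := e2
    exact (Nat.prime_iff_prime_int.1 hp).not_isUnit (hm p ⟨x * y, by rw [hm1, hx, hy]; ring⟩)

/-- the class modulo eight, odd case -/
lemma mod8_odd {m d g e : ℤ} (hge : g ^ 2 * e = -m * d) (h : m % 2 = 1) (h9 : (d + m) % 8 = 0)
    (hg2 : g % 2 = 1) : e % 8 = 1 := by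
  obtain ⟨k, hk⟩ : ∃ k, g ^ 2 = 8 * k + 1 := ⟨g ^ 2 / 8, by have := odd_sq hg2; omega⟩
  have hd2 : d % 2 = 1 := by omega
  obtain ⟨k', hk'⟩ : ∃ k, d ^ 2 = 8 * k + 1 := ⟨d ^ 2 / 8, by have := odd_sq hd2; omega⟩
  obtain ⟨j, hj⟩ : ∃ j, d + m = 8 * j := ⟨(d + m) / 8, by omega⟩
  have e1 : e = 1 + 8 * (k' - j * d - k * e) := by
    rw [hk] at hge
    linear_combination hge - d * hj + hk'
  omega

/-- the class modulo eight, even case -/
lemma mod8_even {m' d' g' e : ℤ} (h11 : g' ^ 2 * e = -(m' * d')) (h9 : (m' * d' + 1) % 8 = 0)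
    (hgo : g' % 2 = 1) : e % 8 = 1 := by
  obtain ⟨k, hk⟩ : ∃ k, g' ^ 2 = 8 * k + 1 := ⟨g' ^ 2 / 8, by have := odd_sq hgo; omega⟩
  have h12 : e + 8 * (k * e) = -(m' * d') := by
    rw [← h11, hk]
    ring
  omega

/-- the local conditions of the complement -/
lemma loc_compl {p : ℕ} (hpp : p.Prime) {m d g m1 d1 m' : ℤ} (hm1 : m = g * m1) (hd1 : d = g * d1)
    (hco : IsCoprime d1 m1) (hgd1 : IsCoprime g d1) (hgm1 : IsCoprime g m1) (hmm : m = p * m')
    (hm'p : ¬ (p : ℤ) ∣ m') (hl1 : ¬ (p : ℤ) ∣ d → Sq p d)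
    (hl2 : ∀ d', d = p * d' → Sq p (-m' * d')) :
    (¬ (p : ℤ) ∣ -(m1 * d1) → Sq p (-(m1 * d1))) ∧
      ∀ e', -(m1 * d1) = p * e' → Sq p (-m' * e') := by
  have hpi : Prime (p : ℤ) := Nat.prime_iff_prime_int.1 hpp
  constructor
  · intro hpe
    -- `p` divides `d`
    have hpg : (p : ℤ) ∣ g := by
      have h9 : (p : ℤ) ∣ g * m1 := by rw [← hm1, hmm]; exact dvd_mul_right _ _
      rcases hpi.dvd_or_dvd h9 with h | h
      · exact h
      · exfalso
        apply hpe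
        rw [dvd_neg]
        exact h.mul_right _
    obtain ⟨g', hg'⟩ := hpg
    have hd' : d = p * (g' * d1) := by rw [hd1, hg']; ring
    have h9 := hl2 _ hd'
    have hm'' : m' = g' * m1 := by
      have : (p : ℤ) * m' = p * (g' * m1) := by rw [← hmm, hm1, hg']; ring
      exact mul_left_cancel₀ hpi.ne_zero this
    have hg'p : ¬ (p : ℤ) ∣ g' := by
      intro h
      apply hm'p
      rw [hm'']
      exact h.mul_right _
    refine sq_cancel hpp hg'p ?_
    have : -(m1 * d1) * g' ^ 2 = -m' * (g' * d1) := by rw [hm'']; ring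
    rw [this]
    exact h9
  · intro e' he'
    -- `p` does not divide `g`
    have hpm1 : (p : ℤ) ∣ m1 := by
      have h9 : (p : ℤ) ∣ m1 * d1 := by
        rw [← dvd_neg, he']
        exact dvd_mul_right _ _
      rcases hpi.dvd_or_dvd h9 with h | h
      · exact h
      · exfalso
        have h10 : (p : ℤ) ∣ g * m1 := by rw [← hm1, hmm]; exact dvd_mul_right _ _
        rcases hpi.dvd_or_dvd h10 with h11 | h11
        · exact hpi.not_isUnit (hgd1.isUnit_of_dvd' h11 h)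
        · exact hpi.not_isUnit (hco.isUnit_of_dvd' h h11)
    obtain ⟨m2, hm2⟩ := hpm1
    have hm'' : m' = g * m2 := by
      have : (p : ℤ) * m' = p * (g * m2) := by rw [← hmm, hm1, hm2]; ring
      exact mul_left_cancel₀ hpi.ne_zero this
    have he'' : e' = -(m2 * d1) := by
      have : (p : ℤ) * e' = p * -(m2 * d1) := by rw [← he', hm2]; ring
      exact mul_left_cancel₀ hpi.ne_zero this
    have hpd : ¬ (p : ℤ) ∣ d := by
      intro h
      rw [hd1] at h
      rcases hpi.dvd_or_dvd h with h | h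
      · exact hpi.not_isUnit (hgm1.isUnit_of_dvd' h ⟨m2, hm2⟩)
      · exact hpi.not_isUnit (hco.isUnit_of_dvd' h ⟨m2, hm2⟩)
    have h9 := hl1 hpd
    have h10 : -m' * e' = d * m2 ^ 2 := by rw [hm'', he'', hd1]; ring
    rw [h10]
    obtain ⟨w, hw⟩ := h9
    refine ⟨w * m2, ?_⟩
    push_cast at hw ⊢
    rw [hw]
    ring

/-- the conclusion for the complement -/
lemma compl_end {m d g m1 d1 : ℤ} (hm0 : 0 < m) (hg0 : 0 < g) (hm1 : m = g * m1)
    (hd1 : d = g * d1) (hgd1 : IsCoprime g d1)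
    (h : -(m1 * d1) = 1 ∨ -(m1 * d1) = -m) : d = 1 ∨ d = -m := by
  rcases h with h | h
  · right
    have h11 : m1 * d1 = -1 := by omega
    rcases Int.isUnit_iff.1 (IsUnit.of_mul_eq_one (-d1) (by rw [mul_neg, h11]; norm_num) :
      IsUnit m1) with h12 | h12
    · rw [h12, one_mul] at h11
      rw [hd1, h11, hm1, h12]
      ring
    · exfalso
      rw [hm1, h12] at hm0
      omega
  · left
    have hm10 : m1 ≠ 0 := by
      rintro rfl
      rw [mul_zero] at hm1
      omega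
    have h10 : m1 * d1 = m1 * g := by
      have h9 : m1 * d1 = m := by linarith
      rw [h9, hm1]
      ring
    have h11 : d1 = g := mul_left_cancel₀ hm10 h10
    have h12 : IsUnit g := by
      rw [h11] at hgd1
      exact isCoprime_self.1 hgd1
    rcases Int.isUnit_iff.1 h12 with h13 | h13
    · rw [hd1, h11, h13]
      norm_num
    · omega

/-- the first descent map -/
theorem r1z {m n : ℕ} {t : Bool} {r s : ZMod 2} (hm : Squarefree m) (hp : Par m n t r s)
    (hm3 : m % 3 = 1) (hm5 : m % 5 = 1 ∨ m % 5 = 4)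
    (hG : Gz t r s n.primeFactors) {d : ℤ} (hd : Squarefree d) (hdvd : d ∣ 3 * (m : ℤ))
    (h3 : (m : ℤ) % 4 = 3 → d % 4 = 1) (h1 : (m : ℤ) % 4 = 1 → d % 8 = 1 ∨ (d + m) % 8 = 0)
    (h2 : (m : ℤ) % 2 = 0 → (d % 2 = 1 → d % 8 = 1) ∧
      (d % 2 = 0 → ((m : ℤ) / 2 * (d / 2) + 1) % 8 = 0))
    (hodd : (m : ℤ) % 2 = 1 → d % 2 = 1) (h5 : Sq 5 d) (h5' : ¬ (5 : ℤ) ∣ d)
    (hloc : ∀ p : ℕ, p.Prime → p ≠ 2 → p ≠ 3 → ∀ m' : ℤ, (m : ℤ) = p * m' →
      (¬ (p : ℤ) ∣ d → Sq p d) ∧ ∀ d', d = p * d' → Sq p (-m' * d')) : d = 1 ∨ d = -m := by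
  have hz := hz_of hm hp hm3 hm5
  obtain ⟨p1, p2, p3, p4⟩ := hp
  have hS : ∀ p ∈ n.primeFactors, Po p := po_of (odd_of p2)
  have hS3 : ∀ p ∈ n.primeFactors, p ≠ 3 := by
    rintro p hp rfl
    have := Nat.dvd_of_mem_primeFactors hp
    have := hz.n3
    omega
  have hsq : Squarefree (m : ℤ) := Int.squarefree_natCast.2 hm
  -- the class modulo four
  have n2 : n % 2 = 1 := odd_of p2
  have htt : t = true → (m : ℤ) % 4 ≠ 3 := by
    intro ht h
    by_cases hr : r = 1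
    · rw [if_pos hr] at p1
      omega
    · rw [if_neg hr] at p1
      have hs : s ≠ 0 := by
        rcases p4 ht with h9 | h9
        · exact absurd ((z2 r).resolve_right hr) h9
        · exact h9
      rw [if_neg hs] at p2
      omega
  have htf : t = false → (m : ℤ) % 4 = 3 := by
    intro ht
    obtain ⟨hr, hs⟩ := p3 ht
    rw [hr, if_neg (by decide)] at p1
    rw [hs, if_pos rfl] at p2
    omega
  by_cases hnorm : (t = true → d % 8 = 1)
  · -- normalised
    have h := r1z_norm hz hG hd hnorm (fun ht => h3 (htf ht)) (by rw [← p1]; exact hdvd) h5 h5'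
      (fun p hp m' hm' => hloc p (hS p hp).1 (hS p hp).2 (hS3 p hp) m' (by rw [← hm', ← p1]))
    rw [← p1] at h
    exact h
  -- the complement
  push Not at hnorm
  obtain ⟨ht, hd8⟩ := hnorm
  obtain ⟨g, m1, d1, hg0, hm1, hd1, hco, hgd1, hgm1⟩ := gcd_split hsq hd
  have hge : g ^ 2 * (-(m1 * d1)) = -(m : ℤ) * d := by linear_combination d * hm1 + g * m1 * hd1
  have hesq : Squarefree (-(m1 * d1)) := by
    rw [← Int.squarefree_natAbs, Int.natAbs_neg, Int.squarefree_natAbs]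
    have hm1' : Squarefree m1 := hsq.squarefree_of_dvd ⟨g, by rw [hm1]; ring⟩
    have hd1' : Squarefree d1 := hd.squarefree_of_dvd ⟨g, by rw [hd1]; ring⟩
    exact squarefree_mul_iff.2 ⟨hco.symm.isRelPrime, hm1', hd1'⟩
  have he8 : (-(m1 * d1)) % 8 = 1 := by
    have hm4 := htt ht
    have hm40 : (m : ℤ) % 4 ≠ 0 := by
      intro h0
      have h6 := hsq 2 (by
        have : (4 : ℤ) ∣ (m : ℤ) := by omega
        exact this)
      rw [Int.isUnit_iff] at h6
      omega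
    rcases (by omega : (m : ℤ) % 4 = 1 ∨ (m : ℤ) % 4 = 2) with h | h
    · refine mod8_odd hge (by omega) ((h1 h).resolve_left hd8) ?_
      by_contra hcon
      have : (2 : ℤ) ∣ (m : ℤ) := by
        rw [hm1]
        exact Dvd.dvd.mul_right (by omega) _
      omega
    · have h10 : d % 2 = 0 := by
        by_contra hcon
        exact hd8 ((h2 (by omega)).1 (by omega))
      have h9 := (h2 (by omega)).2 h10
      have hg2 : (2 : ℤ) ∣ g := by
        by_contra hcon
        have hp2 : Prime ((2 : ℕ) : ℤ) := Nat.prime_iff_prime_int.1 Nat.prime_two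
        have e1 : ((2 : ℕ) : ℤ) ∣ m1 := by
          have : ((2 : ℕ) : ℤ) ∣ g * m1 := by
            rw [← hm1]
            have : (2 : ℤ) ∣ (m : ℤ) := by omega
            exact this
          exact (hp2.dvd_or_dvd this).resolve_left hcon
        have e2 : ((2 : ℕ) : ℤ) ∣ d1 := by
          have : ((2 : ℕ) : ℤ) ∣ g * d1 := by
            rw [← hd1]
            have : (2 : ℤ) ∣ d := by omega
            exact this
          exact (hp2.dvd_or_dvd this).resolve_left hcon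
        exact hp2.not_isUnit (hco.isUnit_of_dvd' e2 e1)
      obtain ⟨g', hg'⟩ := hg2
      obtain ⟨m', hm'⟩ : ∃ m', (m : ℤ) = 2 * m' := ⟨(m : ℤ) / 2, by omega⟩
      obtain ⟨d', hd'⟩ : ∃ d', d = 2 * d' := ⟨d / 2, by omega⟩
      have e2 : (m : ℤ) / 2 = m' := by omega
      have e3 : d / 2 = d' := by omega
      rw [e2, e3] at h9
      refine mod8_even (g' := g') ?_ h9 ?_
      · have h12 : (4 : ℤ) * (g' ^ 2 * (-(m1 * d1))) = 4 * -(m' * d') := by
          rw [hg', hm', hd'] at hge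
          linear_combination hge
        exact mul_left_cancel₀ (by norm_num) h12
      · by_contra hcon
        obtain ⟨x, hx⟩ : ∃ x, g' = 2 * x := ⟨g' / 2, by omega⟩
        have h6 := hsq 2 ⟨x * m1, by rw [hm1, hg', hx]; ring⟩
        rw [Int.isUnit_iff] at h6
        omega
  have h5e : ¬ (5 : ℤ) ∣ -(m1 * d1) := by
    intro h
    have h9 : (5 : ℤ) ∣ (m : ℤ) * d := by
      have : (m : ℤ) * d = -(g ^ 2 * (-(m1 * d1))) := by rw [hge]; ring
      rw [this, dvd_neg]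
      exact h.mul_left _
    have hp5 : Prime ((5 : ℕ) : ℤ) := Nat.prime_iff_prime_int.1 Nat.prime_five
    rcases hp5.dvd_or_dvd h9 with h | h
    · have : 5 ∣ m := by exact_mod_cast h
      omega
    · exact h5' h
  have sqe : Sq 5 (-(m1 * d1)) := by
    have hg5 : ¬ ((5 : ℕ) : ℤ) ∣ g := by
      intro h
      apply h5'
      have h9 : (5 : ℤ) ∣ g := h
      rw [hd1]
      exact h9.mul_right _
    refine sq_cancel Nat.prime_five hg5 ?_
    have h9 : -(m1 * d1) * g ^ 2 = -(m : ℤ) * d := by rw [mul_comm]; exact hge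
    rw [h9]
    have h10 : Sq 5 (-(m : ℤ)) := sq5_of (neg5 hm5)
    unfold Sq at h10 h5 ⊢
    push_cast at h10 h5 ⊢
    exact h10.mul h5
  have hde : -(m1 * d1) ∣ 3 * (m : ℤ) := by
    have h9 : d1 ∣ 3 := by
      have : d1 ∣ m1 * 3 := by
        obtain ⟨w, hw⟩ := hdvd
        refine ⟨w, ?_⟩
        have h10 : g * (m1 * 3) = g * (d1 * w) := by
          rw [hm1, hd1] at hw
          linear_combination hw
        exact mul_left_cancel₀ hg0.ne' h10
      exact hco.dvd_of_dvd_mul_left this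
    obtain ⟨w, hw⟩ := h9
    refine ⟨-(g * w), ?_⟩
    rw [hm1, hw]
    ring
  have h := r1z_norm hz hG hesq (fun _ => he8) (fun ht' => by rw [ht] at ht'; simp at ht')
    (by rw [← p1]; exact hde) sqe h5e (fun p hp m' hm' => by
      have hpi : Prime (p : ℤ) := Nat.prime_iff_prime_int.1 (hS p hp).1
      have hmm : (m : ℤ) = p * m' := by rw [← hm', ← p1]
      have hl := hloc p (hS p hp).1 (hS p hp).2 (hS3 p hp) m' hmm
      refine loc_compl (hS p hp).1 hm1 hd1 hco hgd1 hgm1 hmm ?_ hl.1 hl.2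
      rintro ⟨f, hf⟩
      exact hpi.not_isUnit (hsq p ⟨f, by rw [hmm, hf]; ring⟩))
  rw [← p1] at h
  exact compl_end (by have := hm.ne_zero; omega) hg0 hm1 hd1 hgd1 h

end Pool.Agent.T2h79.XM.Z
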