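import Pool.Agent.N916.GB.Stm

/-!
# The Rédei system changed by a matrix of rank one: statements of the parts

Let `m` be squarefree with `m ≡ 1 (mod 3)` and `m ≡ ±1 (mod 5)`. The Selmer groups of the second
pair of 2-isogenies of the twist by `-m` of `X₀(15)` are described by the Rédei system of
`ℚ(√-m)` in which the symbol `N(q, p)` of the prime discriminant of `p` at `q` is replaced by
`N(q, p) + α(q) β(p)`, where `α(q)` is the symbol of `-3` at `q` and `β(p)` the symbol of the prime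
discriminant of `p` at `5`. The statements are those of the project GB
(`Pool/Agent/N916/GB/Stm.lean`) with this change.
-/

set_option autoImplicit false
set_option linter.unusedVariables false

open scoped Classical

namespace Pool.Agent.T2h79.XM.Z

open Finset
open Pool.Agent.Y703.CX (sm la jj XX eL zz kk S_SIE)
open Pool.Agent.Y703.CQ (nr sg)
open Pool.Agent.N973.ND (uu)
open Pool.Agent.N916.GB

/-- the symbol of `-3` at `q` -/
def al (q : ℕ) : ZMod 2 := if q % 3 = 2 then 1 else 0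

/-- the symbol at `5` of the prime discriminant of `p`; at `p = 2` the prime discriminant is
`-4`, `8` or `-8` -/
def be (r : ZMod 2) (p : ℕ) : ZMod 2 := if p = 2 then r else if p % 5 = 2 ∨ p % 5 = 3 then 1 else 0

/-- the changed symbols -/
noncomputable def sz (r s : ZMod 2) (q p : ℕ) : ZMod 2 := sy r s q p + al q * be r p

/-- the good sets: all the solutions are constant -/
def Gz (t : Bool) (r s : ZMod 2) (S : Finset ℕ) : Prop :=
  ∀ x : ℕ → ZMod 2, (∀ q ∈ Vt t S, ∑ p ∈ Vt t S, (x p + x q) * sz r s q p = 0) →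
    ∀ p ∈ Vt t S, ∀ q ∈ Vt t S, x p = x q

/-- the parameters -/
def Okz (t : Bool) (r s : ZMod 2) (K : Finset ℕ) : Prop :=
  (t = false → r = 0 ∧ s = 0) ∧ (t = true → r ≠ 0 ∨ s ≠ 0) ∧
    ∀ a ∈ K, a < 120 ∧ (a % 4 = if s = 0 then 3 else 1) ∧ (a % 3 = if r = 0 then 1 else 2) ∧
      (if r = 0 then a % 5 = 1 ∨ a % 5 = 4 else a % 5 = 2 ∨ a % 5 = 3)

/-- Z1: the probability that a random completion is good, for a reciprocity law with an
additional term (`a` is `w` times the symbol of `-3`, `b` the symbol at `5`). -/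
def S_LAz : Prop := ∀ ε : ℝ, 0 < ε → ∃ V₀ : ℕ, ∀ (U J : Type) [Fintype U] [Fintype J]
  [LinearOrder J] (w u a b : U ⊕ J → ZMod 2) (N : U ⊕ J → U ⊕ J → ZMod 2),
  (∀ k, w (Sum.inr k) = 1) → ∑ i, u i = 1 → ∑ i, a i = 0 → ∑ i, b i = 0 →
  (∀ i j, i ≠ j → w i * N i j + w j * N j i = u i * u j + a i * b j + a j * b i) →
  (∀ v, w (Sum.inl v) = 0 → u (Sum.inl v) = 1 ∧ ∀ v', w (Sum.inl v') = 0 → v = v') →
  (∀ (c : U → ZMod 2) (s s' s'' : ZMod 2), ((∃ v, c v ≠ 0) ∨ s ≠ 0 ∨ s' ≠ 0 ∨ s'' ≠ 0) →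
    ∃ k, ∑ v, c v * N (Sum.inl v) (Sum.inr k) + s * u (Sum.inr k) + s' * a (Sum.inr k) +
      s'' * b (Sum.inr k) ≠ 0) →
  2 * Fintype.card U + V₀ ≤ (univ.filter fun k : J => u (Sum.inr k) = 1).card →
  |((univ.filter fun σ : ps J → ZMod 2 => Gv (pt N (sx σ))).card : ℝ) / 2 ^ (ps J).card - eta| ≤ ε

/-- the set without `3` and `5` -/
def mv (S : Finset ℕ) : Finset ℕ := S.filter fun p => p ≠ 3 ∧ p ≠ 5

/-- the statement of `Z2` for given `ε` and `V₀`: the count in a box. The set `S₀` contains `3` and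
`5`, which only serve in the labels; the class modulo `120` of the primes is `τ`. -/
def Boxz (ε : ℝ) (V₀ : ℕ) : Prop := ∀ (t : Bool) (r s : ZMod 2) (ι : Type)
  [Fintype ι] [LinearOrder ι] (τ : ι → ℕ) (C : ι → Finset ℕ) (X : ι → ℕ) (κ : ℝ) (S₀ : Finset ℕ),
  (t = false → r = 0 ∧ s = 0) → (t = true → r ≠ 0 ∨ s ≠ 0) → 0 ≤ κ → (∀ i, (C i).card ≤ X i) →
  HB C X κ → (∀ v ∈ S₀, Po v) → 3 ∈ S₀ → 5 ∈ S₀ →
  (∀ i, ∀ p ∈ C i, Po p ∧ p ∉ S₀ ∧ p % 120 = τ i) →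
  (∀ i l, i ≠ l → Disjoint (C i) (C l)) →
  ∑ p ∈ mv S₀, uu p + ∑ i, uu (τ i) + s = 1 →
  ∑ p ∈ mv S₀, al p + ∑ i, al (τ i) + r = 0 →
  ∑ p ∈ mv S₀, be r p + ∑ i, be r (τ i) + r = 0 →
  2 * S₀.card + V₀ ≤ (univ.filter fun i => τ i % 4 = 3).card →
  |(((Fintype.piFinset C).filter fun p => Nd S₀ (univ.image p) ∧
        Gz t r s (mv S₀ ∪ univ.image p)).card : ℝ) -
      eta * (((Fintype.piFinset C).filter fun p => Nd S₀ (univ.image p)).card : ℝ)| ≤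
    ε * (((Fintype.piFinset C).filter fun p => Nd S₀ (univ.image p)).card : ℝ) +
    2 ^ ((2 * S₀.card + 1) * Fintype.card ι + (ps ι).card) * (κ * ∏ j, (X j : ℝ))

/-- Z2: the count in a box. -/
def S_BOXz : Prop := S_EQ → S_LAz → ∀ ε : ℝ, 0 < ε → ∃ V₀ : ℕ, Boxz ε V₀

/-- the class of a set which contains `3` and `5` -/
def Clz (K S : Finset ℕ) : Prop :=
  (∀ p ∈ S, Po p) ∧ 3 ∈ S ∧ 5 ∈ S ∧ (∏ p ∈ mv S, p) % 120 ∈ K

/-- the sets of the class with product at most `X` -/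
noncomputable def SSz (K : Finset ℕ) (X : ℕ) : Finset (Finset ℕ) :=
  (range (X + 1)).powerset.filter fun S => Clz K S ∧ ∏ p ∈ S, p ≤ X

/-- the regular sets -/
noncomputable def RRz (K : Finset ℕ) (X z H k V : ℕ) : Finset (Finset ℕ) :=
  (SSz K X).filter fun S => Set.InjOn (jj H) (la z S : Set ℕ) ∧ S.card ≤ k ∧
    (∏ p ∈ sm z S, p) * ∏ p ∈ la z S, XX H (jj H p) ≤ X ∧
    2 * (sm z S).card + V ≤ ((la z S).filter fun p => p % 4 = 3).card

/-- Z3: the sum over the boxes. -/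
def S_KEYz : Prop := S_BIL → S_EQ → S_LAz → S_BOXz → ∀ ε : ℝ, 0 < ε → ∃ (V₀ : ℕ) (C : ℝ), 1 ≤ C ∧
  ∀ (t : Bool) (r s : ZMod 2) (K : Finset ℕ), Okz t r s K →
  ∀ (X z H k N : ℕ) (κ : ℝ), 1 ≤ X → 1 ≤ H → 5 ≤ z → 0 ≤ κ → C ≤ κ ^ 12 * z →
  (H : ℝ) * Real.log X < N →
  |(((RRz K X z H k V₀).filter fun S => Nd (sm z S) (la z S) ∧ Gz t r s (mv S)).card : ℝ) -
      eta * (((RRz K X z H k V₀).filter fun S => Nd (sm z S) (la z S)).card : ℝ)| ≤
    ε * ((RRz K X z H k V₀).card : ℝ) +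
    (120 * N + 120 : ℝ) ^ k * (3 ^ (9 * k ^ 2 + 9) * κ) * (X * (1 + Real.log X))

/-- Z4: the proportion of the good sets (among the sets which contain `3` and `5`) -/
def S_DQz' : Prop := ∀ (t : Bool) (r s : ZMod 2) (K : Finset ℕ), Okz t r s K →
  ∀ ε : ℝ, 0 < ε → ∃ X₀ : ℕ, ∀ X : ℕ, X₀ ≤ X →
  |(((SSz K X).filter fun S => Gz t r s (mv S)).card : ℝ) - eta * ((SSz K X).card : ℝ)| ≤ ε * X

/-- Z5: the proportion of the good sets (`3` and `5` are not in the sets, because of `Okz`) -/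
def S_DQz : Prop := ∀ (t : Bool) (r s : ZMod 2) (K : Finset ℕ), Okz t r s K →
  ∀ ε : ℝ, 0 < ε → ∃ X₀ : ℕ, ∀ X : ℕ, X₀ ≤ X →
  |(((SS K X).filter (Gz t r s)).card : ℝ) - eta * ((SS K X).card : ℝ)| ≤ ε * X

end Pool.Agent.T2h79.XM.Z
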