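import Pool.Agent.T2h79.XM.Z.S2
import Pool.Agent.T2h79.XM.Z.Stm
import Pool.Agent.T2h79.XM.Crit

/-!
# The second pair of isogenies: the linear algebra
-/

set_option autoImplicit false
set_option linter.unusedVariables false
set_option linter.unusedSectionVars false

namespace Pool.Agent.T2h79.XM.Z

open Finset
open Pool.Agent.T2h79.XM
open Pool.Agent.Y703.CQ (nr)
open Pool.Agent.N973.ND (uu)
open Pool.Agent.N916.GB (Po sy Vt Gd Gv z2 z2_add_self z2_sq nr_recip z2_eq_of_add)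
open Pool.Agent.N848.Q hiding star

open Pool.Agent.N848.Q renaming star → st

open scoped Classical

section

variable {n : ℕ} {t : Bool} {r s : ZMod 2}

/-- the column equation of the exponents of `e`, without local conditions -/
theorem col (hn : Squarefree n) (h4 : n % 4 = if s = 0 then 3 else 1)
    (hok : t = false → r = 0 ∧ s = 0)
    {e : ℤ} (he : Squarefree e) (he0 : 0 < e) (hdvd : e ∣ 2 * (n : ℤ)) (he2 : t = false → e % 2 = 1)
    {p : ℕ} (hp : p ∈ n.primeFactors) :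
    (¬ (p : ℤ) ∣ e → Lk t r s n.primeFactors (fun p => if (p : ℤ) ∣ e then 1 else 0) p = ns p e) ∧
    ∀ m' e' : ℤ, (((if r = 1 then 2 * n else n : ℕ)) : ℤ) = p * m' → e = p * e' →
      Lk t r s n.primeFactors (fun p => if (p : ℤ) ∣ e then 1 else 0) p = ns p (m' * e') := by
  set S := n.primeFactors with hSdef
  have hS : ∀ p ∈ S, Po p := po_of (odd_of h4)
  set M : ℕ := if r = 1 then 2 * n else n with hM
  have hMof : Dl r s * ∏ p ∈ S, st p = -(M : ℤ) := M_of hn h4
  set T : Finset ℕ := S.filter (fun p : ℕ => ((p : ℕ) : ℤ) ∣ e) with hT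
  have hTS : T ⊆ S := filter_subset _ _
  have h2T : (2 : ℕ) ∉ T := fun h => (hS 2 (hTS h)).2 rfl
  set x2 : ZMod 2 := if (2 : ℤ) ∣ e then 1 else 0 with hx2
  set x : ℕ → ZMod 2 := fun p => if (p : ℤ) ∣ e then 1 else 0 with hx
  have hxT : ∀ p ∈ S, x p = if p ∈ T then 1 else 0 := by
    intro p hp
    simp only [hx, hT, mem_filter, hp, true_and]
  have hx22 : x 2 = x2 := rfl
  -- the value of `e`
  have heT : e = (if (2 : ℤ) ∣ e then 2 else 1) * ∏ p ∈ T, (p : ℤ) := by
    have h1 : (e.natAbs : ℤ) = e := Int.natAbs_of_nonneg he0.le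
    have hsq : Squarefree e.natAbs := Int.squarefree_natAbs.2 he
    have hT2 : e.natAbs.primeFactors = (if (2 : ℤ) ∣ e then insert 2 T else T) := by
      ext p
      rw [Nat.mem_primeFactors]
      have hpe : ∀ {p : ℕ}, p ∣ e.natAbs ↔ (p : ℤ) ∣ e := fun {p} => Int.natCast_dvd.symm
      have h3 : ∀ p : ℕ, p.Prime → p ≠ 2 → (p : ℤ) ∣ e → p ∈ T := by
        intro p hp hp2 h
        rw [hT, mem_filter, hSdef, Nat.mem_primeFactors]
        refine ⟨⟨hp, ?_, hn.ne_zero⟩, h⟩
        have h4 : (p : ℤ) ∣ 2 * (n : ℤ) := h.trans hdvd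
        have h5 : p ∣ 2 * n := by exact_mod_cast h4
        rcases hp.dvd_mul.1 h5 with h6 | h6
        · exact absurd ((Nat.prime_dvd_prime_iff_eq hp Nat.prime_two).1 h6) hp2
        · exact h6
      have h3' : ∀ p ∈ T, p.Prime ∧ (p : ℤ) ∣ e := fun p hp =>
        ⟨(hS p (hTS hp)).1, (mem_filter.1 hp).2⟩
      have hne0 : e.natAbs ≠ 0 := hsq.ne_zero
      by_cases h2 : (2 : ℤ) ∣ e
      · rw [if_pos h2, mem_insert]
        constructor
        · rintro ⟨h5, h6, -⟩
          by_cases hp2 : p = 2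
          · exact Or.inl hp2
          · exact Or.inr (h3 p h5 hp2 (hpe.1 h6))
        · rintro (rfl | h5)
          · exact ⟨Nat.prime_two, hpe.2 h2, hne0⟩
          · exact ⟨(h3' p h5).1, hpe.2 (h3' p h5).2, hne0⟩
      · rw [if_neg h2]
        constructor
        · rintro ⟨h5, h6, -⟩
          by_cases hp2 : p = 2
          · subst hp2
            exact absurd (hpe.1 h6) h2
          · exact h3 p h5 hp2 (hpe.1 h6)
        · intro h5
          exact ⟨(h3' p h5).1, hpe.2 (h3' p h5).2, hne0⟩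
    have h5 : (e.natAbs : ℤ) = ∏ p ∈ e.natAbs.primeFactors, (p : ℤ) := by
      rw [← Nat.cast_prod, Nat.prod_primeFactors_of_squarefree hsq]
    rw [hT2, h1] at h5
    by_cases h2 : (2 : ℤ) ∣ e
    · rw [if_pos h2, prod_insert h2T] at h5
      rw [if_pos h2]
      exact_mod_cast h5
    · rw [if_neg h2] at h5
      rw [if_neg h2, one_mul]
      exact h5
  -- the symbols of `2^{x2}`
  have hns2 : ∀ q : ℕ, Po q → ns q (if (2 : ℤ) ∣ e then 2 else 1) = x2 * nr q 2 := by
    intro q hq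
    by_cases h2 : (2 : ℤ) ∣ e
    · rw [if_pos h2, hx2, if_pos h2, one_mul]
      exact ns_nat q 2
    · rw [if_neg h2, hx2, if_neg h2, zero_mul, ns_one]
  have hnd2 : ∀ q : ℕ, Po q → ¬ (q : ℤ) ∣ (if (2 : ℤ) ∣ e then 2 else 1) := by
    intro q hq
    by_cases h2 : (2 : ℤ) ∣ e
    · rw [if_pos h2]
      intro h
      exact hq.2 ((Nat.prime_dvd_prime_iff_eq hq.1 Nat.prime_two).1 (by exact_mod_cast h))
    · rw [if_neg h2]
      intro h
      exact hq.1.one_lt.ne' (Nat.dvd_one.1 (by exact_mod_cast h))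
  have hndp : ∀ q : ℕ, Po q → ∀ T' : Finset ℕ, (∀ p ∈ T', Po p) → q ∉ T' →
      ¬ (q : ℤ) ∣ ∏ p ∈ T', (p : ℤ) := by
    intro q hq T' hT' hqT h
    obtain ⟨p, hp, h3⟩ := ((Nat.prime_iff_prime_int.1 hq.1).dvd_finsetProd_iff _).1 h
    have h6 := (Nat.prime_dvd_prime_iff_eq hq.1 (hT' p hp).1).1 (by exact_mod_cast h3)
    exact hqT (h6 ▸ hp)
  have hp' := hS p hp
  rw [Lk_odd hS x hp, sum_Vt hS]
  have h1 : ∑ q ∈ S, (x q + x p) * sy r s p q =
      ∑ q ∈ S, ((if q ∈ T then (1 : ZMod 2) else 0) + (if p ∈ T then 1 else 0)) * sy r s p q := by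
    refine sum_congr rfl fun q hq => ?_
    rw [hxT q hq, hxT p hp]
  have h2 : ∑ q ∈ S, uu q * x q = ∑ q ∈ T, uu q := by
    rw [hT, sum_filter]
    refine sum_congr rfl fun q hq => ?_
    simp only [hx]
    split_ifs
    · rw [mul_one]
    · rw [mul_zero]
  have h3 := row_eq (r := r) (s := s) hS hok hTS hp
  rw [sum_Vt hS, if_neg h2T] at h3
  rw [h1, h2, hxT p hp, hx22, sy_two]
  rw [sy_two] at h3
  by_cases hpT : p ∈ T
  · rw [if_pos hpT] at h3 ⊢
    rw [if_pos hpT] at h3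
    -- `e = p e'`
    refine ⟨fun h => absurd (mem_filter.1 hpT).2 h, fun m' e' hm' he' => ?_⟩
    have hpp : Prime (p : ℤ) := Nat.prime_iff_prime_int.1 hp'.1
    -- `2^{x2} m' e' = - sign * D2 * e'^2`
    set Q := Dl r s * ∏ q ∈ S \ T, st q with hQ
    have hQnd : ¬ (p : ℤ) ∣ Q := by
      rw [hQ]
      intro h
      rcases hpp.dvd_or_dvd h with h | h
      · exact not_dvd_Dl hp' h
      · exact not_dvd_prod_star hp' _ (fun q hq => hS q (mem_sdiff.1 hq).1)
          (fun h => (mem_sdiff.1 h).2 hpT) h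
    have hQM : Q * ∏ q ∈ T, st q = -(M : ℤ) := by
      rw [← hMof, hQ, ← prod_sdiff hTS]
      ring
    rw [prod_star_sign] at hQM
    have he'nd : ¬ (p : ℤ) ∣ e' := by
      rintro ⟨f, hf⟩
      exact hpp.not_isUnit (he p ⟨f, by rw [he', hf]; ring⟩)
    have hm'nd : ¬ (p : ℤ) ∣ m' := by
      rintro ⟨f, hf⟩
      have h6 : p * p ∣ M := by
        have : ((p * p : ℕ) : ℤ) ∣ (M : ℤ) := by
          rw [hm', hf]; push_cast; exact ⟨f, by ring⟩
        exact_mod_cast this
      have h7 : p * p ∣ n := by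
        rw [hM] at h6
        split_ifs at h6
        · refine (Nat.Coprime.dvd_of_dvd_mul_left ?_ h6)
          have : Nat.Coprime p 2 := (Nat.coprime_primes hp'.1 Nat.prime_two).2 hp'.2
          exact Nat.Coprime.mul_left this this
        · exact h6
      exact hp'.1.prime.not_isUnit (hn p h7)
    have h8 : (if (2 : ℤ) ∣ e then (2 : ℤ) else 1) * (m' * e') =
        (-1) * (if ∑ q ∈ T, uu q = 0 then (1 : ℤ) else -1) * Q * e' ^ 2 := by
      set σ : ℤ := if ∑ q ∈ T, uu q = 0 then (1 : ℤ) else -1 with hσ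
      set τ : ℤ := if (2 : ℤ) ∣ e then (2 : ℤ) else 1 with hτ
      set P0 := ∏ q ∈ T, (q : ℤ) with hP0
      -- `Q σ P0 = - p m'`, `p e' = τ P0`
      have h9 : (p : ℤ) * (τ * (m' * e')) = p * ((-1) * σ * Q * e' ^ 2) := by
        have e1 : Q * (σ * P0) = -(p * m') := by rw [← hm']; exact hQM
        have e2 : (p : ℤ) * e' = τ * P0 := by rw [← he']; exact heT
        linear_combination (τ * e') * e1 + (Q * σ * e') * e2
      exact mul_left_cancel₀ hpp.ne_zero h9
    have h10 := congrArg (ns p) h8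
    have hneg1 : ¬ (p : ℤ) ∣ -1 := by
      rw [dvd_neg]
      intro h2
      exact hp'.1.one_lt.ne' (Nat.dvd_one.1 (by exact_mod_cast h2))
    have nd2 : ∀ {a b : ℤ}, ¬ (p : ℤ) ∣ a → ¬ (p : ℤ) ∣ b → ¬ (p : ℤ) ∣ a * b :=
      fun ha hb h => (hpp.dvd_or_dvd h).elim ha hb
    have hσnd : ¬ (p : ℤ) ∣ (if ∑ q ∈ T, uu q = 0 then (1 : ℤ) else -1) := by
      split_ifs
      · rwa [dvd_neg] at hneg1
      · exact hneg1
    have hσns : ns p (if ∑ q ∈ T, uu q = 0 then (1 : ℤ) else -1) = (∑ q ∈ T, uu q) * uu p := by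
      rcases z2 (∑ q ∈ T, uu q) with h | h
      · rw [h, if_pos rfl, ns_one, zero_mul]
      · rw [h, if_neg one_ne_zero, ns_neg_one hp'.1, one_mul]
    rw [ns_mul hp'.1 (hnd2 p hp') (nd2 hm'nd he'nd), hns2 p hp', 
      ns_mul hp'.1 (nd2 (nd2 hneg1 hσnd) hQnd) (fun h => he'nd (hpp.dvd_of_dvd_pow h)),
      ns_mul hp'.1 (nd2 hneg1 hσnd) hQnd, ns_mul hp'.1 hneg1 hσnd, hσns,
      ns_neg_one hp'.1, ns_sq.2 (sq_sq e'), add_zero] at h10
    -- combine
    by_cases ht : t = true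
    · rw [if_pos ht, if_pos ht]
      rw [if_pos ht] at h3
      linear_combination h3 + h10 + (x2 * (r * nr p 2 + s * uu p)) * two0 +
        ((∑ q ∈ T, uu q) * uu p + uu p + ns p Q) * two0 - (ns p (m' * e')) * two0
    · obtain ⟨hr, hs⟩ := hok (by simpa using ht)
      rw [if_neg ht, if_neg ht]
      rw [if_neg ht] at h3
      have hx20 : x2 = 0 := by
        rw [hx2, if_neg]
        intro h
        have := he2 (by simpa using ht)
        omega
      rw [hx20] at h10
      linear_combination h3 + h10 + ((∑ q ∈ T, uu q) * uu p + uu p + ns p Q) * two0 -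
        (ns p (m' * e')) * two0
  · rw [if_neg hpT] at h3 ⊢
    rw [if_neg hpT] at h3
    have hpe : ¬ (p : ℤ) ∣ e := fun h => hpT (mem_filter.2 ⟨hp, h⟩)
    refine ⟨fun _ => ?_, fun m' e' _ he' => absurd (Dvd.intro _ he'.symm) hpe⟩
    have h6 : ns p e = x2 * nr p 2 + (∑ q ∈ T, nr q p + (∑ q ∈ T, uu q) * uu p) := by
      conv_lhs => rw [heT]
      rw [ns_mul hp'.1 (hnd2 p hp') (hndp p hp' T (fun q hq => hS q (hTS hq)) hpT),
        hns2 p hp', ns_prod_ite hp' T (fun q hq => hS q (hTS hq)) hpT]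
    rw [ns_prod_star hp' T (fun q hq => hS q (hTS hq)) hpT] at h3
    by_cases ht : t = true
    · rw [if_pos ht, if_pos ht]
      rw [if_pos ht] at h3
      linear_combination h3 - h6 + (x2 * (r * nr p 2 + s * uu p)) * two0
    · rw [if_neg ht, if_neg ht]
      rw [if_neg ht] at h3
      have hx20 : x2 = 0 := by
        rw [hx2, if_neg]
        intro h
        have := he2 (by simpa using ht)
        omega
      rw [hx20] at h6
      linear_combination h3 - h6

end

end Pool.Agent.T2h79.XM.Z
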