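import Pool.Agent.T2h79.XM.Z.Two
import Pool.Agent.T2h79.XM.S1

/-!
# The second pair of isogenies: the first descent map
-/

set_option autoImplicit false
set_option linter.unusedVariables false
set_option linter.unusedSectionVars false

namespace Pool.Agent.T2h79.XM.Z

open Pool.Agent.T2h79.XM

lemma sq5_of {m : ℤ} (h : m % 5 = 1 ∨ m % 5 = 4) : Sq 5 m := by
  have e1 : (m : ZMod 5) = ((m % ((5 : ℕ) : ℤ) : ℤ) : ZMod 5) := (ZMod.intCast_mod m 5).symm
  unfold Sq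
  rw [e1]
  rcases h with h | h
  · rw [show m % ((5 : ℕ) : ℤ) = 1 from h]
    exact ⟨1, by decide⟩
  · rw [show m % ((5 : ℕ) : ℤ) = 4 from h]
    exact ⟨2, by decide⟩

section

variable {m a b c d k : ℤ} (hsq : Squarefree m) (hco : IsCoprime a b) (hc : c ≠ 0)
  (had : a = d * k ^ 2) (hd : Squarefree d)
  (h : a * (a + 1 * m * b ^ 2) * (a + 81 * m * b ^ 2) = c ^ 2)

include hc h in
lemma a_nez : a ≠ 0 := by
  rintro rfl
  apply hc
  have : c ^ 2 = 0 := by rw [← h]; ring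
  exact pow_eq_zero_iff (two_ne_zero) |>.1 this

include hsq hco hc had hd h

/-- the odd primes not dividing `15 m` -/
lemma s1z_unr {p : ℕ} (hp : p.Prime) (hp2 : p ≠ 2) (hp3 : p ≠ 3) (hpm : ¬ (p : ℤ) ∣ m) :
    p ≠ 5 → ¬ (p : ℤ) ∣ d := by
  intro hp5
  have hpp : Prime (p : ℤ) := Nat.prime_iff_prime_int.1 hp
  obtain ⟨α, u, k', h1, h2, hk', h4⟩ := dec hp (a_nez hc h) had hd
  have nd2 : ∀ {a b : ℤ}, ¬ (p : ℤ) ∣ a → ¬ (p : ℤ) ∣ b → ¬ (p : ℤ) ∣ a * b :=
    fun ha hb h => (hpp.dvd_or_dvd h).elim ha hb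
  have key : Even α → ¬ (p : ℤ) ∣ d := by
    intro he
    rcases h4 with h4 | h4
    · exact h4.2.1
    · exact absurd he h4.1
  refine key ?_
  rcases Nat.eq_zero_or_pos α with h0 | h0
  · rw [h0]; exact Even.zero
  have hpa : (p : ℤ) ∣ a := by
    rw [h1]
    exact (dvd_pow_self _ h0.ne').mul_right _
  have hb : ¬ (p : ℤ) ∣ b := b_ndvd hco hp hpa
  have h9 : ¬ (p : ℤ) ∣ 9 * b := by
    refine nd2 ?_ hb
    have h3 : ¬ (p : ℤ) ∣ ((3 : ℕ) : ℤ) := by
      refine not_dvd_num (n := 3) hp ?_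
      intro q hq hq3
      rw [(Nat.prime_dvd_prime_iff_eq hq Nat.prime_three).1 hq3]
      exact hp3
    exact nd2 (a := 3) (b := 3) h3 h3
  refine core_unr hp (α := α) (u := u) (x := m * b ^ 2) (y := m * (9 * b) ^ 2) (c := c)
    h0 h2 (nd2 hpm fun h => hb (hpp.dvd_of_dvd_pow h))
    (nd2 hpm fun h => h9 (hpp.dvd_of_dvd_pow h)) ?_
  rw [← h1, ← h]
  ring

/-- the prime five -/
lemma s1z_five (h5 : m % 5 = 1 ∨ m % 5 = 4) : ¬ (5 : ℤ) ∣ d ∧ Sq 5 d := by
  have hneg : (-m) % 5 = 1 ∨ (-m) % 5 = 4 := by omega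
  have hm : ¬ ((5 : ℕ) : ℤ) ∣ m := by
    intro hm
    have : (5 : ℤ) ∣ m := hm
    omega
  have hp := Nat.prime_five
  have hpp : Prime ((5 : ℕ) : ℤ) := Nat.prime_iff_prime_int.1 hp
  obtain ⟨α, u, k', h1, h2, hk', h4⟩ := dec hp (a_nez hc h) had hd
  have nd2 : ∀ {a b : ℤ}, ¬ ((5 : ℕ) : ℤ) ∣ a → ¬ ((5 : ℕ) : ℤ) ∣ b → ¬ ((5 : ℕ) : ℤ) ∣ a * b :=
    fun ha hb h => (hpp.dvd_or_dvd h).elim ha hb
  -- the key fact
  have key : Even α ∧ Sq 5 u := by
    rcases Nat.eq_zero_or_pos α with h0 | h0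
    · subst h0
      refine ⟨Even.zero, ?_⟩
      have e : a = u := by rw [h1]; ring
      by_cases hA : ((5 : ℕ) : ℤ) ∣ u + m * b ^ 2
      · -- `u = - m b²`
        have h6 : ¬ ((5 : ℕ) : ℤ) ∣ b := by
          intro hb
          apply h2
          have : u = (u + m * b ^ 2) - b * (m * b) := by ring
          rw [this]
          exact dvd_sub hA (hb.mul_right _)
        have h7 : Sq 5 (-m * b ^ 2) := by
          obtain ⟨r, hr⟩ : Sq 5 (-m) := sq5_of hneg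
          refine ⟨r * b, ?_⟩
          push_cast at hr ⊢
          rw [hr]
          ring
        refine (sq_congr ?_).2 h7
        have : u - -m * b ^ 2 = u + m * b ^ 2 := by ring
        rw [this]
        exact hA
      · refine sq_cancel hp hA ?_
        have h5' : ((5 : ℕ) : ℤ) ∣ u * (u + m * b ^ 2) ^ 2 - c ^ 2 := by
          rw [← h, e]
          exact ⟨-(u * (u + m * b ^ 2) * (16 * m * b ^ 2)), by push_cast; ring⟩
        exact (sq_congr h5').2 (sq_sq _)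
    · have hpa : ((5 : ℕ) : ℤ) ∣ a := by
        rw [h1]
        exact (dvd_pow_self _ h0.ne').mul_right _
      have hb : ¬ ((5 : ℕ) : ℤ) ∣ b := b_ndvd hco hp hpa
      have hA : ¬ ((5 : ℕ) : ℤ) ∣ a + m * b ^ 2 := by
        intro hA
        have : m * b ^ 2 = (a + m * b ^ 2) - a := by ring
        have h6 : ((5 : ℕ) : ℤ) ∣ m * b ^ 2 := by
          rw [this]
          exact dvd_sub hA hpa
        exact nd2 hm (fun h => hb (hpp.dvd_of_dvd_pow h)) h6
      have hB : ¬ ((5 : ℕ) : ℤ) ∣ a + 81 * m * b ^ 2 := by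
        intro hB
        apply hA
        have : a + m * b ^ 2 = (a + 81 * m * b ^ 2) - ((5 : ℕ) : ℤ) * (16 * m * b ^ 2) := by
          push_cast; ring
        rw [this]
        exact dvd_sub hB (dvd_mul_right _ _)
      have h6 : ((5 : ℕ) : ℤ) ^ α * (u * (a + m * b ^ 2) * (a + 81 * m * b ^ 2)) = c ^ 2 := by
        rw [← h]
        conv_rhs => rw [show a * (a + 1 * m * b ^ 2) * (a + 81 * m * b ^ 2) =
          a * ((a + m * b ^ 2) * (a + 81 * m * b ^ 2)) by ring]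
        conv_rhs => rw [h1]
        have e2 : ∀ P Q R S : ℤ, P * (Q * R * S) = P * Q * (R * S) := by intros; ring
        rw [e2]
        have e3 : a = ((5 : ℕ) : ℤ) ^ α * u := h1
        rw [← e3]
      obtain ⟨h7, w, hw⟩ := split_sq hp (nd2 (nd2 h2 hA) hB) h6
      refine ⟨h7, sq_cancel hp hA ?_⟩
      have h8 : ((5 : ℕ) : ℤ) ∣ u * (a + m * b ^ 2) ^ 2 - w ^ 2 := by
        rw [← hw]
        exact ⟨-(u * (a + m * b ^ 2) * (16 * m * b ^ 2)), by push_cast; ring⟩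
      exact (sq_congr h8).2 (sq_sq _)
  rcases h4 with ⟨he, h4, hu⟩ | ⟨he, d', hd', h4, hu⟩
  · refine ⟨h4, ?_⟩
    have h6 := key.2
    rw [hu] at h6
    exact sq_cancel hp hk' h6
  · exact absurd key.1 he

/-- the odd primes dividing `m` -/
lemma s1z_ram {p : ℕ} (hp : p.Prime) (hp2 : p ≠ 2) (hp3 : p ≠ 3) {m' : ℤ} (hpm : m = p * m') :
    (¬ (p : ℤ) ∣ d → Sq p d) ∧ ∀ d', d = p * d' → Sq p (-m' * d') := by
  have hpp : Prime (p : ℤ) := Nat.prime_iff_prime_int.1 hp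
  obtain ⟨α, u, k', h1, h2, hk', h4⟩ := dec hp (a_nez hc h) had hd
  have nd2 : ∀ {a b : ℤ}, ¬ (p : ℤ) ∣ a → ¬ (p : ℤ) ∣ b → ¬ (p : ℤ) ∣ a * b :=
    fun ha hb h => (hpp.dvd_or_dvd h).elim ha hb
  have hm' : ¬ (p : ℤ) ∣ m' := by
    rintro ⟨e, rfl⟩
    have := hsq (p : ℤ) ⟨e, by rw [hpm]; ring⟩
    exact hpp.not_isUnit this
  have key : (Even α ∧ Sq p u) ∨ (¬ Even α ∧ Sq p (-m' * u)) := by
    rcases Nat.eq_zero_or_pos α with h0 | h0
    · subst h0
      left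
      refine ⟨Even.zero, sq_cancel hp h2 ?_⟩
      have h5 : (p : ℤ) ∣ u * u ^ 2 - c ^ 2 := by
        have e : a = u := by rw [h1]; ring
        rw [← h, e, hpm]
        exact ⟨-(u * (m' * b ^ 2 * (u + 81 * p * m' * b ^ 2) + u * (81 * m' * b ^ 2))), by ring⟩
      exact (sq_congr h5).2 (sq_sq _)
    have hpa : (p : ℤ) ∣ a := by
      rw [h1]
      exact (dvd_pow_self _ h0.ne').mul_right _
    have hb : ¬ (p : ℤ) ∣ b := b_ndvd hco hp hpa
    have h9 : ¬ (p : ℤ) ∣ 9 * b := by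
      refine nd2 ?_ hb
      have h3 : ¬ (p : ℤ) ∣ ((3 : ℕ) : ℤ) := by
        refine not_dvd_num (n := 3) hp ?_
        intro q hq hq3
        rw [(Nat.prime_dvd_prime_iff_eq hq Nat.prime_three).1 hq3]
        exact hp3
      exact nd2 (a := 3) (b := 3) h3 h3
    refine core_ram hp (α := α) (u := u) (x := m' * b ^ 2) (y := m' * (9 * b) ^ 2)
      (m' := m') (s1 := b) (s2 := 9 * b) (c := c) (ν := 1) (Or.inl rfl) h2 hm' hb h9
      rfl rfl h0 ?_
    rw [← h1, ← h, hpm]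
    ring
  rcases h4 with ⟨he, h4, hu⟩ | ⟨he, d', hd', h4, hu⟩
  · refine ⟨fun _ => ?_, fun d' hd' => absurd (Dvd.intro _ hd'.symm) h4⟩
    rcases key with ⟨_, h6⟩ | ⟨h6, _⟩
    · rw [hu] at h6
      exact sq_cancel hp hk' h6
    · exact absurd he h6
  · refine ⟨fun h => absurd (Dvd.intro _ hd'.symm) h, fun d'' hd'' => ?_⟩
    have e : d'' = d' := by
      have : (p : ℤ) * d'' = p * d' := by rw [← hd'', hd']
      exact mul_left_cancel₀ hpp.ne_zero this
    subst e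
    rcases key with ⟨h6, _⟩ | ⟨_, h6⟩
    · exact absurd h6 he
    · rw [hu] at h6
      refine sq_cancel hp hk' (?_ : Sq p (-m' * d'' * k' ^ 2))
      rw [mul_assoc]
      exact h6

/-- the prime two -/
lemma s1z_two : (m % 2 = 1 → d % 2 = 1) ∧ (m % 4 = 3 → d % 4 = 1) ∧
    (m % 4 = 1 → d % 8 = 1 ∨ (d + m) % 8 = 0) ∧
    (m % 2 = 0 → (d % 2 = 1 → d % 8 = 1) ∧ (d % 2 = 0 → (m / 2 * (d / 2) + 1) % 8 = 0)) := by
  obtain ⟨α, u, k', h1, h2, hk', h4⟩ := dec Nat.prime_two (a_nez hc h) had hd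
  have hu2 : u % 2 = 1 := by
    have : ¬ (2 : ℤ) ∣ u := h2
    omega
  have hk2 : k' % 2 = 1 := by
    have : ¬ (2 : ℤ) ∣ k' := hk'
    omega
  have hm4 : m % 4 ≠ 0 := by
    intro h0
    have h6 := hsq 2 (by
      have : (4 : ℤ) ∣ m := by omega
      exact this)
    rw [Int.isUnit_iff] at h6
    omega
  have h0 : α = 0 ∨ b % 2 = 1 := by
    rcases Nat.eq_zero_or_pos α with h0 | h0
    · exact Or.inl h0
    · right
      have hpa : ((2 : ℕ) : ℤ) ∣ a := by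
        rw [h1]
        exact (dvd_pow_self _ h0.ne').mul_right _
      have hb : ¬ (2 : ℤ) ∣ b := b_ndvd hco Nat.prime_two hpa
      omega
  obtain ⟨c1, c2, c3, c4⟩ := core_twoz (α := α) (u := u) (m := m) (b := b) (c := c) hu2 h0 hm4 hc
    (by rw [← h, h1]; push_cast; ring)
  obtain ⟨t, ht⟩ : ∃ t, k' ^ 2 = 8 * t + 1 := ⟨k' ^ 2 / 8, by have := odd_sq hk2; omega⟩
  rcases h4 with ⟨he, h4, hu⟩ | ⟨he, d', hd', h4, hu⟩
  · have e : u = d + 8 * (d * t) := by rw [hu, ht]; ring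
    have hd2 : d % 2 = 1 := by
      have : ¬ (2 : ℤ) ∣ d := h4
      omega
    refine ⟨fun _ => hd2, fun h => ?_, fun h => ?_, fun h => ⟨fun _ => ?_, fun h' => ?_⟩⟩
    · have := c2 h; omega
    · rcases c3 h with h7 | h7
      · left; omega
      · right; omega
    · have := (c4 h).1 he; omega
    · omega
  · have e : u = d' + 8 * (d' * t) := by rw [hu, ht]; ring
    have hd2 : d % 2 = 0 := by rw [hd']; push_cast; omega
    have hm1 : m % 2 = 1 → False := fun h => he (c1 h)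
    refine ⟨fun h => (hm1 h).elim, fun h => (hm1 (by omega)).elim, fun h => (hm1 (by omega)).elim,
      fun h => ⟨fun h' => by omega, fun _ => ?_⟩⟩
    have h7 := (c4 h).2 he
    have e2 : d / 2 = d' := by rw [hd']; push_cast; omega
    rw [e2]
    have e3 : m / 2 * u + 1 = m / 2 * d' + 1 + 8 * (m / 2 * (d' * t)) := by rw [e]; ring
    rw [e3] at h7
    omega

/-- `d` divides `3 m` -/
lemma s1z_dvd (h5 : m % 5 = 1 ∨ m % 5 = 4) : d ∣ 3 * m := by
  refine dvd_of_primes hd fun p hp hpd => ?_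
  by_contra hpm
  have hpp : Prime (p : ℤ) := Nat.prime_iff_prime_int.1 hp
  have hpm' : ¬ (p : ℤ) ∣ m := fun h => hpm (h.mul_left _)
  by_cases hp2 : p = 2
  · subst hp2
    have h1 := (s1z_two hsq hco hc had hd h).1
    have h2 : ¬ (2 : ℤ) ∣ m := hpm'
    have h4 : (2 : ℤ) ∣ d := hpd
    have := h1 (by omega)
    omega
  · by_cases hp3 : p = 3
    · subst hp3
      exact hpm (dvd_mul_right _ _)
    · by_cases hp5 : p = 5
      · subst hp5
        exact (s1z_five hsq hco hc had hd h h5).1 hpd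
      · exact s1z_unr hsq hco hc had hd h hp hp2 hp3 hpm' hp5 hpd

end

end Pool.Agent.T2h79.XM.Z
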