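import Pool.Agent.T2h79.XM.Z.S1
import Pool.Agent.T2h79.XM.S2

/-!
# The second pair of isogenies: the second descent map
-/

set_option autoImplicit false
set_option linter.unusedVariables false
set_option linter.unusedSectionVars false

namespace Pool.Agent.T2h79.XM.Z

open Pool.Agent.T2h79.XM

section

variable {m s z e k l : ℤ} (hsq : Squarefree m) (hco : IsCoprime s z) (he : Squarefree e)
  (hA : s ^ 2 + 1 * m * z ^ 2 = e * k ^ 2) (hB : s ^ 2 + 81 * m * z ^ 2 = e * l ^ 2)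

include hsq hco he hA hB

/-- the primes of `e` -/
lemma s2z_prime {p : ℕ} (hp : p.Prime) (hp2 : p ≠ 2) (hp5 : p ≠ 5) (hpe : (p : ℤ) ∣ e) :
    (p : ℤ) ∣ m := by
  have hpp : Prime (p : ℤ) := Nat.prime_iff_prime_int.1 hp
  have h1 : (p : ℤ) ∣ 80 * m * z ^ 2 := by
    have : 80 * m * z ^ 2 = e * (l ^ 2 - k ^ 2) := by linear_combination hB - hA
    rw [this]
    exact hpe.mul_right _
  by_contra hpm
  have h2 : (p : ℤ) ∣ z := by
    rcases hpp.dvd_or_dvd h1 with h | h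
    · rcases hpp.dvd_or_dvd h with h | h
      · exfalso
        have h3 : p ∣ 80 := Int.natCast_dvd_natCast.1 (by exact_mod_cast h)
        have h4 : p ∣ 2 ^ 4 * 5 := by norm_num; exact h3
        rcases hp.dvd_mul.1 h4 with h | h
        · exact hp2 ((Nat.prime_dvd_prime_iff_eq hp Nat.prime_two).1 (hp.dvd_of_dvd_pow h))
        · exact hp5 ((Nat.prime_dvd_prime_iff_eq hp Nat.prime_five).1 h)
      · exact absurd h hpm
    · exact hpp.dvd_of_dvd_pow h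
  have h3 : (p : ℤ) ∣ s := by
    refine hpp.dvd_of_dvd_pow (n := 2) ?_
    have : s ^ 2 = e * k ^ 2 - z * (m * z) := by linear_combination hA
    rw [this]
    exact dvd_sub (hpe.mul_right _) (h2.mul_right _)
  exact hpp.not_isUnit (hco.isUnit_of_dvd' h3 h2)

/-- `e` is odd if `m` is `3` modulo `4` -/
lemma s2z_odd (h4 : m % 4 = 3) : e % 2 = 1 := by
  by_contra hcon
  obtain ⟨f, rfl⟩ : ∃ f, e = 2 * f := ⟨e / 2, by omega⟩
  have hf : f % 2 = 1 := by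
    by_contra hf
    have h1 := he 2 (by
      have : (4 : ℤ) ∣ 2 * f := by omega
      exact this)
    rw [Int.isUnit_iff] at h1
    omega
  -- `s` and `z` are odd
  have hev : (s ^ 2 + 1 * m * z ^ 2) % 2 = 0 := by
    rw [hA]
    have : 2 * f * k ^ 2 = 2 * (f * k ^ 2) := by ring
    rw [this]; omega
  have hsz : s % 2 = 1 ∧ z % 2 = 1 := by
    have h9 : (1 * m) % 2 = 1 := by omega
    rcases (by omega : s % 2 = 1 ∨ s % 2 = 0) with hs | hs <;>
      rcases (by omega : z % 2 = 1 ∨ z % 2 = 0) with hz | hz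
    · exact ⟨hs, hz⟩
    · exfalso
      have : (s ^ 2 + 1 * m * z ^ 2) % 2 = 1 := by
        simp [pow_two, Int.add_emod, Int.mul_emod, hs, hz]
      omega
    · exfalso
      have e1 : (m % 2) = 1 := by omega
      have : (s ^ 2 + 1 * m * z ^ 2) % 2 = 1 := by
        simp [pow_two, Int.add_emod, Int.mul_emod, hs, hz, e1]
      omega
    · exfalso
      have h1 : (2 : ℤ) ∣ s := by omega
      have h2 : (2 : ℤ) ∣ z := by omega
      have h3 := hco.isUnit_of_dvd' h1 h2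
      rw [Int.isUnit_iff] at h3
      omega
  obtain ⟨a, ha⟩ : ∃ a, s ^ 2 = 8 * a + 1 := ⟨s ^ 2 / 8, by have := odd_sq hsz.1; omega⟩
  obtain ⟨b, hb⟩ : ∃ b, z ^ 2 = 8 * b + 1 := ⟨z ^ 2 / 8, by have := odd_sq hsz.2; omega⟩
  have e1 : s ^ 2 + 1 * m * z ^ 2 = 8 * a + 1 + 1 * m + 8 * (1 * m * b) := by rw [ha, hb]; ring
  -- a value `2 f k²` which is `0` modulo `4` is `0` modulo `8`
  have hpar : ∀ k : ℤ, (2 * f * k ^ 2) % 4 = 0 → k % 2 = 0 := by
    intro k hk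
    by_contra hk2
    have h1 : k % 2 = 1 := by omega
    obtain ⟨c, hc⟩ : ∃ c, k ^ 2 = 8 * c + 1 := ⟨k ^ 2 / 8, by have := odd_sq h1; omega⟩
    rw [hc] at hk
    have : 2 * f * (8 * c + 1) = 2 * f + 8 * (2 * (f * c)) := by ring
    rw [this] at hk
    omega
  obtain ⟨k', rfl⟩ : ∃ k', k = 2 * k' := by
    refine ⟨k / 2, ?_⟩
    have := hpar k (by rw [← hA, e1]; omega)
    omega
  obtain ⟨l', rfl⟩ : ∃ l', l = 2 * l' := by
    refine ⟨l / 2, ?_⟩
    have := hpar l (by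
      rw [← hB]
      have : s ^ 2 + 81 * m * z ^ 2 = s ^ 2 + 1 * m * z ^ 2 + 4 * (20 * m * z ^ 2) := by ring
      rw [this, e1]; omega)
    omega
  -- `f (l'² - k'²) = 10 m z²`
  have h5 : f * (l' ^ 2 - k' ^ 2) = 10 * (m * z ^ 2) := by
    have : 8 * (f * (l' ^ 2 - k' ^ 2)) = 8 * (10 * (m * z ^ 2)) := by linear_combination hA - hB
    omega
  have h6 : (m * z ^ 2) % 2 = 1 := by
    have : m * z ^ 2 = m + 8 * (m * b) := by rw [hb]; ring
    rw [this]; omega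
  have h7 : (l' ^ 2 - k' ^ 2) % 4 = 2 := by
    have hD : (l' ^ 2 - k' ^ 2) % 4 = 0 ∨ (l' ^ 2 - k' ^ 2) % 4 = 1 ∨ (l' ^ 2 - k' ^ 2) % 4 = 2 ∨
      (l' ^ 2 - k' ^ 2) % 4 = 3 := by omega
    have h8 : (f * (l' ^ 2 - k' ^ 2)) % 4 = 2 := by rw [h5]; omega
    have hf4 : f % 4 = 1 ∨ f % 4 = 3 := by omega
    rcases hD with h | h | h | h <;> rcases hf4 with h' | h' <;>
      simp [Int.mul_emod, h, h'] at h8 ⊢
  rcases (by omega : l' % 4 = 0 ∨ l' % 4 = 1 ∨ l' % 4 = 2 ∨ l' % 4 = 3) with h | h | h | h <;>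
    rcases (by omega : k' % 4 = 0 ∨ k' % 4 = 1 ∨ k' % 4 = 2 ∨ k' % 4 = 3) with h' | h' | h' | h' <;>
    simp [pow_two, Int.sub_emod, Int.mul_emod, h, h'] at h7

/-- the odd primes dividing `m` -/
lemma s2z_loc {p : ℕ} (hp : p.Prime) (hp2 : p ≠ 2) {m' : ℤ} (hpm : m = p * m') :
    (¬ (p : ℤ) ∣ e → Sq p e) ∧ ∀ e', e = p * e' → Sq p (m' * e') := by
  have hpp : Prime (p : ℤ) := Nat.prime_iff_prime_int.1 hp
  refine s2_ram (q := 1) hp hsq hco he hpm ?_ (by rw [← hA]; ring)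
  intro h
  exact hpp.not_isUnit (isUnit_of_dvd_one h)

/-- the prime three -/
lemma s2z_three (h3 : m % 3 = 1) : e % 3 = 1 := by
  have hm : ¬ ((3 : ℕ) : ℤ) ∣ m := by
    intro h
    have : (3 : ℤ) ∣ m := h
    omega
  have hp := Nat.prime_three
  have hpp : Prime ((3 : ℕ) : ℤ) := Nat.prime_iff_prime_int.1 hp
  have he3 : ¬ (3 : ℤ) ∣ e := by
    intro h
    exact hm (s2z_prime hsq hco he hA hB hp (by norm_num) (by norm_num) h)
  have sqm : ∀ x : ℤ, ¬ (3 : ℤ) ∣ x → x ^ 2 % 3 = 1 := by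
    intro x hx
    rcases (by omega : x % 3 = 1 ∨ x % 3 = 2) with h | h <;> simp [pow_two, Int.mul_emod, h]
  -- the conclusion from a representation of a nonzero square
  have fin : ∀ x y : ℤ, ¬ (3 : ℤ) ∣ x → (x ^ 2 - e * y ^ 2) % 3 = 0 → e % 3 = 1 := by
    intro x y hx hxy
    have h1 := sqm x hx
    have hy : ¬ (3 : ℤ) ∣ y := by
      rintro ⟨w, rfl⟩
      have : x ^ 2 - e * (3 * w) ^ 2 = x ^ 2 - 3 * (3 * e * w ^ 2) := by ring
      rw [this] at hxy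
      omega
    obtain ⟨t, ht⟩ : ∃ t, y ^ 2 = 3 * t + 1 := ⟨y ^ 2 / 3, by have := sqm y hy; omega⟩
    have : x ^ 2 - e * y ^ 2 = x ^ 2 - e - 3 * (e * t) := by rw [ht]; ring
    rw [this] at hxy
    omega
  have d3 : ∀ x : ℤ, (3 : ℤ) ∣ x ^ 2 → (3 : ℤ) ∣ x := fun x hx => hpp.dvd_of_dvd_pow hx
  by_cases hs : (3 : ℤ) ∣ s
  swap
  · refine fin s l hs ?_
    have : s ^ 2 - e * l ^ 2 = -(3 * (27 * m * z ^ 2)) := by linear_combination hB
    rw [this]
    omega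
  have hz : ¬ (3 : ℤ) ∣ z := fun h => hpp.not_isUnit (hco.isUnit_of_dvd' hs h)
  -- `m z² = e k² - s²` modulo 3
  obtain ⟨s', rfl⟩ := hs
  have hz1 := sqm z hz
  obtain ⟨t, ht⟩ : ∃ t, z ^ 2 = 3 * t + 1 := ⟨z ^ 2 / 3, by omega⟩
  have h1 : (e * k ^ 2) % 3 = 1 := by
    have : e * k ^ 2 = m + 3 * (3 * s' ^ 2 + m * t) := by
      rw [← hA, ht]; ring
    rw [this]
    omega
  have hk : ¬ (3 : ℤ) ∣ k := by
    rintro ⟨w, rfl⟩
    have : e * (3 * w) ^ 2 = 3 * (3 * e * w ^ 2) := by ring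
    rw [this] at h1
    omega
  obtain ⟨t', ht'⟩ : ∃ t, k ^ 2 = 3 * t + 1 := ⟨k ^ 2 / 3, by have := sqm k hk; omega⟩
  have : e * k ^ 2 = e + 3 * (e * t') := by rw [ht']; ring
  rw [this] at h1
  omega

/-- `e` divides `10 m` -/
lemma s2z_dvd : e ∣ 10 * m := by
  refine dvd_of_primes he fun p hp hpe => ?_
  by_cases hp2 : p = 2
  · subst hp2
    exact ⟨5 * m, by push_cast; ring⟩
  · by_cases hp5 : p = 5
    · subst hp5
      exact ⟨2 * m, by push_cast; ring⟩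
    · exact (s2z_prime hsq hco he hA hB hp hp2 hp5 hpe).mul_left _

end

end Pool.Agent.T2h79.XM.Z
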