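import Pool.Agent.T2h79.XM.Z.Red

/-!
# The changed systems
-/

set_option autoImplicit false
set_option linter.unusedVariables false
set_option linter.unusedSectionVars false

namespace Pool.Agent.T2h79.XM.Z

open Finset
open Pool.Agent.T2h79.XM
open Pool.Agent.Y703.CQ (nr)
open Pool.Agent.N973.ND (uu)
open Pool.Agent.N916.GB (Po sy Vt Gd Gv z2 z2_add_self z2_sq nr_recip z2_eq_of_add)
open Pool.Agent.N848.Q hiding star

open Pool.Agent.N848.Q renaming star → st

open scoped Classical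

theorem Gz_iffv (t : Bool) (r s : ZMod 2) (S : Finset ℕ) :
    Gz t r s S ↔ Gv (fun q p : Vt t S => sz r s (q : ℕ) (p : ℕ)) := by
  unfold Gz Gv
  constructor
  · intro h x hx p q
    have h1 := h (fun p => if hp : p ∈ Vt t S then x ⟨p, hp⟩ else 0) (by
      intro q hq
      have h2 := hx ⟨q, hq⟩
      rw [← sum_coe_sort (Vt t S)]
      refine Eq.trans (sum_congr rfl fun p _ => ?_) h2
      rw [dif_pos p.2, dif_pos hq]) p p.2 q q.2
    rw [dif_pos p.2, dif_pos q.2] at h1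
    exact h1
  · intro h x hx p hp q hq
    exact h (fun p => x p) (by
      intro q
      have h2 := hx q q.2
      rw [← sum_coe_sort (Vt t S)] at h2
      exact h2) ⟨p, hp⟩ ⟨q, hq⟩

/-- the column equation -/
noncomputable def Lz (t : Bool) (r s : ZMod 2) (S : Finset ℕ) (x : ℕ → ZMod 2) (p : ℕ) : ZMod 2 :=
  ∑ q ∈ Vt t S, (if q = p then 0 else x q * sz r s q p + x p * sz r s p q)

theorem left_twoz {t : Bool} {r s : ZMod 2} {S : Finset ℕ} (hG : Gz t r s S) {x y : ℕ → ZMod 2}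
    (hx : ∀ p ∈ Vt t S, Lz t r s S x p = 0) (hy : ∀ p ∈ Vt t S, Lz t r s S y p = 0)
    {p₀ : ℕ} (hp₀ : p₀ ∈ Vt t S) (hy0 : y p₀ ≠ 0) :
    (∀ p ∈ Vt t S, x p = 0) ∨ ∀ p ∈ Vt t S, x p = y p := by
  have : Nonempty (Vt t S) := ⟨⟨p₀, hp₀⟩⟩
  have key : ∀ x : ℕ → ZMod 2, (∀ p ∈ Vt t S, Lz t r s S x p = 0) → ∀ p : Vt t S,
      ∑ q : Vt t S, (if q = p then 0 else x q * sz r s (q : ℕ) (p : ℕ) +
        x p * sz r s (p : ℕ) (q : ℕ)) = 0 := by
    intro x hx p
    have h1 := hx p p.2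
    unfold Lz at h1
    rw [← sum_coe_sort (Vt t S)] at h1
    refine Eq.trans (sum_congr rfl fun q _ => ?_) h1
    by_cases h : q = p
    · rw [if_pos h, if_pos (congrArg _ h)]
    · rw [if_neg h, if_neg fun h' => h (Subtype.ext h')]
  rcases left_ker ((Gz_iffv t r s S).1 hG) (x := fun p => x p) (y := fun p => y p)
    (fun p => by convert key x hx p) (fun p => by convert key y hy p)
    (fun h => hy0 (congrFun h ⟨p₀, hp₀⟩)) with h | h
  · left
    intro p hp
    exact congrFun h ⟨p, hp⟩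
  · right
    intro p hp
    exact congrFun h ⟨p, hp⟩

/-- the sum of all the columns -/
lemma sum_Lz {t : Bool} {r s : ZMod 2} (S : Finset ℕ) (x : ℕ → ZMod 2) :
    ∑ p ∈ Vt t S, Lz t r s S x p = 0 := by
  have h1 : ∑ p ∈ Vt t S, Lz t r s S x p =
      ∑ p ∈ Vt t S, ∑ q ∈ Vt t S, (if q = p then 0 else x q * sz r s q p) +
      ∑ p ∈ Vt t S, ∑ q ∈ Vt t S, (if q = p then 0 else x p * sz r s p q) := by
    rw [← sum_add_distrib]
    refine sum_congr rfl fun p _ => ?_
    unfold Lz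
    rw [← sum_add_distrib]
    refine sum_congr rfl fun q _ => ?_
    split_ifs
    · rw [add_zero]
    · rfl
  have h2 : ∑ p ∈ Vt t S, ∑ q ∈ Vt t S, (if q = p then 0 else x p * sz r s p q) =
      ∑ p ∈ Vt t S, ∑ q ∈ Vt t S, (if q = p then 0 else x q * sz r s q p) := by
    rw [sum_comm]
    refine sum_congr rfl fun p _ => sum_congr rfl fun q _ => ?_
    by_cases h : q = p
    · rw [if_pos h, if_pos h.symm]
    · rw [if_neg h, if_neg (Ne.symm h)]
  rw [h1, h2, z2_add_self]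

section

variable {n : ℕ} {t : Bool} {r s : ZMod 2} {S : Finset ℕ}

/-- the column equation of the changed system -/
lemma lz_eq (x : ℕ → ZMod 2) {p : ℕ} (hp : p ∈ Vt t S) (hB : ∑ q ∈ Vt t S, be r q = 0) :
    Lz t r s S x p = Lk t r s S x p + be r p * ∑ q ∈ Vt t S, x q * al q := by
  have h1 : Lz t r s S x p = Lk t r s S x p + ∑ q ∈ Vt t S, (if q = p then 0 else
      x q * al q * be r p + x p * al p * be r q) := by
    unfold Lz Lk sz
    rw [← sum_add_distrib]
    refine sum_congr rfl fun q _ => ?_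
    split_ifs
    · rw [add_zero]
    · ring
  have h2 : ∑ q ∈ Vt t S, (if q = p then 0 else x q * al q * be r p + x p * al p * be r q) =
      ∑ q ∈ Vt t S, (x q * al q * be r p + x p * al p * be r q) := by
    refine sum_congr rfl fun q _ => ?_
    by_cases h : q = p
    · rw [if_pos h, h, z2_add_self]
    · rw [if_neg h]
  rw [h1, h2, sum_add_distrib, ← mul_sum, hB, mul_zero, add_zero, ← sum_mul]
  ring

lemma al2v : al 2 = 1 := if_pos rfl

lemma be2v : be r 2 = r := if_pos rfl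

lemma sum_be (hS : ∀ p ∈ S, Po p) (hok : t = false → r = 0 ∧ s = 0) (hB : ∑ p ∈ S, be r p = r) :
    ∑ q ∈ Vt t S, be r q = 0 := by
  rw [sum_Vt hS, hB, be2v]
  by_cases h : t = true
  · rw [if_pos h, z2_add_self]
  · rw [if_neg h, (hok (by simpa using h)).1, add_zero]

/-- the generator of the left kernel -/
theorem gen_leftz (hS : ∀ p ∈ S, Po p) (hok : t = false → r = 0 ∧ s = 0)
    (hU : ∑ p ∈ S, uu p = 1 + s) (hA : ∑ p ∈ S, al p = r) (hB : ∑ p ∈ S, be r p = r) :
    ∀ p ∈ Vt t S, Lz t r s S (fun q => if q = 2 then r else 1) p = 0 := by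
  intro p hp
  rw [lz_eq _ hp (sum_be hS hok hB), gen_left hS hok hU p hp, zero_add, sum_Vt hS, if_pos rfl,
    al2v, mul_one]
  have h1 : ∑ q ∈ S, (if q = 2 then r else 1) * al q = r := by
    rw [← hA]
    refine sum_congr rfl fun q hq => ?_
    rw [if_neg (hS q hq).2, one_mul]
  rw [h1]
  by_cases h : t = true
  · rw [if_pos h, z2_add_self, mul_zero]
  · rw [if_neg h, (hok (by simpa using h)).1, add_zero, mul_zero]

/-! ### the symbols modulo three and five -/

lemma al_ns {q : ℕ} (hq : Po q) (h3 : q ≠ 3) : ns q (-3) = al q := by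
  have hq3 : ¬ (q : ℤ) ∣ 3 := by
    intro h
    exact h3 ((Nat.prime_dvd_prime_iff_eq hq.1 Nat.prime_three).1 (by exact_mod_cast h))
  have hq1 : ¬ (q : ℤ) ∣ -1 := by
    rw [dvd_neg]
    intro h2
    exact hq.1.one_lt.ne' (Nat.dvd_one.1 (by exact_mod_cast h2))
  have h1 : ns q (-3) = uu q + nr q 3 := by
    have : (-3 : ℤ) = (-1) * ((3 : ℕ) : ℤ) := by norm_num
    rw [this, ns_mul hq.1 hq1 (by exact_mod_cast hq3), ns_neg_one hq.1, ns_nat]
  have h2 := nr_recip hq ⟨Nat.prime_three, by norm_num⟩ h3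
  have h3' : uu 3 = 1 := if_pos rfl
  have h4 : nr 3 q = al q := by
    have hqm : q % 3 = 1 ∨ q % 3 = 2 := by
      have : q % 3 ≠ 0 := by
        intro h
        exact h3 ((Nat.prime_dvd_prime_iff_eq Nat.prime_three hq.1).1 (Nat.dvd_of_mod_eq_zero h)).symm
      omega
    have e1 : (q : ZMod 3) = ((q % 3 : ℕ) : ZMod 3) := (ZMod.natCast_mod q 3).symm
    unfold Pool.Agent.Y703.CQ.nr al
    rw [e1]
    rcases hqm with h | h
    · have e : IsSquare (((q % 3 : ℕ)) : ZMod 3) := by rw [h]; exact ⟨1, by decide⟩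
      rw [if_pos e, if_neg (by omega)]
    · have e : ¬ IsSquare (((q % 3 : ℕ)) : ZMod 3) := by rw [h]; decide
      rw [if_neg e, if_pos h]
  rw [h3', mul_one, h4] at h2
  rw [h1]
  linear_combination -h2 + (nr q 3) * two0

lemma be_ns {p : ℕ} (hp : Po p) (h5 : p ≠ 5) : ns p 5 = be r p ∧ nr p 5 = be r p := by
  have h1 : nr 5 p = be r p := by
    have hqm : p % 5 = 1 ∨ p % 5 = 2 ∨ p % 5 = 3 ∨ p % 5 = 4 := by
      have : p % 5 ≠ 0 := by
        intro h
        exact h5 ((Nat.prime_dvd_prime_iff_eq Nat.prime_five hp.1).1 (Nat.dvd_of_mod_eq_zero h)).symm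
      omega
    have e1 : (p : ZMod 5) = ((p % 5 : ℕ) : ZMod 5) := (ZMod.natCast_mod p 5).symm
    unfold Pool.Agent.Y703.CQ.nr be
    rw [e1, if_neg hp.2]
    rcases hqm with h | h | h | h
    · have e : IsSquare (((p % 5 : ℕ)) : ZMod 5) := by rw [h]; exact ⟨1, by decide⟩
      rw [if_pos e, if_neg (by omega)]
    · have e : ¬ IsSquare (((p % 5 : ℕ)) : ZMod 5) := by rw [h]; decide
      rw [if_neg e, if_pos (by omega)]
    · have e : ¬ IsSquare (((p % 5 : ℕ)) : ZMod 5) := by rw [h]; decide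
      rw [if_neg e, if_pos (by omega)]
    · have e : IsSquare (((p % 5 : ℕ)) : ZMod 5) := by rw [h]; exact ⟨2, by decide⟩
      rw [if_pos e, if_neg (by omega)]
  have h2 := nr_recip hp ⟨Nat.prime_five, by norm_num⟩ h5
  have h3 : uu 5 = 0 := if_neg (by norm_num)
  rw [h3, mul_zero, h1] at h2
  have h4 : nr p 5 = be r p := z2_eq_of_add h2
  refine ⟨?_, h4⟩
  rw [← h4]
  exact ns_nat p 5

lemma ns5 : ns 5 (-3) = 1 := by
  unfold ns
  rw [if_neg]
  decide

/-- the product modulo three -/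
lemma prod_three (T : Finset ℕ) (h : ∀ p ∈ T, p % 3 ≠ 0) :
    (∏ p ∈ T, p) % 3 = if ∑ p ∈ T, al p = 0 then 1 else 2 := by
  induction T using Finset.induction_on with
  | empty => rw [prod_empty, sum_empty, if_pos rfl]; norm_num
  | insert a S ha ih =>
    rw [prod_insert ha, sum_insert ha, Nat.mul_mod, ih fun p hp => h p (mem_insert_of_mem hp)]
    have h1 := h a (mem_insert_self a S)
    rcases (by omega : a % 3 = 1 ∨ a % 3 = 2) with h2 | h2
    · have h3 : al a = 0 := if_neg (by omega)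
      rw [h2, h3, zero_add]
      split_ifs <;> rfl
    · have h3 : al a = 1 := if_pos h2
      rw [h2, h3]
      rcases z2 (∑ p ∈ S, al p) with h4 | h4 <;> rw [h4]
      · rw [if_pos rfl, if_neg (by decide)]
      · rw [if_neg (by decide), if_pos (by decide)]

/-- the product modulo five -/
lemma prod_five (T : Finset ℕ) (h : ∀ p ∈ T, p % 5 ≠ 0 ∧ p ≠ 2) :
    ((∑ p ∈ T, be r p = 0 ∧ ((∏ p ∈ T, p) % 5 = 1 ∨ (∏ p ∈ T, p) % 5 = 4)) ∨
      (∑ p ∈ T, be r p = 1 ∧ ((∏ p ∈ T, p) % 5 = 2 ∨ (∏ p ∈ T, p) % 5 = 3))) := by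
  induction T using Finset.induction_on with
  | empty => left; simp
  | insert a S ha ih =>
    rw [prod_insert ha, sum_insert ha]
    have ih' := ih fun p hp => h p (mem_insert_of_mem hp)
    obtain ⟨h1, h2⟩ := h a (mem_insert_self a S)
    have h3 : be r a = if a % 5 = 2 ∨ a % 5 = 3 then 1 else 0 := if_neg h2
    have h4 : (a * ∏ p ∈ S, p) % 5 = ((a % 5) * ((∏ p ∈ S, p) % 5)) % 5 := Nat.mul_mod _ _ _
    rw [h3, h4]
    rcases (by omega : a % 5 = 1 ∨ a % 5 = 2 ∨ a % 5 = 3 ∨ a % 5 = 4) with h5 | h5 | h5 | h5 <;>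
      rcases ih' with ⟨h6, h7 | h7⟩ | ⟨h6, h7 | h7⟩ <;> rw [h5, h6, h7] <;> decide

end

end Pool.Agent.T2h79.XM.Z
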